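import Mathlib

/-!
# Bernoulli bond percolation on the cubic lattice: basic definitions

The model is literally that of the frozen statement `S19327`.
-/

set_option autoImplicit false
set_option linter.deprecated false

open MeasureTheory Filter Topology
open scoped ENNReal NNReal

namespace Pool.Agent.Lib.MP_54f242_pr

/-- The vertices of the cubic lattice. -/
abbrev Vtx (d : ℕ) : Type := Fin d → ℤ

/-- The bonds of the cubic lattice: `(a, i)` stands for the bond between `a` and `a + e_i`. -/
abbrev Bond (d : ℕ) : Type := Vtx d × Fin d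

/-- The graph of the open bonds of a configuration. -/
def openGraph {d : ℕ} (ω : Bond d → Bool) : SimpleGraph (Vtx d) :=
  SimpleGraph.fromRel
    (fun a b : Fin d → ℤ => ∃ i : Fin d, b = a + Pi.single i (1 : ℤ) ∧ ω (a, i) = true)

/-- The open cluster of the origin. -/
def cluster {d : ℕ} (ω : Bond d → Bool) : Set (Vtx d) := {x | (openGraph ω).Reachable 0 x}

/-- The law of bond percolation: the bonds are open independently, with probability `p`. -/
noncomputable def law (d : ℕ) (p : ℝ≥0) (hp : p ≤ 1) : Measure (Bond d → Bool) :=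
  Measure.infinitePi (fun _ : Bond d => (PMF.bernoulli p hp).toMeasure)

/-- The two-point function `τ_p(x) = P_p(0 ↔ x)`. -/
noncomputable def tau (d : ℕ) (p : ℝ≥0) (hp : p ≤ 1) (x : Vtx d) : ℝ :=
  (law d p hp {ω | (openGraph ω).Reachable 0 x}).toReal

/-- The susceptibility `χ(p) = ∑ₓ τ_p(x)`. -/
noncomputable def chi (d : ℕ) (p : ℝ≥0) (hp : p ≤ 1) : ℝ := ∑' x, tau d p hp x

/-- The Fourier transform of the two-point function,
`∑ₓ τ_p(x) cos(k·x)` (which is `∑ₓ τ_p(x) exp(i k·x)` by symmetry). -/
noncomputable def tauHat (d : ℕ) (p : ℝ≥0) (hp : p ≤ 1) (k : Fin d → ℝ) : ℝ :=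
  ∑' x : Vtx d, tau d p hp x * Real.cos (∑ i, k i * (x i : ℝ))

/-- The cube `(-π, π]^d`. -/
def torus (d : ℕ) : Set (Fin d → ℝ) := Set.univ.pi fun _ => Set.Ioc (-Real.pi) Real.pi

/-- `|∑_{x ∈ A} exp(i k·x)|²`. -/
noncomputable def ampl {d : ℕ} (A : Finset (Vtx d)) (k : Fin d → ℝ) : ℝ :=
  ‖∑ x ∈ A, Complex.exp (((∑ i, k i * (x i : ℝ) : ℝ) : ℂ) * Complex.I)‖ ^ 2

/-- `|∑_{x ∈ C} exp(i k·x)|² / |C|` for a finite set `C` (and `0` for an infinite set). -/
noncomputable def spec {d : ℕ} (C : Set (Vtx d)) (k : Fin d → ℝ) : ℝ :=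
  open Classical in
  if h : C.Finite then ampl h.toFinset k / h.toFinset.card else 0

/-- The law of independent uniform labels on the bonds. -/
noncomputable def labelLaw (d : ℕ) : Measure (Bond d → ℝ) :=
  Measure.infinitePi (fun _ : Bond d => (volume : Measure ℝ).restrict (Set.Icc 0 1))

/-- The configuration in which the open bonds are those with label smaller than `t`. -/
noncomputable def conf {d : ℕ} (t : ℝ) (U : Bond d → ℝ) : Bond d → Bool :=
  open Classical in fun e => decide (U e < t)

end Pool.Agent.Lib.MP_54f242_pr
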