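import Pool.Agent.Lib.MP_54f242_pr.Defs

/-!
# Mass transport for the cluster of the origin
-/

set_option autoImplicit false
set_option linter.deprecated false

open MeasureTheory Filter Topology
open scoped ENNReal NNReal

namespace Pool.Agent.Lib.MP_54f242_pr

namespace Transport

variable {d : ℕ}

theorem isProb (d : ℕ) (p : ℝ≥0) (hp : p ≤ 1) : IsProbabilityMeasure (law d p hp) := by
  unfold law; infer_instance

/-! ### Measurability -/

theorem adj_iff (ω : Bond d → Bool) (a b : Vtx d) : (openGraph ω).Adj a b ↔ a ≠ b ∧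
    ((∃ i : Fin d, b = a + Pi.single i (1 : ℤ) ∧ ω (a, i) = true) ∨
      (∃ i : Fin d, a = b + Pi.single i (1 : ℤ) ∧ ω (b, i) = true)) := by
  unfold openGraph; rw [SimpleGraph.fromRel_adj]

theorem measurableSet_open (e : Bond d) : MeasurableSet {ω : Bond d → Bool | ω e = true} :=
  measurableSet_eq_fun (measurable_pi_apply e) measurable_const

theorem measurableSet_adj (a b : Vtx d) :
    MeasurableSet {ω : Bond d → Bool | (openGraph ω).Adj a b} := by
  have : {ω : Bond d → Bool | (openGraph ω).Adj a b} = {_ω | a ≠ b} ∩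
      ((⋃ i : Fin d, ({_ω | b = a + Pi.single i (1 : ℤ)} ∩ {ω | ω (a, i) = true})) ∪
        (⋃ i : Fin d, ({_ω | a = b + Pi.single i (1 : ℤ)} ∩ {ω | ω (b, i) = true}))) := by
    ext ω
    simp only [Set.mem_setOf_eq, adj_iff, Set.mem_inter_iff, Set.mem_union, Set.mem_iUnion]
  rw [this]
  refine (MeasurableSet.const _).inter (MeasurableSet.union ?_ ?_)
  · exact MeasurableSet.iUnion fun i => (MeasurableSet.const _).inter (measurableSet_open _)
  · exact MeasurableSet.iUnion fun i => (MeasurableSet.const _).inter (measurableSet_open _)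

/-- Joined by an open walk of length `n`. -/
def R : ℕ → Vtx d → Vtx d → Set (Bond d → Bool)
  | 0, x, y => {_ω | x = y}
  | n + 1, x, y => ⋃ z, {ω | (openGraph ω).Adj x z} ∩ R n z y

theorem measurableSet_R (n : ℕ) (x y : Vtx d) : MeasurableSet (R n x y) := by
  induction n generalizing x with
  | zero => exact MeasurableSet.const _
  | succ n ih => exact MeasurableSet.iUnion fun z => (measurableSet_adj x z).inter (ih z)

theorem mem_R (n : ℕ) (x y : Vtx d) (ω : Bond d → Bool) :
    ω ∈ R n x y ↔ ∃ p : (openGraph ω).Walk x y, p.length = n := by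
  induction n generalizing x with
  | zero =>
    constructor
    · intro h
      have h' : x = y := h
      subst h'
      exact ⟨SimpleGraph.Walk.nil, rfl⟩
    · rintro ⟨p, hp⟩
      exact SimpleGraph.Walk.eq_of_length_eq_zero hp
  | succ n ih =>
    constructor
    · intro h
      obtain ⟨z, hz1, hz2⟩ := Set.mem_iUnion.1 h
      obtain ⟨p, hp⟩ := (ih z).1 hz2
      exact ⟨SimpleGraph.Walk.cons hz1 p, by rw [SimpleGraph.Walk.length_cons, hp]⟩
    · rintro ⟨p, hp⟩
      cases p with
      | nil => simp at hp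
      | @cons _ z _ h p =>
        rw [SimpleGraph.Walk.length_cons] at hp
        exact Set.mem_iUnion.2 ⟨z, h, (ih z).2 ⟨p, by omega⟩⟩

theorem measurableSet_reachable' (x y : Vtx d) :
    MeasurableSet {ω : Bond d → Bool | (openGraph ω).Reachable x y} := by
  have : {ω : Bond d → Bool | (openGraph ω).Reachable x y} = ⋃ n, R n x y := by
    ext ω
    simp only [Set.mem_setOf_eq, Set.mem_iUnion, mem_R]
    constructor
    · rintro ⟨p⟩
      exact ⟨p.length, p, rfl⟩
    · rintro ⟨n, p, _⟩
      exact ⟨p⟩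
  rw [this]
  exact MeasurableSet.iUnion fun n => measurableSet_R n x y

theorem measurableSet_mem_cluster (x : Vtx d) :
    MeasurableSet {ω : Bond d → Bool | x ∈ cluster ω} :=
  measurableSet_reachable' 0 x

theorem measurableSet_cluster_eq (A : Finset (Vtx d)) :
    MeasurableSet {ω : Bond d → Bool | cluster ω = (A : Set (Vtx d))} := by
  have : {ω : Bond d → Bool | cluster ω = (A : Set (Vtx d))} =
      ⋂ x : Vtx d, (({ω | x ∈ cluster ω} ∩ {_ω | x ∈ A}) ∪
        ({ω | x ∈ cluster ω}ᶜ ∩ {_ω | x ∈ A}ᶜ)) := by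
    ext ω
    simp only [Set.mem_setOf_eq, Set.mem_iInter, Set.mem_union, Set.mem_inter_iff,
      Set.mem_compl_iff, Set.ext_iff, Finset.mem_coe]
    constructor
    · intro h x
      rw [h x]
      tauto
    · intro h x
      have := h x
      tauto
  rw [this]
  refine MeasurableSet.iInter fun x => MeasurableSet.union ?_ ?_
  · exact (measurableSet_mem_cluster x).inter (MeasurableSet.const _)
  · exact (measurableSet_mem_cluster x).compl.inter (MeasurableSet.const _).compl

open Classical in
/-- The cluster as a finite set. -/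
noncomputable def F (ω : Bond d → Bool) : Option (Finset (Vtx d)) :=
  if h : (cluster ω).Finite then some h.toFinset else none

theorem F_of_eq {ω : Bond d → Bool} {A : Finset (Vtx d)} (h : cluster ω = (A : Set (Vtx d))) :
    F ω = some A := by
  have hf : (cluster ω).Finite := by rw [h]; exact A.finite_toSet
  unfold F
  rw [dif_pos hf]
  congr 1
  ext x
  rw [Set.Finite.mem_toFinset, h, Finset.mem_coe]

theorem F_eq_some {ω : Bond d → Bool} {A : Finset (Vtx d)} :
    F ω = some A ↔ cluster ω = (A : Set (Vtx d)) := by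
  refine ⟨?_, F_of_eq⟩
  intro h
  unfold F at h
  split_ifs at h with hf
  rw [← Option.some.inj h, Set.Finite.coe_toFinset]

theorem F_eq_none {ω : Bond d → Bool} : F ω = none ↔ ¬ (cluster ω).Finite := by
  unfold F
  split_ifs with hf
  · simp [hf]
  · simp [hf]

theorem measurable_F : @Measurable (Bond d → Bool) (Option (Finset (Vtx d))) _ ⊤ F := by
  let _ : MeasurableSpace (Option (Finset (Vtx d))) := ⊤
  have hs : ∀ A : Finset (Vtx d), MeasurableSet (F ⁻¹' {some A}) := by
    intro A
    have : F ⁻¹' {some A} = {ω : Bond d → Bool | cluster ω = (A : Set (Vtx d))} := by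
      ext ω
      exact F_eq_some
    rw [this]
    exact measurableSet_cluster_eq A
  apply measurable_to_countable'
  intro o
  cases o with
  | some A => exact hs A
  | none =>
    have : F ⁻¹' {none} = (⋃ A : Finset (Vtx d), (F (d := d) ⁻¹' {some A}))ᶜ := by
      ext ω
      simp only [Set.mem_preimage, Set.mem_singleton_iff, Set.mem_compl_iff, Set.mem_iUnion,
        not_exists]
      cases F ω with
      | none => simp
      | some A => simp
    rw [this]
    exact (MeasurableSet.iUnion hs).compl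

theorem measurable_fun {β : Type*} [MeasurableSpace β] (G : Set (Vtx d) → β → ℝ)
    (hG : ∀ A : Finset (Vtx d), Measurable (G A))
    (h0 : ∀ C : Set (Vtx d), ¬ C.Finite → ∀ b, G C b = 0) :
    Measurable (fun z : (Bond d → Bool) × β => G (cluster z.1) z.2) := by
  let _ : MeasurableSpace (Option (Finset (Vtx d))) := ⊤
  let G' : Option (Finset (Vtx d)) × β → ℝ := fun z =>
    match z.1 with
    | none => 0
    | some A => G A z.2
  have hG' : Measurable G' := by
    apply measurable_from_prod_countable_right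
    intro o
    cases o with
    | none => exact measurable_const
    | some A => exact hG A
  have heq : (fun z : (Bond d → Bool) × β => G (cluster z.1) z.2) =
      G' ∘ (Prod.map F id) := by
    funext z
    show G (cluster z.1) z.2 = G' (F z.1, z.2)
    by_cases hf : (cluster z.1).Finite
    · have hc : cluster z.1 = (hf.toFinset : Set (Vtx d)) := (Set.Finite.coe_toFinset hf).symm
      have h1 : F z.1 = some hf.toFinset := F_of_eq hc
      rw [h1]
      show G (cluster z.1) z.2 = G hf.toFinset z.2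
      rw [← hc]
    · rw [F_eq_none.2 hf, h0 _ hf]
  rw [heq]
  exact hG'.comp (measurable_F.prodMap measurable_id)

theorem spec_coe (A : Finset (Vtx d)) (k : Fin d → ℝ) :
    spec (A : Set (Vtx d)) k = ampl A k / A.card := by
  unfold spec
  rw [dif_pos A.finite_toSet]
  simp only [Finset.finite_toSet_toFinset]

theorem spec_infinite {C : Set (Vtx d)} (hC : ¬ C.Finite) (k : Fin d → ℝ) : spec C k = 0 := by
  unfold spec
  rw [dif_neg hC]

theorem measurable_ampl (A : Finset (Vtx d)) : Measurable (ampl A) := by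
  unfold ampl
  fun_prop

theorem measurable_spec' : Measurable
    (fun z : (Bond d → Bool) × (Fin d → ℝ) => spec (cluster z.1) z.2) := by
  apply measurable_fun
  · intro A
    have : spec (A : Set (Vtx d)) = fun k => ampl A k / A.card := by
      funext k; exact spec_coe A k
    rw [this]
    exact (measurable_ampl A).div_const _
  · intro C hC b
    exact spec_infinite hC b

/-! ### The size of the cluster -/

open Classical in
theorem lintegral_indicator (p : ℝ≥0) (hp : p ≤ 1) (x : Vtx d) :
    ∫⁻ ω, (if x ∈ cluster ω then 1 else 0 : ℝ≥0∞) ∂(law d p hp) = ENNReal.ofReal (tau d p hp x) := by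
  have := isProb d p hp
  have : (fun ω : Bond d → Bool => (if x ∈ cluster ω then 1 else 0 : ℝ≥0∞)) =
      ({ω | x ∈ cluster ω} : Set (Bond d → Bool)).indicator 1 := by
    funext ω
    simp [Set.indicator_apply]
  rw [this, lintegral_indicator_one (measurableSet_mem_cluster x)]
  unfold tau
  rw [ENNReal.ofReal_toReal (measure_ne_top _ _)]
  rfl

theorem tau_nonneg (p : ℝ≥0) (hp : p ≤ 1) (x : Vtx d) : 0 ≤ tau d p hp x :=
  ENNReal.toReal_nonneg

theorem measure_mem (p : ℝ≥0) (hp : p ≤ 1) (x : Vtx d) :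
    law d p hp {ω | x ∈ cluster ω} = ENNReal.ofReal (tau d p hp x) := by
  have := isProb d p hp
  unfold tau
  rw [ENNReal.ofReal_toReal (measure_ne_top _ _)]
  rfl

theorem measurable_indicator (x : Vtx d) :
    open Classical in
    Measurable (fun ω : Bond d → Bool => (if x ∈ cluster ω then 1 else 0 : ℝ≥0∞)) := by
  classical
  exact Measurable.ite (measurableSet_mem_cluster x) measurable_const measurable_const

open Classical in
theorem lintegral_size (p : ℝ≥0) (hp : p ≤ 1) (hs : Summable (tau d p hp)) :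
    ∫⁻ ω, ∑' x : Vtx d, (if x ∈ cluster ω then 1 else 0 : ℝ≥0∞) ∂(law d p hp) =
      ENNReal.ofReal (chi d p hp) := by
  rw [lintegral_tsum (fun x => (measurable_indicator x).aemeasurable)]
  unfold chi
  rw [ENNReal.ofReal_tsum_of_nonneg (tau_nonneg p hp) hs]
  congr 1
  funext x
  exact lintegral_indicator p hp x

open Classical in
theorem size_finset {C : Set (Vtx d)} (hC : C.Finite) :
    ∑' x : Vtx d, (if x ∈ C then 1 else 0 : ℝ≥0∞) = hC.toFinset.card := by
  rw [tsum_eq_sum (s := hC.toFinset)]
  · rw [Finset.sum_congr rfl (g := fun _ => (1 : ℝ≥0∞))]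
    · simp
    · intro x hx
      rw [Set.Finite.mem_toFinset] at hx
      rw [if_pos hx]
  · intro x hx
    rw [Set.Finite.mem_toFinset] at hx
    rw [if_neg hx]

/-! ### Translations -/

/-- Translation of a configuration. -/
def T (z : Vtx d) (ω : Bond d → Bool) : Bond d → Bool := fun e => ω (e.1 + z, e.2)

theorem measurePreserving_T (p : ℝ≥0) (hp : p ≤ 1) (z : Vtx d) :
    MeasurePreserving (T z) (law d p hp) (law d p hp) := by
  have hinj : Function.Injective (fun e : Bond d => (e.1 + z, e.2)) := by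
    rintro ⟨a, i⟩ ⟨b, j⟩ h
    simp only [Prod.mk.injEq, add_left_inj] at h
    rw [h.1, h.2]
  refine ⟨?_, ?_⟩
  · exact measurable_pi_lambda _ fun e => measurable_pi_apply _
  · unfold law
    exact Measure.map_infinitePi_infinitePi_of_inj (P := fun _ : Bond d =>
      (PMF.bernoulli p hp).toMeasure) hinj

theorem adj_T (z : Vtx d) (ω : Bond d → Bool) (a b : Vtx d) :
    (openGraph (T z ω)).Adj a b ↔ (openGraph ω).Adj (a + z) (b + z) := by
  have h1 : ∀ (a b : Vtx d) (i : Fin d), b = a + Pi.single i (1 : ℤ) ↔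
      b + z = a + z + Pi.single i (1 : ℤ) := by
    intro a b i
    rw [add_right_comm, add_left_inj]
  rw [adj_iff, adj_iff]
  have e1 : a ≠ b ↔ a + z ≠ b + z := by rw [ne_eq, ne_eq, add_left_inj]
  exact and_congr e1 (or_congr (exists_congr fun i => and_congr (h1 a b i) Iff.rfl)
    (exists_congr fun i => and_congr (h1 b a i) Iff.rfl))

theorem reachable_T (z : Vtx d) (ω : Bond d → Bool) (a b : Vtx d) :
    (openGraph (T z ω)).Reachable a b ↔ (openGraph ω).Reachable (a + z) (b + z) := by
  let φ : openGraph (T z ω) ≃g openGraph ω :=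
    { toEquiv := Equiv.addRight z
      map_rel_iff' := by
        intro a b
        exact (adj_T z ω a b).symm }
  exact (φ.reachable_iff (u := a) (v := b)).symm

theorem neg_mem_cluster_T (x : Vtx d) (ω : Bond d → Bool) :
    -x ∈ cluster (T x ω) ↔ x ∈ cluster ω := by
  show (openGraph (T x ω)).Reachable 0 (-x) ↔ (openGraph ω).Reachable 0 x
  rw [reachable_T, zero_add, neg_add_cancel]
  exact ⟨fun h => h.symm, fun h => h.symm⟩

theorem mem_cluster_T {x : Vtx d} {ω : Bond d → Bool} (hx : x ∈ cluster ω) (y : Vtx d) :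
    y ∈ cluster (T x ω) ↔ y + x ∈ cluster ω := by
  have hx' : (openGraph ω).Reachable 0 x := hx
  show (openGraph (T x ω)).Reachable 0 y ↔ (openGraph ω).Reachable 0 (y + x)
  rw [reachable_T, zero_add]
  exact ⟨fun h => hx'.trans h, fun h => hx'.symm.trans h⟩

/-! ### The transported function -/

open Classical in
/-- `(1/|C|) ∑_{z ∈ C} cos (k·z)` for finite `C`. -/
noncomputable def phi (k : Fin d → ℝ) (C : Set (Vtx d)) : ℝ :=
  if h : C.Finite then (∑ z ∈ h.toFinset, Real.cos (∑ i, k i * ((z i : ℤ) : ℝ))) / h.toFinset.card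
  else 0

theorem phi_coe (k : Fin d → ℝ) (A : Finset (Vtx d)) :
    phi k (A : Set (Vtx d)) = (∑ z ∈ A, Real.cos (∑ i, k i * ((z i : ℤ) : ℝ))) / A.card := by
  unfold phi
  rw [dif_pos A.finite_toSet]
  simp only [Finset.finite_toSet_toFinset]

theorem phi_infinite (k : Fin d → ℝ) {C : Set (Vtx d)} (hC : ¬ C.Finite) : phi k C = 0 := by
  unfold phi
  rw [dif_neg hC]

theorem abs_phi_le (k : Fin d → ℝ) (C : Set (Vtx d)) : |phi k C| ≤ 1 := by
  by_cases hC : C.Finite
  · have hc : C = (hC.toFinset : Set (Vtx d)) := (Set.Finite.coe_toFinset hC).symm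
    rw [hc, phi_coe]
    rw [abs_div, Nat.abs_cast]
    apply div_le_one_of_le₀
    · calc |∑ z ∈ hC.toFinset, Real.cos (∑ i, k i * ((z i : ℤ) : ℝ))|
          ≤ ∑ z ∈ hC.toFinset, |Real.cos (∑ i, k i * ((z i : ℤ) : ℝ))| :=
            Finset.abs_sum_le_sum_abs _ _
        _ ≤ ∑ z ∈ hC.toFinset, (1 : ℝ) := Finset.sum_le_sum fun z _ => Real.abs_cos_le_one _
        _ = hC.toFinset.card := by rw [Finset.sum_const, nsmul_eq_mul, mul_one]
    · exact Nat.cast_nonneg _
  · rw [phi_infinite k hC, abs_zero]
    exact zero_le_one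

theorem measurable_phi (k : Fin d → ℝ) :
    Measurable (fun ω : Bond d → Bool => phi k (cluster ω)) := by
  have h := measurable_fun (d := d) (β := Unit) (fun C _ => phi k C)
    (fun A => measurable_const) (fun C hC _ => phi_infinite k hC)
  exact h.comp (measurable_id.prodMk (measurable_const (a := ())))

/-- For a finite cluster, the value at the cluster seen from `x`. -/
theorem phi_T (k : Fin d → ℝ) {ω : Bond d → Bool} {A : Finset (Vtx d)}
    (hA : cluster ω = (A : Set (Vtx d))) {x : Vtx d} (hx : x ∈ A) :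
    phi k (cluster (T x ω)) =
      (∑ z ∈ A, Real.cos (∑ i, k i * (((z - x) i : ℤ) : ℝ))) / A.card := by
  classical
  have hxc : x ∈ cluster ω := by rw [hA]; exact hx
  have h1 : cluster (T x ω) = ((A.image (fun z => z - x) : Finset (Vtx d)) : Set (Vtx d)) := by
    ext y
    rw [mem_cluster_T hxc, hA]
    simp only [Finset.mem_coe, Finset.mem_image]
    constructor
    · intro h
      exact ⟨y + x, h, add_sub_cancel_right y x⟩
    · rintro ⟨z, hz, rfl⟩
      rw [sub_add_cancel]
      exact hz
  have hinj : Function.Injective (fun z : Vtx d => z - x) := sub_left_injective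
  rw [h1, phi_coe, Finset.sum_image (fun a _ b _ h => hinj h), Finset.card_image_of_injective _ hinj]

open Classical in
noncomputable def g (k : Fin d → ℝ) (x : Vtx d) (ω : Bond d → Bool) : ℝ :=
  if x ∈ cluster ω then phi k (cluster (T x ω)) else 0

open Classical in
noncomputable def h (k : Fin d → ℝ) (y : Vtx d) (ω : Bond d → Bool) : ℝ :=
  if y ∈ cluster ω then phi k (cluster ω) else 0

open Classical in
noncomputable def c (k : Fin d → ℝ) (y : Vtx d) (ω : Bond d → Bool) : ℝ :=
  if y ∈ cluster ω then Real.cos (∑ i, k i * ((y i : ℤ) : ℝ)) else 0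

theorem g_eq_h (k : Fin d → ℝ) (x : Vtx d) (ω : Bond d → Bool) : g k x ω = h k (-x) (T x ω) := by
  unfold g h
  by_cases hx : x ∈ cluster ω
  · rw [if_pos hx, if_pos ((neg_mem_cluster_T x ω).2 hx)]
  · rw [if_neg hx, if_neg (fun h => hx ((neg_mem_cluster_T x ω).1 h))]

theorem measurable_h (k : Fin d → ℝ) (y : Vtx d) : Measurable (h k y) := by
  unfold h
  exact Measurable.ite (measurableSet_mem_cluster y) (measurable_phi k) measurable_const

theorem measurable_g (k : Fin d → ℝ) (p : ℝ≥0) (hp : p ≤ 1) (x : Vtx d) : Measurable (g k x) := by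
  have : g k x = h k (-x) ∘ T x := by
    funext ω
    exact g_eq_h k x ω
  rw [this]
  exact (measurable_h k _).comp (measurePreserving_T p hp x).measurable

theorem measurable_c (k : Fin d → ℝ) (y : Vtx d) : Measurable (c k y) := by
  unfold c
  exact Measurable.ite (measurableSet_mem_cluster y) measurable_const measurable_const

open Classical in
theorem integral_ind (p : ℝ≥0) (hp : p ≤ 1) (x : Vtx d) :
    ∫ ω, (if x ∈ cluster ω then 1 else 0 : ℝ) ∂(law d p hp) = tau d p hp x := by
  have : (fun ω : Bond d → Bool => (if x ∈ cluster ω then 1 else 0 : ℝ)) =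
      ({ω | x ∈ cluster ω} : Set (Bond d → Bool)).indicator 1 := by
    funext ω
    simp [Set.indicator_apply]
  rw [this, integral_indicator_one (measurableSet_mem_cluster x)]
  rfl

open Classical in
/-- Exchange of sum and integral for functions dominated by `1[x ∈ C]`. -/
theorem hasSum_of_dom (p : ℝ≥0) (hp : p ≤ 1) (hs : Summable (tau d p hp))
    (f : Vtx d → (Bond d → Bool) → ℝ) (hf : ∀ x, Measurable (f x))
    (hdom : ∀ x ω, ‖f x ω‖ ≤ if x ∈ cluster ω then 1 else 0) :
    (∀ x, Integrable (f x) (law d p hp)) ∧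
    HasSum (fun x => ∫ ω, f x ω ∂(law d p hp)) (∫ ω, ∑' x, f x ω ∂(law d p hp)) := by
  have := isProb d p hp
  have hbound : ∀ x, Integrable (fun ω : Bond d → Bool => (if x ∈ cluster ω then 1 else 0 : ℝ))
      (law d p hp) := by
    intro x
    refine Integrable.of_bound (C := 1) ?_ ?_
    · exact (Measurable.ite (measurableSet_mem_cluster x) measurable_const
        measurable_const).aestronglyMeasurable
    · refine Eventually.of_forall fun ω => ?_
      split_ifs <;> simp
  have hint : ∀ x, Integrable (f x) (law d p hp) := by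
    intro x
    refine (hbound x).mono' (hf x).aestronglyMeasurable (Eventually.of_forall fun ω => hdom x ω)
  refine ⟨hint, hasSum_integral_of_summable_integral_norm hint ?_⟩
  refine Summable.of_nonneg_of_le (fun x => integral_nonneg fun ω => norm_nonneg _)
    (fun x => ?_) hs
  rw [← integral_ind p hp x]
  exact integral_mono (hint x).norm (hbound x) (fun ω => hdom x ω)

theorem ampl_eq_sum' (A : Finset (Vtx d)) (k : Fin d → ℝ) :
    ampl A k = ∑ x ∈ A, ∑ y ∈ A, Real.cos (∑ i, k i * (((x - y) i : ℤ) : ℝ)) := by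
  unfold ampl
  rw [Complex.sq_norm, Complex.normSq_apply, Complex.re_sum, Complex.im_sum,
    Finset.sum_mul_sum, Finset.sum_mul_sum, ← Finset.sum_add_distrib]
  refine Finset.sum_congr rfl fun x _ => ?_
  rw [← Finset.sum_add_distrib]
  refine Finset.sum_congr rfl fun y _ => ?_
  rw [Complex.exp_ofReal_mul_I_re, Complex.exp_ofReal_mul_I_re, Complex.exp_ofReal_mul_I_im,
    Complex.exp_ofReal_mul_I_im, ← Real.cos_sub]
  congr 1
  rw [← Finset.sum_sub_distrib]
  refine Finset.sum_congr rfl fun i _ => ?_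
  rw [Pi.sub_apply, Int.cast_sub]
  ring

theorem tsum_eq_of_cluster {ω : Bond d → Bool} {A : Finset (Vtx d)}
    (hA : cluster ω = (A : Set (Vtx d))) (f : Vtx d → ℝ) (hf : ∀ x, x ∉ cluster ω → f x = 0) :
    ∑' x, f x = ∑ x ∈ A, f x := by
  apply tsum_eq_sum
  intro x hx
  apply hf
  rw [hA]
  exact hx

theorem tsum_g (k : Fin d → ℝ) {ω : Bond d → Bool} (hω : (cluster ω).Finite) :
    ∑' x, g k x ω = spec (cluster ω) k := by
  have hA : cluster ω = (hω.toFinset : Set (Vtx d)) := (Set.Finite.coe_toFinset hω).symm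
  generalize hω.toFinset = A at hA
  rw [tsum_eq_of_cluster hA (fun x => g k x ω) (fun x hx => by unfold g; rw [if_neg hx])]
  have h1 : ∀ x ∈ A, g k x ω =
      (∑ z ∈ A, Real.cos (∑ i, k i * (((z - x) i : ℤ) : ℝ))) / A.card := by
    intro x hx
    unfold g
    rw [if_pos (by rw [hA]; exact hx), phi_T k hA hx]
  rw [Finset.sum_congr rfl h1, hA, spec_coe, ampl_eq_sum', ← Finset.sum_div, Finset.sum_comm]

theorem tsum_h (k : Fin d → ℝ) {ω : Bond d → Bool} (hω : (cluster ω).Finite) :
    ∑' x, h k x ω = ∑' x, c k x ω := by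
  have hA : cluster ω = (hω.toFinset : Set (Vtx d)) := (Set.Finite.coe_toFinset hω).symm
  generalize hω.toFinset = A at hA
  have h0 : (0 : Vtx d) ∈ A := by
    have : (0 : Vtx d) ∈ cluster ω := SimpleGraph.Reachable.refl 0
    rw [hA] at this
    exact this
  have hcard : (A.card : ℝ) ≠ 0 := by
    have := Finset.card_pos.2 ⟨0, h0⟩
    positivity
  rw [tsum_eq_of_cluster hA (fun x => h k x ω) (fun x hx => by unfold h; rw [if_neg hx]),
    tsum_eq_of_cluster hA (fun x => c k x ω) (fun x hx => by unfold c; rw [if_neg hx])]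
  have h1 : ∀ x ∈ A, h k x ω = (∑ z ∈ A, Real.cos (∑ i, k i * ((z i : ℤ) : ℝ))) / A.card := by
    intro x hx
    unfold h
    rw [if_pos (by rw [hA]; exact hx), hA, phi_coe]
  have h2 : ∀ x ∈ A, c k x ω = Real.cos (∑ i, k i * ((x i : ℤ) : ℝ)) := by
    intro x hx
    unfold c
    rw [if_pos (by rw [hA]; exact hx)]
  rw [Finset.sum_congr rfl h1, Finset.sum_congr rfl h2, Finset.sum_const, nsmul_eq_mul,
    mul_div_assoc', mul_div_cancel_left₀ _ hcard]

theorem norm_g_le (k : Fin d → ℝ) (x : Vtx d) (ω : Bond d → Bool) :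
    open Classical in ‖g k x ω‖ ≤ if x ∈ cluster ω then 1 else 0 := by
  classical
  unfold g
  by_cases hx : x ∈ cluster ω
  · rw [if_pos hx, if_pos hx]; exact abs_phi_le _ _
  · rw [if_neg hx, if_neg hx, norm_zero]

theorem norm_h_le (k : Fin d → ℝ) (x : Vtx d) (ω : Bond d → Bool) :
    open Classical in ‖h k x ω‖ ≤ if x ∈ cluster ω then 1 else 0 := by
  classical
  unfold h
  by_cases hx : x ∈ cluster ω
  · rw [if_pos hx, if_pos hx]; exact abs_phi_le _ _
  · rw [if_neg hx, if_neg hx, norm_zero]

theorem norm_c_le (k : Fin d → ℝ) (x : Vtx d) (ω : Bond d → Bool) :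
    open Classical in ‖c k x ω‖ ≤ if x ∈ cluster ω then 1 else 0 := by
  classical
  unfold c
  by_cases hx : x ∈ cluster ω
  · rw [if_pos hx, if_pos hx]; exact Real.abs_cos_le_one _
  · rw [if_neg hx, if_neg hx, norm_zero]

theorem spec_nonneg (C : Set (Vtx d)) (k : Fin d → ℝ) : 0 ≤ spec C k := by
  by_cases hC : C.Finite
  · have hc : C = (hC.toFinset : Set (Vtx d)) := (Set.Finite.coe_toFinset hC).symm
    rw [hc, spec_coe]
    unfold ampl
    exact div_nonneg (sq_nonneg _) (Nat.cast_nonneg _)
  · rw [spec_infinite hC]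

theorem spec_le_card (A : Finset (Vtx d)) (k : Fin d → ℝ) : spec (A : Set (Vtx d)) k ≤ A.card := by
  rw [spec_coe]
  have h1 : ampl A k ≤ (A.card : ℝ) ^ 2 := by
    unfold ampl
    have : ‖∑ x ∈ A, Complex.exp (((∑ i, k i * (x i : ℝ) : ℝ) : ℂ) * Complex.I)‖ ≤ A.card := by
      calc ‖∑ x ∈ A, Complex.exp (((∑ i, k i * (x i : ℝ) : ℝ) : ℂ) * Complex.I)‖
          ≤ ∑ x ∈ A, ‖Complex.exp (((∑ i, k i * (x i : ℝ) : ℝ) : ℂ) * Complex.I)‖ :=
            norm_sum_le _ _
        _ = A.card := by
          rw [Finset.sum_congr rfl (fun x _ => Complex.norm_exp_ofReal_mul_I _),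
            Finset.sum_const, nsmul_eq_mul, mul_one]
    exact pow_le_pow_left₀ (norm_nonneg _) this 2
  rcases Nat.eq_zero_or_pos A.card with h0 | h0
  · rw [h0]; simp
  · have : (0 : ℝ) < A.card := by exact_mod_cast h0
    rw [div_le_iff₀ this]
    nlinarith

theorem measurable_spec_k (k : Fin d → ℝ) :
    Measurable (fun ω : Bond d → Bool => spec (cluster ω) k) :=
  measurable_spec'.comp (measurable_id.prodMk (measurable_const (a := k)))

end Transport

open Transport

/-- When the susceptibility is finite the cluster is almost surely finite. -/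
theorem ae_finite {d : ℕ} (p : ℝ≥0) (hp : p ≤ 1) (hs : Summable (tau d p hp)) :
    ∀ᵐ ω ∂(law d p hp), (cluster ω).Finite := by
  have h := ae_finite_setOf_mem (μ := law d p hp) (s := fun x : Vtx d => {ω | x ∈ cluster ω}) (by
    simp only [measure_mem]
    rw [← ENNReal.ofReal_tsum_of_nonneg (tau_nonneg p hp) hs]
    exact ENNReal.ofReal_ne_top)
  filter_upwards [h] with ω hω
  exact hω

/-- Measurability of the spectral density. -/
theorem measurable_spec {d : ℕ} : Measurable
    (fun z : (Bond d → Bool) × (Fin d → ℝ) => spec (cluster z.1) z.2) :=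
  measurable_spec'

theorem Transport.integral_spec {d : ℕ} (p : ℝ≥0) (hp : p ≤ 1) (hs : Summable (tau d p hp))
    (k : Fin d → ℝ) : ∫ ω, spec (cluster ω) k ∂(law d p hp) = tauHat d p hp k := by
  classical
  have hfin := ae_finite p hp hs
  -- sums of `g` and `h`
  have hg := (hasSum_of_dom p hp hs (g k) (measurable_g k p hp) (norm_g_le k)).2
  have hh := (hasSum_of_dom p hp hs (h k) (measurable_h k) (norm_h_le k)).2
  have hc := (hasSum_of_dom p hp hs (c k) (measurable_c k) (norm_c_le k)).2
  have e1 : ∀ x, ∫ ω, g k x ω ∂(law d p hp) = ∫ ω, h k (-x) ω ∂(law d p hp) := by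
    intro x
    have hmp := measurePreserving_T p hp x
    rw [show (fun ω => g k x ω) = fun ω => h k (-x) (T x ω) from funext fun ω => g_eq_h k x ω]
    rw [← integral_map hmp.measurable.aemeasurable
      (f := fun ω => h k (-x) ω) (measurable_h k _).aestronglyMeasurable, hmp.map_eq]
  simp only [e1] at hg
  have hh' : HasSum (fun x : Vtx d => ∫ ω, h k (-x) ω ∂(law d p hp))
      (∫ ω, ∑' x, h k x ω ∂(law d p hp)) :=
    (Equiv.neg (Vtx d)).hasSum_iff.2 hh
  have e2 : ∫ ω, ∑' x, g k x ω ∂(law d p hp) = ∫ ω, ∑' x, h k x ω ∂(law d p hp) :=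
    hg.unique hh'
  have e3 : ∫ ω, ∑' x, g k x ω ∂(law d p hp) = ∫ ω, spec (cluster ω) k ∂(law d p hp) := by
    apply integral_congr_ae
    filter_upwards [hfin] with ω hω
    exact tsum_g k hω
  have e4 : ∫ ω, ∑' x, h k x ω ∂(law d p hp) = ∫ ω, ∑' x, c k x ω ∂(law d p hp) := by
    apply integral_congr_ae
    filter_upwards [hfin] with ω hω
    exact tsum_h k hω
  have e5 : ∀ x, ∫ ω, c k x ω ∂(law d p hp) =
      tau d p hp x * Real.cos (∑ i, k i * (x i : ℝ)) := by
    intro x
    rw [← integral_ind p hp x, ← integral_mul_const]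
    congr 1
    funext ω
    unfold c
    by_cases hx : x ∈ cluster ω
    · rw [if_pos hx, if_pos hx, one_mul]
    · rw [if_neg hx, if_neg hx, zero_mul]
  rw [← e3, e2, e4, ← hc.tsum_eq]
  unfold tauHat
  exact tsum_congr e5

theorem Transport.integrable_spec {d : ℕ} (p : ℝ≥0) (hp : p ≤ 1) (hs : Summable (tau d p hp))
    (k : Fin d → ℝ) : Integrable (fun ω => spec (cluster ω) k) (law d p hp) := by
  classical
  refine ⟨(measurable_spec_k k).aestronglyMeasurable, ?_⟩
  rw [hasFiniteIntegral_iff_ofReal (Eventually.of_forall fun ω => spec_nonneg _ _)]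
  calc ∫⁻ ω, ENNReal.ofReal (spec (cluster ω) k) ∂(law d p hp)
      ≤ ∫⁻ ω, ∑' x : Vtx d, (if x ∈ cluster ω then 1 else 0 : ℝ≥0∞) ∂(law d p hp) := by
        apply lintegral_mono_ae
        filter_upwards [ae_finite p hp hs] with ω hω
        rw [size_finset hω]
        have hA : cluster ω = (hω.toFinset : Set (Vtx d)) := (Set.Finite.coe_toFinset hω).symm
        have h1 := spec_le_card hω.toFinset k
        rw [← hA] at h1
        calc ENNReal.ofReal (spec (cluster ω) k) ≤ ENNReal.ofReal (hω.toFinset.card : ℝ) :=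
              ENNReal.ofReal_le_ofReal h1
          _ = _ := ENNReal.ofReal_natCast _
    _ = ENNReal.ofReal (chi d p hp) := lintegral_size p hp hs
    _ < ⊤ := ENNReal.ofReal_lt_top

/-- Mass transport: `τ̂_p(k) = E_p[|∑_{x ∈ C} exp(i k·x)|² / |C|]`. -/
theorem tauHat_eq_lintegral {d : ℕ} (p : ℝ≥0) (hp : p ≤ 1) (hs : Summable (tau d p hp))
    (k : Fin d → ℝ) :
    ENNReal.ofReal (tauHat d p hp k) = ∫⁻ ω, ENNReal.ofReal (spec (cluster ω) k) ∂(law d p hp) := by
  rw [← integral_spec p hp hs k]
  exact ofReal_integral_eq_lintegral_ofReal (integrable_spec p hp hs k)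
    (Eventually.of_forall fun ω => spec_nonneg _ _)

theorem tauHat_nonneg {d : ℕ} (p : ℝ≥0) (hp : p ≤ 1) (hs : Summable (tau d p hp))
    (k : Fin d → ℝ) : 0 ≤ tauHat d p hp k := by
  rw [← integral_spec p hp hs k]
  exact integral_nonneg fun ω => spec_nonneg _ _

/-- Markov's inequality for the size of the cluster. -/
theorem card_markov {d : ℕ} (p : ℝ≥0) (hp : p ≤ 1) (hs : Summable (tau d p hp)) (n : ℕ) :
    n * (law d p hp) {ω | (cluster ω).Finite ∧ n ≤ (cluster ω).ncard}
      ≤ ENNReal.ofReal (chi d p hp) := by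
  classical
  rw [← lintegral_size p hp hs]
  have hmeas : Measurable (fun ω : Bond d → Bool =>
      ∑' x : Vtx d, (if x ∈ cluster ω then 1 else 0 : ℝ≥0∞)) :=
    Measurable.ennreal_tsum fun x => measurable_indicator x
  calc (n : ℝ≥0∞) * (law d p hp) {ω | (cluster ω).Finite ∧ n ≤ (cluster ω).ncard}
      ≤ n * (law d p hp) {ω | (n : ℝ≥0∞) ≤
          ∑' x : Vtx d, (if x ∈ cluster ω then 1 else 0 : ℝ≥0∞)} := by
        refine mul_le_mul_right (measure_mono fun ω hfin => ?_) _
        show (n : ℝ≥0∞) ≤ ∑' x : Vtx d, (if x ∈ cluster ω then 1 else 0 : ℝ≥0∞)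
        rw [size_finset hfin.1, ← Set.ncard_eq_toFinset_card _ hfin.1]
        exact_mod_cast hfin.2
    _ ≤ _ := mul_meas_ge_le_lintegral hmeas _

end Pool.Agent.Lib.MP_54f242_pr
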