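import Pool.Agent.Lib.MP_54f242_pr.Defs
import Pool.Agent.Lib.MP_54f242_pr.Transport

section

/-! # Comparison of the two-point function with non-backtracking walk -/

set_option autoImplicit false
set_option linter.deprecated false

open MeasureTheory Filter Topology ProbabilityTheory
open scoped ENNReal NNReal

namespace Pool.Agent.Lib.MP_54f242_pr

namespace Kern

/-! ## Deterministic part -/

theorem adj_iff {d : ℕ} (ω : Bond d → Bool) (a b : Vtx d) :
    (openGraph ω).Adj a b ↔ a ≠ b ∧
      ((∃ i : Fin d, b = a + Pi.single i (1 : ℤ) ∧ ω (a, i) = true) ∨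
        (∃ i : Fin d, a = b + Pi.single i (1 : ℤ) ∧ ω (b, i) = true)) := by
  unfold openGraph
  rw [SimpleGraph.fromRel_adj]

/-- The `j`-th neighbour of `u`. -/
def nb {d : ℕ} (u : Vtx d) (j : Fin d × Bool) : Vtx d :=
  if j.2 = true then u + Pi.single j.1 (1 : ℤ) else u - Pi.single j.1 (1 : ℤ)

/-- The bond between `u` and its `j`-th neighbour. -/
def bd {d : ℕ} (u : Vtx d) (j : Fin d × Bool) : Bond d :=
  if j.2 = true then (u, j.1) else (u - Pi.single j.1 (1 : ℤ), j.1)

theorem single_ne {d : ℕ} (i : Fin d) : (Pi.single i (1 : ℤ) : Vtx d) ≠ 0 := by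
  intro h
  have := congrFun h i
  simp at this

theorem bd_injective {d : ℕ} (u : Vtx d) : Function.Injective (bd u) := by
  rintro ⟨i, b⟩ ⟨i', b'⟩ h
  unfold bd at h
  cases b <;> cases b'
  · simp only [Bool.false_eq_true, if_false, Prod.mk.injEq] at h
    rw [h.2]
  · simp only [Bool.false_eq_true, if_false, if_true, Prod.mk.injEq] at h
    exact absurd (sub_eq_self.1 h.1) (single_ne _)
  · simp only [Bool.false_eq_true, if_false, if_true, Prod.mk.injEq] at h
    exact absurd (sub_eq_self.1 h.1.symm) (single_ne _)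
  · simp only [if_true, Prod.mk.injEq] at h
    rw [h.2]

theorem nb_ne {d : ℕ} (u : Vtx d) (j : Fin d × Bool) : nb u j ≠ u := by
  unfold nb
  split_ifs
  · intro h
    exact single_ne j.1 (add_eq_left.1 h)
  · intro h
    exact single_ne _ (sub_eq_self.1 h)

theorem adj_nb {d : ℕ} (ω : Bond d → Bool) (u : Vtx d) (j : Fin d × Bool)
    (h : ω (bd u j) = true) : (openGraph ω).Adj (nb u j) u := by
  rw [adj_iff]
  refine ⟨nb_ne u j, ?_⟩
  unfold nb bd at *
  split_ifs with hj
  · rw [if_pos hj] at h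
    right
    exact ⟨j.1, rfl, h⟩
  · rw [if_neg hj] at h
    left
    exact ⟨j.1, by abel, h⟩

/-- All the bonds of `u`. -/
def star {d : ℕ} (u : Vtx d) : Finset (Bond d) := Finset.univ.image (bd u)

/-- The configuration in which the bonds of `E` are closed. -/
def clos {d : ℕ} (E : Finset (Bond d)) (ω : Bond d → Bool) : Bond d → Bool :=
  fun e => if e ∈ E then false else ω e

theorem clos_le {d : ℕ} (E : Finset (Bond d)) (ω : Bond d → Bool) (e : Bond d)
    (h : clos E ω e = true) : ω e = true := by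
  unfold clos at h
  split_ifs at h
  exact h

theorem clos_mono {d : ℕ} (E : Finset (Bond d)) (ω : Bond d → Bool) :
    openGraph (clos E ω) ≤ openGraph ω := by
  intro a b h
  rw [adj_iff] at h ⊢
  refine ⟨h.1, ?_⟩
  rcases h.2 with ⟨i, h1, h2⟩ | ⟨i, h1, h2⟩
  · exact Or.inl ⟨i, h1, clos_le E ω _ h2⟩
  · exact Or.inr ⟨i, h1, clos_le E ω _ h2⟩

theorem bd_mem_star {d : ℕ} (u : Vtx d) (j : Fin d × Bool) : bd u j ∈ star u := by
  unfold star
  exact Finset.mem_image_of_mem _ (Finset.mem_univ _)

theorem mem_star {d : ℕ} (u a : Vtx d) (i : Fin d) (h : (a, i) ∈ star u) :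
    (a = u ∧ bd u (i, true) = (a, i)) ∨
      (a = u - Pi.single i (1 : ℤ) ∧ bd u (i, false) = (a, i)) := by
  unfold star at h
  rw [Finset.mem_image] at h
  obtain ⟨⟨i', b⟩, -, h⟩ := h
  cases b
  · right
    unfold bd at h ⊢
    simp only [Bool.false_eq_true, if_false, Prod.mk.injEq] at h ⊢
    obtain ⟨h1, h2⟩ := h
    subst h2
    exact ⟨h1.symm, h1, trivial⟩
  · left
    unfold bd at h ⊢
    simp only [if_true, Prod.mk.injEq] at h ⊢
    obtain ⟨h1, h2⟩ := h
    subst h2
    exact ⟨h1.symm, h1, trivial⟩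

/-- A bond of `ω` survives in `clos` or is a bond of `u`. -/
theorem adj_cases {d : ℕ} (ω : Bond d → Bool) (u a b : Vtx d) (h : (openGraph ω).Adj a b) :
    (openGraph (clos (star u) ω)).Adj a b ∨
      ∃ j, ω (bd u j) = true ∧ ((a = nb u j ∧ b = u) ∨ (a = u ∧ b = nb u j)) := by
  rw [adj_iff] at h
  obtain ⟨hne, ⟨i, h1, h2⟩ | ⟨i, h1, h2⟩⟩ := h
  · by_cases hs : (a, i) ∈ star u
    · right
      rcases mem_star u a i hs with ⟨h3, h4⟩ | ⟨h3, h4⟩
      · refine ⟨(i, true), by rw [h4]; exact h2, Or.inr ⟨h3, ?_⟩⟩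
        rw [h1, h3]; rfl
      · refine ⟨(i, false), by rw [h4]; exact h2, Or.inl ⟨?_, ?_⟩⟩
        · rw [h3]; rfl
        · rw [h1, h3]; abel
    · left
      rw [adj_iff]
      refine ⟨hne, Or.inl ⟨i, h1, ?_⟩⟩
      unfold clos
      rw [if_neg hs]
      exact h2
  · by_cases hs : (b, i) ∈ star u
    · right
      rcases mem_star u b i hs with ⟨h3, h4⟩ | ⟨h3, h4⟩
      · refine ⟨(i, true), by rw [h4]; exact h2, Or.inl ⟨?_, h3⟩⟩
        rw [h1, h3]; rfl
      · refine ⟨(i, false), by rw [h4]; exact h2, Or.inr ⟨?_, ?_⟩⟩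
        · rw [h1, h3]; abel
        · rw [h3]; rfl
    · left
      rw [adj_iff]
      refine ⟨hne, Or.inr ⟨i, h1, ?_⟩⟩
      unfold clos
      rw [if_neg hs]
      exact h2

theorem not_adj_clos {d : ℕ} (ω : Bond d → Bool) (u b : Vtx d) :
    ¬ (openGraph (clos (star u) ω)).Adj u b := by
  rw [adj_iff]
  rintro ⟨hne, ⟨i, h1, h2⟩ | ⟨i, h1, h2⟩⟩
  · have : (u, i) ∈ star u := bd_mem_star u (i, true)
    unfold clos at h2
    rw [if_pos this] at h2
    exact Bool.false_ne_true h2
  · have h3 : b = u - Pi.single i (1 : ℤ) := by rw [h1]; abel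
    have : (b, i) ∈ star u := by
      have h4 := bd_mem_star u (i, false)
      rw [h3]
      exact h4
    unfold clos at h2
    rw [if_pos this] at h2
    exact Bool.false_ne_true h2

theorem not_reach_clos {d : ℕ} (ω : Bond d → Bool) (u : Vtx d) (hu : u ≠ 0) :
    ¬ (openGraph (clos (star u) ω)).Reachable 0 u := by
  intro h
  obtain ⟨w⟩ := h.symm
  cases w with
  | nil => exact hu rfl
  | cons h' _ => exact not_adj_clos ω u _ h'

theorem reach_iff {d : ℕ} (ω : Bond d → Bool) (u : Vtx d) (hu : u ≠ 0) :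
    (openGraph ω).Reachable 0 u ↔
      ∃ j, (openGraph (clos (star u) ω)).Reachable 0 (nb u j) ∧ ω (bd u j) = true := by
  constructor
  · intro h
    have key : ∀ v, Relation.ReflTransGen (openGraph ω).Adj 0 v →
        (openGraph (clos (star u) ω)).Reachable 0 v ∨
        ∃ j, (openGraph (clos (star u) ω)).Reachable 0 (nb u j) ∧ ω (bd u j) = true := by
      intro v hv
      induction hv with
      | refl => exact Or.inl (SimpleGraph.Reachable.refl _)
      | tail _ hbc ih =>
        rcases ih with ih | ih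
        · rcases adj_cases ω u _ _ hbc with h1 | ⟨j, h1, ⟨h2, h3⟩ | ⟨h2, h3⟩⟩
          · exact Or.inl (ih.trans h1.reachable)
          · right
            rw [h2] at ih
            exact ⟨j, ih, h1⟩
          · rw [h2] at ih
            exact absurd ih (not_reach_clos ω u hu)
        · exact Or.inr ih
    rw [SimpleGraph.reachable_iff_reflTransGen] at h
    rcases key u h with h1 | h1
    · exact absurd h1 (not_reach_clos ω u hu)
    · exact h1
  · rintro ⟨j, h1, h2⟩
    exact (h1.mono (clos_mono _ ω)).trans (adj_nb ω u j h2).reachable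

/-! ## Measurability -/

theorem measurableSet_adj {d : ℕ} (a b : Vtx d) :
    MeasurableSet {ω : Bond d → Bool | (openGraph ω).Adj a b} := by
  have hc : ∀ e : Bond d, MeasurableSet {ω : Bond d → Bool | ω e = true} := fun e => by
    have h : Measurable (fun ω : Bond d → Bool => ω e) := measurable_pi_apply e
    exact h (measurableSet_singleton true)
  have he : {ω : Bond d → Bool | (openGraph ω).Adj a b} =
      {_ω : Bond d → Bool | a ≠ b} ∩
        ((⋃ i : Fin d, {_ω : Bond d → Bool | b = a + Pi.single i (1 : ℤ)} ∩ {ω | ω (a, i) = true}) ∪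
        (⋃ i : Fin d, {_ω : Bond d → Bool | a = b + Pi.single i (1 : ℤ)} ∩ {ω | ω (b, i) = true})) := by
    ext ω
    simp only [Set.mem_setOf_eq, adj_iff, Set.mem_inter_iff, Set.mem_union, Set.mem_iUnion]
  rw [he]
  refine MeasurableSet.inter (MeasurableSet.const _) (MeasurableSet.union ?_ ?_)
  · exact MeasurableSet.iUnion fun i => (MeasurableSet.const _).inter (hc _)
  · exact MeasurableSet.iUnion fun i => (MeasurableSet.const _).inter (hc _)

/-- Reachability in at most `n` steps. -/
def stepReach {d : ℕ} (ω : Bond d → Bool) (x : Vtx d) : ℕ → Vtx d → Prop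
  | 0, y => x = y
  | n + 1, y => stepReach ω x n y ∨ ∃ z, stepReach ω x n z ∧ (openGraph ω).Adj z y

theorem reach_iff_step {d : ℕ} (ω : Bond d → Bool) (x y : Vtx d) :
    (openGraph ω).Reachable x y ↔ ∃ n, stepReach ω x n y := by
  constructor
  · intro h
    rw [SimpleGraph.reachable_iff_reflTransGen] at h
    induction h with
    | refl => exact ⟨0, rfl⟩
    | tail _ hbc ih =>
      obtain ⟨n, hn⟩ := ih
      exact ⟨n + 1, Or.inr ⟨_, hn, hbc⟩⟩
  · rintro ⟨n, hn⟩
    induction n generalizing y with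
    | zero =>
      have : x = y := hn
      rw [this]
    | succ n ih =>
      rcases hn with hn | ⟨z, hz, hzy⟩
      · exact ih y hn
      · exact (ih z hz).trans hzy.reachable

theorem measurableSet_stepReach {d : ℕ} (x : Vtx d) (n : ℕ) (y : Vtx d) :
    MeasurableSet {ω : Bond d → Bool | stepReach ω x n y} := by
  induction n generalizing y with
  | zero => exact MeasurableSet.const _
  | succ n ih =>
    have he : {ω : Bond d → Bool | stepReach ω x (n + 1) y} = {ω | stepReach ω x n y} ∪
        ⋃ z : Vtx d, ({ω | stepReach ω x n z} ∩ {ω | (openGraph ω).Adj z y}) := by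
      ext ω
      simp only [stepReach, Set.mem_setOf_eq, Set.mem_union, Set.mem_iUnion, Set.mem_inter_iff]
    rw [he]
    exact (ih y).union (MeasurableSet.iUnion fun z => (ih z).inter (measurableSet_adj z y))

theorem measurableSet_reach {d : ℕ} (x y : Vtx d) :
    MeasurableSet {ω : Bond d → Bool | (openGraph ω).Reachable x y} := by
  have he : {ω : Bond d → Bool | (openGraph ω).Reachable x y} =
      ⋃ n, {ω | stepReach ω x n y} := by
    ext ω
    simp only [Set.mem_setOf_eq, Set.mem_iUnion, reach_iff_step]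
  rw [he]
  exact MeasurableSet.iUnion fun n => measurableSet_stepReach x n y

/-! ## Independence -/

theorem measurable_clos {d : ℕ} (E : Finset (Bond d)) : Measurable (clos E) := by
  refine measurable_pi_iff.2 fun e => ?_
  unfold clos
  by_cases h : e ∈ E
  · simp only [h, if_true]
    exact measurable_const
  · simp only [h, if_false]
    exact measurable_pi_apply e

theorem indep_clos {d : ℕ} (p : ℝ≥0) (hp : p ≤ 1) (E E' : Finset (Bond d)) (hE : E' ⊆ E)
    (X : Set (Bond d → Bool)) (hX : MeasurableSet X) (t : Bond d → Set Bool) :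
    law d p hp ((clos E ⁻¹' X) ∩ Set.pi (E' : Set (Bond d)) t) =
      law d p hp (clos E ⁻¹' X) * law d p hp (Set.pi (E' : Set (Bond d)) t) := by
  let m : Bond d → MeasurableSpace (Bond d → Bool) := fun e =>
    MeasurableSpace.comap (fun ω => ω e) inferInstance
  have hle : ∀ e, m e ≤ MeasurableSpace.pi := fun e => (measurable_pi_apply e).comap_le
  have hind : iIndep m (law d p hp) := by
    have := iIndepFun_infinitePi (P := fun _ : Bond d => (PMF.bernoulli p hp).toMeasure)
      (X := fun _ b => b) (fun _ => measurable_id)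
    exact this
  have hdis : Disjoint ((E : Set (Bond d))ᶜ) (E : Set (Bond d)) := disjoint_compl_left
  have h := indep_iSup_of_disjoint hle hind hdis
  rw [Indep_iff] at h
  apply h
  · -- `clos` is measurable with respect to the bonds outside `E`
    have hm : @Measurable _ _ (⨆ e ∈ ((E : Set (Bond d))ᶜ), m e) MeasurableSpace.pi (clos E) := by
      refine @measurable_pi_iff _ _ _ (⨆ e ∈ ((E : Set (Bond d))ᶜ), m e) _ _ |>.2 fun e => ?_
      unfold clos
      by_cases he : e ∈ E
      · simp only [he, if_true]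
        exact @measurable_const _ _ _ (⨆ e ∈ ((E : Set (Bond d))ᶜ), m e) _
      · simp only [he, if_false]
        intro s hs
        have h1 : m e ≤ ⨆ e ∈ ((E : Set (Bond d))ᶜ), m e :=
          le_iSup₂_of_le e (by simpa using he) le_rfl
        exact h1 _ ⟨s, hs, rfl⟩
    exact hm hX
  · have he : Set.pi (E' : Set (Bond d)) t = ⋂ e ∈ E', (fun ω : Bond d → Bool => ω e) ⁻¹' (t e) := by
      ext ω
      simp [Set.mem_pi]
    rw [he]
    refine @Finset.measurableSet_biInter _ _ (⨆ e ∈ (E : Set (Bond d)), m e) _ _ fun e heE => ?_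
    have h1 : m e ≤ ⨆ e ∈ (E : Set (Bond d)), m e :=
      le_iSup₂_of_le e (by simpa using hE heE) le_rfl
    exact h1 _ ⟨t e, MeasurableSet.of_discrete, rfl⟩

/-- The event that exactly the neighbours of `u` with index in `S` are connected to `0` by paths
that avoid the bonds of `u`. -/
def ev {d : ℕ} (u : Vtx d) (S : Finset (Fin d × Bool)) : Set (Bond d → Bool) :=
  clos (star u) ⁻¹' {ω | ∀ j, j ∈ S ↔ (openGraph ω).Reachable 0 (nb u j)}

/-- The event that the bonds of `u` with index in `S1` are open and those with index in `S0` are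
closed. -/
def cyl {d : ℕ} (u : Vtx d) (S1 S0 : Finset (Fin d × Bool)) : Set (Bond d → Bool) :=
  {ω | (∀ j ∈ S1, ω (bd u j) = true) ∧ ∀ j ∈ S0, ω (bd u j) = false}

theorem measurableSet_base {d : ℕ} (u : Vtx d) (S : Finset (Fin d × Bool)) :
    MeasurableSet {ω : Bond d → Bool | ∀ j, j ∈ S ↔ (openGraph ω).Reachable 0 (nb u j)} := by
  have he : {ω : Bond d → Bool | ∀ j, j ∈ S ↔ (openGraph ω).Reachable 0 (nb u j)} =
      ⋂ j, {ω | j ∈ S ↔ (openGraph ω).Reachable 0 (nb u j)} := by
    ext ω; simp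
  rw [he]
  refine MeasurableSet.iInter fun j => ?_
  by_cases hj : j ∈ S
  · simp only [hj, true_iff]
    exact measurableSet_reach _ _
  · simp only [hj, false_iff]
    exact (measurableSet_reach _ _).compl

theorem measurableSet_ev {d : ℕ} (u : Vtx d) (S : Finset (Fin d × Bool)) :
    MeasurableSet (ev u S) :=
  measurable_clos _ (measurableSet_base u S)

theorem measurableSet_cyl {d : ℕ} (u : Vtx d) (S1 S0 : Finset (Fin d × Bool)) :
    MeasurableSet (cyl u S1 S0) := by
  have hc : ∀ (e : Bond d) (b : Bool), MeasurableSet {ω : Bond d → Bool | ω e = b} :=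
    fun e b => by
      have h : Measurable (fun ω : Bond d → Bool => ω e) := measurable_pi_apply e
      exact h (measurableSet_singleton b)
  have he : cyl u S1 S0 = (⋂ j ∈ S1, {ω | ω (bd u j) = true}) ∩
      ⋂ j ∈ S0, {ω | ω (bd u j) = false} := by
    ext ω; simp [cyl]
  rw [he]
  exact (Finset.measurableSet_biInter _ fun j _ => hc _ _).inter
    (Finset.measurableSet_biInter _ fun j _ => hc _ _)

theorem bern_true (p : ℝ≥0) (hp : p ≤ 1) : (PMF.bernoulli p hp).toMeasure {true} = p := by
  rw [PMF.toMeasure_apply_singleton _ _ (measurableSet_singleton _)]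
  simp [PMF.bernoulli_apply]

theorem bern_false (p : ℝ≥0) (hp : p ≤ 1) :
    (PMF.bernoulli p hp).toMeasure {false} = ((1 - p : ℝ≥0) : ℝ≥0∞) := by
  rw [PMF.toMeasure_apply_singleton _ _ (measurableSet_singleton _)]
  simp [PMF.bernoulli_apply]

theorem law_ev_cyl {d : ℕ} (p : ℝ≥0) (hp : p ≤ 1) (u : Vtx d) (S S1 S0 : Finset (Fin d × Bool))
    (hd : Disjoint S1 S0) :
    law d p hp (ev u S ∩ cyl u S1 S0) =
      law d p hp (ev u S) * ((p : ℝ≥0∞) ^ S1.card * ((1 - p : ℝ≥0) : ℝ≥0∞) ^ S0.card) := by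
  classical
  have hinj := bd_injective u
  set t : Bond d → Set Bool := fun e => if e ∈ S1.image (bd u) then {true} else {false} with ht
  have h1 : cyl u S1 S0 = Set.pi (((S1 ∪ S0).image (bd u) : Finset (Bond d)) : Set (Bond d)) t := by
    ext ω
    simp only [cyl, Set.mem_setOf_eq, Set.mem_pi, Finset.coe_image, Set.mem_image,
      Finset.mem_coe, Finset.mem_union, forall_exists_index, and_imp, forall_apply_eq_imp_iff₂]
    constructor
    · rintro ⟨h1, h2⟩ j (hj | hj)
      · rw [ht]
        simp only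
        rw [if_pos (Finset.mem_image_of_mem _ hj)]
        exact h1 j hj
      · have : bd u j ∉ S1.image (bd u) := by
          intro h
          obtain ⟨j', hj', he⟩ := Finset.mem_image.1 h
          rw [hinj he] at hj'
          exact Finset.disjoint_left.1 hd hj' hj
        rw [ht]
        simp only
        rw [if_neg this]
        exact h2 j hj
    · intro h
      refine ⟨fun j hj => ?_, fun j hj => ?_⟩
      · have h2 := h j (Or.inl hj)
        rw [ht] at h2
        simp only at h2
        rw [if_pos (Finset.mem_image_of_mem _ hj)] at h2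
        exact h2
      · have h2 := h j (Or.inr hj)
        have : bd u j ∉ S1.image (bd u) := by
          intro h
          obtain ⟨j', hj', he⟩ := Finset.mem_image.1 h
          rw [hinj he] at hj'
          exact Finset.disjoint_left.1 hd hj' hj
        rw [ht] at h2
        simp only at h2
        rw [if_neg this] at h2
        exact h2
  have h2 : (S1 ∪ S0).image (bd u) ⊆ star u := by
    unfold star
    exact Finset.image_subset_image (Finset.subset_univ _)
  have h3 := indep_clos p hp (star u) ((S1 ∪ S0).image (bd u)) h2 _ (measurableSet_base u S) t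
  rw [h1]
  have h4 : law d p hp (Set.pi (((S1 ∪ S0).image (bd u) : Finset (Bond d)) : Set (Bond d)) t) =
      (p : ℝ≥0∞) ^ S1.card * ((1 - p : ℝ≥0) : ℝ≥0∞) ^ S0.card := by
    unfold law
    rw [Measure.infinitePi_pi _ (fun _ _ => MeasurableSet.of_discrete),
      Finset.prod_image (fun a _ b _ h => hinj h), Finset.prod_union hd]
    congr 1
    · rw [Finset.prod_congr rfl (g := fun _ => (p : ℝ≥0∞)), Finset.prod_const]
      intro j hj
      rw [ht]
      simp only
      rw [if_pos (Finset.mem_image_of_mem _ hj), bern_true]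
    · rw [Finset.prod_congr rfl (g := fun _ => ((1 - p : ℝ≥0) : ℝ≥0∞)), Finset.prod_const]
      intro j hj
      have : bd u j ∉ S1.image (bd u) := by
        intro h
        obtain ⟨j', hj', he⟩ := Finset.mem_image.1 h
        rw [hinj he] at hj'
        exact Finset.disjoint_left.1 hd hj' hj
      rw [ht]
      simp only
      rw [if_neg this, bern_false]
  rw [h4] at h3
  exact h3

theorem real_ev_cyl {d : ℕ} (p : ℝ≥0) (hp : p ≤ 1) (u : Vtx d) (S S1 S0 : Finset (Fin d × Bool))
    (hd : Disjoint S1 S0) :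
    (law d p hp (ev u S ∩ cyl u S1 S0)).toReal =
      (law d p hp (ev u S)).toReal * ((p : ℝ) ^ S1.card * (1 - (p : ℝ)) ^ S0.card) := by
  rw [law_ev_cyl p hp u S S1 S0 hd, ENNReal.toReal_mul, ENNReal.toReal_mul, ENNReal.toReal_pow,
    ENNReal.toReal_pow, ENNReal.coe_toReal, ENNReal.coe_toReal, NNReal.coe_sub hp]
  simp

instance instProb {d : ℕ} (p : ℝ≥0) (hp : p ≤ 1) : IsProbabilityMeasure (law d p hp) := by
  unfold law
  infer_instance

/-- Splitting over the value of the set of neighbours connected to `0`. -/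
theorem split {d : ℕ} (p : ℝ≥0) (hp : p ≤ 1) (u : Vtx d) (R : Set (Bond d → Bool))
    (hR : MeasurableSet R) :
    (law d p hp R).toReal = ∑ S : Finset (Fin d × Bool), (law d p hp (ev u S ∩ R)).toReal := by
  classical
  have h1 : R = ⋃ S ∈ (Finset.univ : Finset (Finset (Fin d × Bool))), (ev u S ∩ R) := by
    ext ω
    simp only [Finset.mem_univ, Set.iUnion_true, Set.mem_iUnion, Set.mem_inter_iff,
      exists_and_right]
    constructor
    · intro h
      refine ⟨⟨Finset.univ.filter fun j =>
        (openGraph (clos (star u) ω)).Reachable 0 (nb u j), ?_⟩, h⟩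
      show ∀ j, j ∈ _ ↔ _
      intro j
      simp
    · exact fun h => h.2
  have h2 : law d p hp (⋃ S ∈ (Finset.univ : Finset (Finset (Fin d × Bool))), (ev u S ∩ R)) =
      ∑ S : Finset (Fin d × Bool), law d p hp (ev u S ∩ R) := by
    apply measure_biUnion_finset
    · intro S _ S' _ hne
      rw [Function.onFun, Set.disjoint_left]
      rintro ω ⟨h3, -⟩ ⟨h4, -⟩
      apply hne
      ext j
      exact (h3 j).trans (h4 j).symm
    · intro S _
      exact (measurableSet_ev u S).inter hR
  conv_lhs => rw [h1]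
  rw [h2, ENNReal.toReal_sum fun S _ => measure_ne_top _ _]

theorem numeric (p : ℝ) (h0 : 0 ≤ p) (h1 : p ≤ 1) (a : ℕ) :
    (1 - (1 - p) ^ a) * (1 + ((a : ℝ) - 1) * p ^ 2) ≤ p * a := by
  rcases Nat.eq_zero_or_pos a with rfl | ha
  · simp
  · set s : ℝ := ∑ i ∈ Finset.range a, (1 - p) ^ i with hs
    have hq0 : 0 ≤ 1 - p := by linarith
    have hq1 : 1 - p ≤ 1 := by linarith
    have hgs : p * s = 1 - (1 - p) ^ a := by
      have := geom_sum_mul (1 - p) a
      rw [← hs] at this
      linarith
    have hs1 : s + ((a : ℝ) - 1) * p ≤ a := by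
      obtain ⟨b, rfl⟩ := Nat.exists_eq_succ_of_ne_zero (Nat.pos_iff_ne_zero.1 ha)
      rw [hs, Finset.sum_range_succ']
      have hle : ∑ k ∈ Finset.range b, (1 - p) ^ (k + 1) ≤ ∑ k ∈ Finset.range b, (1 - p) := by
        apply Finset.sum_le_sum
        intro k _
        rw [pow_succ]
        have : (1 - p) ^ k ≤ 1 := pow_le_one₀ hq0 hq1
        nlinarith
      rw [Finset.sum_const, Finset.card_range, nsmul_eq_mul] at hle
      push_cast
      simp only [pow_zero]
      nlinarith
    have hs0 : 0 ≤ s := Finset.sum_nonneg fun i _ => pow_nonneg hq0 i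
    have hps : p * s ≤ 1 := by
      rw [hgs]
      have : 0 ≤ (1 - p) ^ a := pow_nonneg hq0 a
      linarith
    have ha1 : (1 : ℝ) ≤ a := by exact_mod_cast ha
    rw [← hgs]
    have h2 : s * (1 + ((a : ℝ) - 1) * p ^ 2) ≤ a := by
      have h3 : s * (((a : ℝ) - 1) * p ^ 2) ≤ ((a : ℝ) - 1) * p := by
        have : s * (((a : ℝ) - 1) * p ^ 2) = (((a : ℝ) - 1) * p) * (p * s) := by ring
        rw [this]
        have h4 : 0 ≤ ((a : ℝ) - 1) * p := mul_nonneg (by linarith) h0
        nlinarith
      nlinarith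
    calc p * s * (1 + ((a : ℝ) - 1) * p ^ 2) = p * (s * (1 + ((a : ℝ) - 1) * p ^ 2)) := by ring
      _ ≤ p * a := mul_le_mul_of_nonneg_left h2 h0

theorem tau_eq_real {d : ℕ} (p : ℝ≥0) (hp : p ≤ 1) (x : Vtx d) :
    tau d p hp x = (law d p hp {ω | (openGraph ω).Reachable 0 x}).toReal := rfl

/-- The main estimate, for `u ≠ 0`. -/
theorem main {d : ℕ} (p : ℝ≥0) (hp : p ≤ 1) (u : Vtx d) (hu : u ≠ 0) :
    (1 + (2 * d - 1) * (p : ℝ) ^ 2) * tau d p hp u ≤
      p * ∑ j : Fin d × Bool, tau d p hp (nb u j) := by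
  classical
  have hp0 : (0 : ℝ) ≤ p := p.2
  have hp1 : (p : ℝ) ≤ 1 := by exact_mod_cast hp
  set P : Set (Bond d → Bool) → ℝ := fun X => (law d p hp X).toReal with hP
  have hPmono : ∀ X Y : Set (Bond d → Bool), X ⊆ Y → P X ≤ P Y := fun X Y h =>
    ENNReal.toReal_mono (measure_ne_top _ _) (measure_mono h)
  -- the probabilities given `ev u S`
  have hself : ∀ S, P (ev u S ∩ {ω | (openGraph ω).Reachable 0 u}) ≤
      P (ev u S) * (1 - (1 - (p : ℝ)) ^ S.card) := by
    intro S
    have h1 : ev u S ∩ {ω | (openGraph ω).Reachable 0 u} = ev u S \ (ev u S ∩ cyl u ∅ S) := by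
      ext ω
      simp only [Set.mem_inter_iff, Set.mem_setOf_eq, Set.mem_diff, not_and]
      constructor
      · rintro ⟨h1, h2⟩
        refine ⟨h1, fun _ h3 => ?_⟩
        obtain ⟨j, h4, h5⟩ := (reach_iff ω u hu).1 h2
        have h6 : j ∈ S := (h1 j).2 h4
        have h7 := h3.2 j h6
        rw [h7] at h5
        exact Bool.false_ne_true h5
      · rintro ⟨h1, h2⟩
        refine ⟨h1, ?_⟩
        by_contra hcon
        apply h2 h1
        refine ⟨fun j hj => absurd hj (Finset.notMem_empty j), fun j hj => ?_⟩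
        by_contra hb
        apply hcon
        rw [reach_iff ω u hu]
        refine ⟨j, (h1 j).1 hj, ?_⟩
        simpa using hb
    have h2 := real_ev_cyl p hp u S ∅ S (Finset.disjoint_empty_left _)
    rw [h1, hP]
    simp only
    rw [measure_diff Set.inter_subset_left
      ((measurableSet_ev u S).inter (measurableSet_cyl u ∅ S)).nullMeasurableSet
      (measure_ne_top _ _), ENNReal.toReal_sub_of_le (measure_mono Set.inter_subset_left)
      (measure_ne_top _ _), h2]
    simp only [Finset.card_empty, pow_zero, one_mul]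
    apply le_of_eq
    ring
  have hnb : ∀ S (j : Fin d × Bool), (if j ∈ S then P (ev u S)
      else P (ev u S) * (p * (1 - (1 - (p : ℝ)) ^ S.card))) ≤
      P (ev u S ∩ {ω | (openGraph ω).Reachable 0 (nb u j)}) := by
    intro S j
    split_ifs with hj
    · apply hPmono
      intro ω hω
      exact ⟨hω, ((hω j).1 hj).mono (clos_mono _ ω)⟩
    · have h1 : (ev u S ∩ cyl u {j} ∅) \ (ev u S ∩ cyl u {j} S) ⊆
          ev u S ∩ {ω | (openGraph ω).Reachable 0 (nb u j)} := by
        rintro ω ⟨⟨h1, h2⟩, h3⟩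
        refine ⟨h1, ?_⟩
        have hjo : ω (bd u j) = true := h2.1 j (Finset.mem_singleton_self j)
        have h4 : ∃ j' ∈ S, ω (bd u j') = true := by
          by_contra hcon
          push Not at hcon
          apply h3
          refine ⟨h1, h2.1, fun j' hj' => ?_⟩
          simpa using hcon j' hj'
        obtain ⟨j', hj', h5⟩ := h4
        have h6 : (openGraph ω).Reachable 0 u :=
          (reach_iff ω u hu).2 ⟨j', (h1 j').1 hj', h5⟩
        exact h6.trans (adj_nb ω u j hjo).symm.reachable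
      have h2 := real_ev_cyl p hp u S {j} ∅ (Finset.disjoint_empty_right _)
      have h3 := real_ev_cyl p hp u S {j} S (Finset.disjoint_singleton_left.2 hj)
      refine le_trans (le_of_eq ?_) (hPmono _ _ h1)
      have h4 : ev u S ∩ cyl u {j} S ⊆ ev u S ∩ cyl u {j} ∅ := by
        rintro ω ⟨h5, h6⟩
        exact ⟨h5, h6.1, fun j' hj' => absurd hj' (Finset.notMem_empty j')⟩
      rw [hP]
      simp only
      rw [measure_diff h4
        ((measurableSet_ev u S).inter (measurableSet_cyl u {j} S)).nullMeasurableSet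
        (measure_ne_top _ _), ENNReal.toReal_sub_of_le (measure_mono h4)
        (measure_ne_top _ _), h2, h3]
      simp only [Finset.card_singleton, Finset.card_empty, pow_zero, pow_one]
      ring
  -- sum over `S`
  have e1 : tau d p hp u = ∑ S, P (ev u S ∩ {ω | (openGraph ω).Reachable 0 u}) :=
    split p hp u _ (measurableSet_reach 0 u)
  have e2 : ∀ j, tau d p hp (nb u j) =
      ∑ S, P (ev u S ∩ {ω | (openGraph ω).Reachable 0 (nb u j)}) := fun j =>
    split p hp u _ (measurableSet_reach 0 (nb u j))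
  have hc : (0 : ℝ) ≤ 1 + (2 * d - 1) * (p : ℝ) ^ 2 := by
    have hd0 : (0 : ℝ) ≤ d := Nat.cast_nonneg d
    nlinarith [sq_nonneg (p : ℝ)]
  rw [e1, Finset.mul_sum]
  have e3 : (p : ℝ) * ∑ j : Fin d × Bool, tau d p hp (nb u j) =
      ∑ S, p * ∑ j : Fin d × Bool, P (ev u S ∩ {ω | (openGraph ω).Reachable 0 (nb u j)}) := by
    rw [← Finset.mul_sum, Finset.sum_comm]
    congr 1
    exact Finset.sum_congr rfl fun j _ => e2 j
  rw [e3]
  apply Finset.sum_le_sum
  intro S _
  have hw : 0 ≤ P (ev u S) := ENNReal.toReal_nonneg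
  have h1 := mul_le_mul_of_nonneg_left (hself S) hc
  refine h1.trans ?_
  have h2 : (p : ℝ) * ∑ j : Fin d × Bool, (if j ∈ S then P (ev u S)
      else P (ev u S) * (p * (1 - (1 - (p : ℝ)) ^ S.card))) ≤
      p * ∑ j : Fin d × Bool, P (ev u S ∩ {ω | (openGraph ω).Reachable 0 (nb u j)}) :=
    mul_le_mul_of_nonneg_left (Finset.sum_le_sum fun j _ => hnb S j) hp0
  refine le_trans ?_ h2
  have h3 : ∑ j : Fin d × Bool, (if j ∈ S then P (ev u S)
      else P (ev u S) * (p * (1 - (1 - (p : ℝ)) ^ S.card))) =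
      S.card * P (ev u S) + ((2 * d : ℝ) - S.card) *
        (P (ev u S) * (p * (1 - (1 - (p : ℝ)) ^ S.card))) := by
    rw [Finset.sum_ite, Finset.sum_const, Finset.sum_const, nsmul_eq_mul, nsmul_eq_mul]
    have h4 : (Finset.univ.filter fun j => j ∈ S) = S := by
      ext j; simp
    have h5 : (Finset.univ.filter fun j => j ∉ S).card = 2 * d - S.card := by
      have : (Finset.univ.filter fun j => j ∉ S) = Sᶜ := by
        ext j; simp
      rw [this, Finset.card_compl]
      simp [mul_comm]
    have h6 : S.card ≤ 2 * d := by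
      have := Finset.card_le_univ S
      simpa [mul_comm] using this
    rw [h4, h5, Nat.cast_sub h6]
    push_cast
    ring
  rw [h3]
  have h7 := numeric (p : ℝ) hp0 hp1 S.card
  have h8 := mul_le_mul_of_nonneg_left h7 hw
  nlinarith

theorem law_open {d : ℕ} (p : ℝ≥0) (hp : p ≤ 1) (e : Bond d) :
    law d p hp {ω | ω e = true} = p := by
  have h1 : {ω : Bond d → Bool | ω e = true} =
      Set.pi (({e} : Finset (Bond d)) : Set (Bond d)) (fun _ => {true}) := by
    ext ω; simp
  rw [h1]
  unfold law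
  rw [Measure.infinitePi_pi _ (fun _ _ => MeasurableSet.of_discrete), Finset.prod_singleton,
    bern_true]

theorem le_tau_nb {d : ℕ} (p : ℝ≥0) (hp : p ≤ 1) (j : Fin d × Bool) :
    (p : ℝ) ≤ tau d p hp (nb 0 j) := by
  rw [tau_eq_real]
  have h1 : law d p hp {ω | ω (bd 0 j) = true} ≤
      law d p hp {ω | (openGraph ω).Reachable 0 (nb 0 j)} :=
    measure_mono fun ω hω => (adj_nb ω 0 j hω).symm.reachable
  have h2 := ENNReal.toReal_mono (measure_ne_top _ _) h1
  rw [law_open] at h2
  simpa using h2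

theorem sum_nb {d : ℕ} (f : Vtx d → ℝ) (u : Vtx d) :
    ∑ j : Fin d × Bool, f (nb u j) =
      ∑ i : Fin d, (f (u + Pi.single i 1) + f (u - Pi.single i 1)) := by
  rw [Fintype.sum_prod_type]
  refine Finset.sum_congr rfl fun i _ => ?_
  rw [Fintype.sum_bool]
  rfl

theorem tau_origin {d : ℕ} (p : ℝ≥0) (hp : p ≤ 1) : tau d p hp 0 = 1 := by
  rw [tau_eq_real]
  have h1 : {ω : Bond d → Bool | (openGraph ω).Reachable 0 0} = Set.univ := by
    ext ω
    simp
  rw [h1, measure_univ, ENNReal.toReal_one]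

end Kern

/-- Entrywise comparison of the two-point function with non-backtracking walk. -/
theorem kernel_le {d : ℕ} (hd : 1 ≤ d) (p : ℝ≥0) (hp : p ≤ 1) (x : Vtx d) :
    (1 + (2 * d - 1) * (p : ℝ) ^ 2) * tau d p hp x
      - p * ∑ i : Fin d, (tau d p hp (x + Pi.single i 1) + tau d p hp (x - Pi.single i 1))
      ≤ if x = 0 then 1 - (p : ℝ) ^ 2 else 0 := by
  have hp0 : (0 : ℝ) ≤ p := p.2
  rw [← Kern.sum_nb (tau d p hp) x]
  split_ifs with hx
  · subst hx
    rw [Kern.tau_origin]
    have h1 : ∑ _j : Fin d × Bool, (p : ℝ) ≤ ∑ j : Fin d × Bool, tau d p hp (Kern.nb 0 j) :=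
      Finset.sum_le_sum fun j _ => Kern.le_tau_nb p hp j
    rw [Finset.sum_const, Finset.card_univ, Fintype.card_prod, Fintype.card_fin,
      Fintype.card_bool, nsmul_eq_mul] at h1
    push_cast at h1
    have h2 := mul_le_mul_of_nonneg_left h1 hp0
    nlinarith
  · have := Kern.main p hp x hx
    linarith

end Pool.Agent.Lib.MP_54f242_pr
end

section

/-! Consequences of the comparison with non-backtracking walk. -/

set_option autoImplicit false
set_option linter.deprecated false

open MeasureTheory Filter Topology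
open scoped ENNReal NNReal

namespace Pool.Agent.Lib.MP_54f242_pr

namespace Energy

variable {d : ℕ}

lemma tau_nonneg' (p : ℝ≥0) (hp : p ≤ 1) (x : Vtx d) : 0 ≤ tau d p hp x := ENNReal.toReal_nonneg

lemma tau_le_one (p : ℝ≥0) (hp : p ≤ 1) (x : Vtx d) : tau d p hp x ≤ 1 := by
  have := Transport.isProb d p hp
  unfold tau
  have h : law d p hp {ω | (openGraph ω).Reachable 0 x} ≤ 1 := prob_le_one
  exact ENNReal.toReal_le_of_le_ofReal zero_le_one (by simpa using h)

/-- The defect `δ - K * τ`, up to the factor `1 - p²`. -/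
noncomputable def def0 (d : ℕ) (p : ℝ≥0) (hp : p ≤ 1) (x : Vtx d) : ℝ :=
  (if x = 0 then 1 - (p : ℝ) ^ 2 else 0) - ((1 + (2 * d - 1) * (p : ℝ) ^ 2) * tau d p hp x
      - p * ∑ i : Fin d, (tau d p hp (x + Pi.single i 1) + tau d p hp (x - Pi.single i 1)))

lemma def0_nonneg (hd : 1 ≤ d) (p : ℝ≥0) (hp : p ≤ 1) (x : Vtx d) : 0 ≤ def0 d p hp x := by
  unfold def0
  have := kernel_le hd p hp x
  linarith

/-- `cos (k·x)` -/
noncomputable def ck (k : Fin d → ℝ) (x : Vtx d) : ℝ := Real.cos (∑ i, k i * (x i : ℝ))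

lemma ck_add_sub (k : Fin d → ℝ) (x y : Vtx d) :
    ck k (x + y) + ck k (x - y) = 2 * ck k y * ck k x := by
  unfold ck
  have h1 : ∑ i, k i * (((x + y) i : ℤ) : ℝ) = (∑ i, k i * (x i : ℝ)) + ∑ i, k i * (y i : ℝ) := by
    rw [← Finset.sum_add_distrib]
    refine Finset.sum_congr rfl fun i _ => ?_
    rw [Pi.add_apply]; push_cast; ring
  have h2 : ∑ i, k i * (((x - y) i : ℤ) : ℝ) = (∑ i, k i * (x i : ℝ)) - ∑ i, k i * (y i : ℝ) := by
    rw [← Finset.sum_sub_distrib]
    refine Finset.sum_congr rfl fun i _ => ?_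
    rw [Pi.sub_apply]; push_cast; ring
  rw [h1, h2, Real.cos_add, Real.cos_sub]
  ring

lemma ck_single (k : Fin d → ℝ) (i : Fin d) : ck k (Pi.single i 1) = Real.cos (k i) := by
  unfold ck
  congr 1
  rw [Finset.sum_eq_single i]
  · simp
  · intro j _ hj
    rw [Pi.single_eq_of_ne hj]; simp
  · simp

lemma abs_ck_le (k : Fin d → ℝ) (x : Vtx d) : |ck k x| ≤ 1 := Real.abs_cos_le_one _

lemma ck_zero (x : Vtx d) : ck 0 x = 1 := by unfold ck; simp

lemma summable_shift {f : Vtx d → ℝ} (hf : Summable f) (y : Vtx d) :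
    Summable (fun x => f (x + y)) := (Equiv.addRight y).summable_iff.2 hf

lemma tsum_shift (f : Vtx d → ℝ) (y : Vtx d) : ∑' x, f (x + y) = ∑' x, f x :=
  (Equiv.addRight y).tsum_eq f

lemma summable_mul_ck {f : Vtx d → ℝ} (hf : Summable f) (k : Fin d → ℝ) :
    Summable (fun x => f x * ck k x) := by
  refine Summable.of_norm_bounded hf.norm fun x => ?_
  rw [norm_mul]
  exact mul_le_of_le_one_right (norm_nonneg _) (abs_ck_le k x)

/-- one direction of the neighbour sum -/
lemma tsum_pair {f : Vtx d → ℝ} (hf : Summable f) (k : Fin d → ℝ) (y : Vtx d) :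
    ∑' x, (f (x + y) + f (x - y)) * ck k x = 2 * ck k y * ∑' x, f x * ck k x := by
  have h1 : Summable (fun x => f (x + y) * ck k x) := summable_mul_ck (summable_shift hf y) k
  have h2 : Summable (fun x => f (x - y) * ck k x) := by
    simpa [sub_eq_add_neg] using summable_mul_ck (summable_shift hf (-y)) k
  have h3 : ∑' x, f (x + y) * ck k x = ∑' x, f x * ck k (x - y) := by
    rw [← tsum_shift (fun x => f x * ck k (x - y)) y]
    simp
  have h4 : ∑' x, f (x - y) * ck k x = ∑' x, f x * ck k (x + y) := by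
    rw [← tsum_shift (fun x => f x * ck k (x + y)) (-y)]
    simp [sub_eq_add_neg]
  have h5 : Summable (fun x => f x * ck k (x - y)) := by
    refine Summable.of_norm_bounded hf.norm fun x => ?_
    rw [norm_mul]
    exact mul_le_of_le_one_right (norm_nonneg _) (abs_ck_le k _)
  have h6 : Summable (fun x => f x * ck k (x + y)) := by
    refine Summable.of_norm_bounded hf.norm fun x => ?_
    rw [norm_mul]
    exact mul_le_of_le_one_right (norm_nonneg _) (abs_ck_le k _)
  calc ∑' x, (f (x + y) + f (x - y)) * ck k x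
      = ∑' x, (f (x + y) * ck k x + f (x - y) * ck k x) := by
        refine tsum_congr fun x => ?_
        ring
    _ = ∑' x, f x * ck k (x - y) + ∑' x, f x * ck k (x + y) := by
        rw [h1.tsum_add h2, h3, h4]
    _ = ∑' x, (f x * ck k (x - y) + f x * ck k (x + y)) := (h5.tsum_add h6).symm
    _ = ∑' x, 2 * ck k y * (f x * ck k x) := by
        refine tsum_congr fun x => ?_
        have := ck_add_sub k x y
        calc f x * ck k (x - y) + f x * ck k (x + y) = f x * (ck k (x + y) + ck k (x - y)) := by ring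
          _ = _ := by rw [this]; ring
    _ = 2 * ck k y * ∑' x, f x * ck k x := tsum_mul_left

lemma summable_def0 (p : ℝ≥0) (hp : p ≤ 1) (hs : Summable (tau d p hp)) :
    Summable (def0 d p hp) := by
  unfold def0
  apply Summable.sub
  · exact (hasSum_ite_eq 0 (1 - (p : ℝ) ^ 2)).summable
  · apply Summable.sub
    · exact hs.mul_left _
    · apply Summable.mul_left
      apply summable_sum
      intro i _
      have h2 : Summable (fun x : Vtx d => tau d p hp (x - Pi.single i 1)) := by
        simpa [sub_eq_add_neg] using summable_shift hs (-Pi.single i 1)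
      exact (summable_shift hs _).add h2

lemma tauHat_eq (p : ℝ≥0) (hp : p ≤ 1) (k : Fin d → ℝ) :
    tauHat d p hp k = ∑' x, tau d p hp x * ck k x := rfl

/-- the Fourier transform of the defect -/
lemma tsum_def0 (p : ℝ≥0) (hp : p ≤ 1) (hs : Summable (tau d p hp)) (k : Fin d → ℝ) :
    ∑' x, def0 d p hp x * ck k x =
      (1 - (p : ℝ) ^ 2) - (1 - 2 * p * ∑ i, Real.cos (k i) + (2 * d - 1) * (p : ℝ) ^ 2) *
        tauHat d p hp k := by
  have hδ : HasSum (fun x : Vtx d => (if x = 0 then 1 - (p : ℝ) ^ 2 else 0) * ck k x)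
      (1 - (p : ℝ) ^ 2) := by
    have h := hasSum_ite_eq (0 : Vtx d) (1 - (p : ℝ) ^ 2)
    convert h using 2 with x
    split_ifs with hx
    · subst hx
      unfold ck
      simp
    · simp
  have h1 : HasSum (fun x => tau d p hp x * ck k x) (tauHat d p hp k) :=
    (summable_mul_ck hs k).hasSum
  have h2 : ∀ i : Fin d, HasSum (fun x : Vtx d => (tau d p hp (x + Pi.single i 1) +
      tau d p hp (x - Pi.single i 1)) * ck k x) (2 * Real.cos (k i) * tauHat d p hp k) := by
    intro i
    have hsm : Summable (fun x : Vtx d => (tau d p hp (x + Pi.single i 1) +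
        tau d p hp (x - Pi.single i 1)) * ck k x) := by
      apply summable_mul_ck
      have h2 : Summable (fun x : Vtx d => tau d p hp (x - Pi.single i 1)) := by
        simpa [sub_eq_add_neg] using summable_shift hs (-Pi.single i 1)
      exact (summable_shift hs _).add h2
    have := hsm.hasSum
    rwa [tsum_pair hs k, ck_single, ← tauHat_eq] at this
  have h3 := hasSum_sum (s := Finset.univ) fun i _ => h2 i
  have h4 := hδ.sub ((h1.mul_left (1 + (2 * d - 1) * (p : ℝ) ^ 2)).sub (h3.mul_left (p : ℝ)))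
  have h5 : (fun x => (if x = 0 then 1 - (p : ℝ) ^ 2 else 0) * ck k x -
      ((1 + (2 * d - 1) * (p : ℝ) ^ 2) * (tau d p hp x * ck k x) -
        (p : ℝ) * ∑ i : Fin d, (tau d p hp (x + Pi.single i 1) +
          tau d p hp (x - Pi.single i 1)) * ck k x)) = fun x => def0 d p hp x * ck k x := by
    ext x
    unfold def0
    rw [← Finset.sum_mul]
    ring
  rw [h5] at h4
  rw [h4.tsum_eq, ← Finset.sum_mul, ← Finset.mul_sum]
  ring

lemma tauHat_zero (p : ℝ≥0) (hp : p ≤ 1) : tauHat d p hp 0 = chi d p hp := by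
  rw [tauHat_eq]
  unfold chi
  refine tsum_congr fun x => ?_
  rw [ck_zero, mul_one]

/-- **Uniform estimate**: `|1 - K(k) τ̂(k)| ≤ 1 - K(0) χ`, multiplied by `1 - p²`. -/
theorem fourier_bound (hd : 1 ≤ d) (p : ℝ≥0) (hp : p ≤ 1) (hs : Summable (tau d p hp))
    (k : Fin d → ℝ) :
    |(1 - (p : ℝ) ^ 2) - (1 - 2 * p * ∑ i, Real.cos (k i) + (2 * d - 1) * (p : ℝ) ^ 2) *
        tauHat d p hp k| ≤
      (1 - (p : ℝ) ^ 2) + (1 - p) * ((2 * d - 1) * p - 1) * chi d p hp := by
  have h0 := tsum_def0 p hp hs (0 : Fin d → ℝ)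
  rw [tauHat_zero] at h0
  simp only [Pi.zero_apply, Real.cos_zero, Finset.sum_const, Finset.card_univ, Fintype.card_fin,
    nsmul_eq_mul, mul_one, ck_zero] at h0
  rw [← tsum_def0 p hp hs k]
  have hsum := summable_def0 p hp hs
  have hnn := def0_nonneg hd p hp
  calc |∑' x, def0 d p hp x * ck k x| ≤ ∑' x, |def0 d p hp x * ck k x| := by
        have hh := (summable_mul_ck hsum k).norm
        simpa [Real.norm_eq_abs] using norm_tsum_le_tsum_norm hh
    _ ≤ ∑' x, def0 d p hp x := by
        have hh : Summable (fun x => |def0 d p hp x * ck k x|) := (summable_mul_ck hsum k).abs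
        refine hh.tsum_le_tsum (fun x => ?_) hsum
        rw [abs_mul, abs_of_nonneg (hnn x)]
        exact mul_le_of_le_one_right (hnn x) (abs_ck_le k x)
    _ = _ := by rw [h0]; ring

/-- **Infrared bound with an explicit error term.** -/
theorem infrared_error (hd : 1 ≤ d) (p : ℝ≥0) (hp : p ≤ 1) (hs : Summable (tau d p hp))
    (k : Fin d → ℝ) :
    2 * d * p * ((1 - (1 / (d : ℝ)) * ∑ i, Real.cos (k i)) * tauHat d p hp k) ≤
      2 * (1 - (p : ℝ) ^ 2) +
        (1 - p) * ((2 * d - 1) * p - 1) * (chi d p hp + tauHat d p hp k) := by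
  have h := (abs_le.1 (fourier_bound hd p hp hs k)).1
  have hd0 : (d : ℝ) ≠ 0 := by
    have : (1 : ℝ) ≤ d := by exact_mod_cast hd
    linarith
  have h2 : 2 * d * p * ((1 - (1 / (d : ℝ)) * ∑ i, Real.cos (k i)) * tauHat d p hp k) =
      (2 * d * p - 2 * p * ∑ i, Real.cos (k i)) * tauHat d p hp k := by
    field_simp
  rw [h2]
  nlinarith

/-- **Energy estimate** for the two-point function. -/
theorem energy_bound (hd : 1 ≤ d) (p : ℝ≥0) (hp : p ≤ 1) (hs : Summable (tau d p hp)) :
    p * ∑' x : Vtx d, ∑ i : Fin d, (tau d p hp (x + Pi.single i 1) - tau d p hp x) ^ 2 ≤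
      (1 - (p : ℝ) ^ 2) + (1 - p) * ((2 * d - 1) * p - 1) * ∑' x : Vtx d, tau d p hp x ^ 2 := by
  set τ := tau d p hp with hτ
  have hτ0 : ∀ x, 0 ≤ τ x := tau_nonneg' p hp
  have hτ1 : ∀ x, τ x ≤ 1 := tau_le_one p hp
  have hprod : ∀ y : Vtx d, Summable (fun x => τ x * τ (x + y)) := by
    intro y
    refine Summable.of_nonneg_of_le (fun x => mul_nonneg (hτ0 _) (hτ0 _)) (fun x => ?_) hs
    exact mul_le_of_le_one_right (hτ0 x) (hτ1 _)
  have hsq : Summable (fun x => τ x ^ 2) := by
    have := hprod 0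
    simpa [sq] using this
  have hprod' : ∀ y : Vtx d, Summable (fun x => τ x * τ (x - y)) := by
    intro y
    simpa [sub_eq_add_neg] using hprod (-y)
  have hsym : ∀ y : Vtx d, ∑' x, τ x * τ (x - y) = ∑' x, τ x * τ (x + y) := by
    intro y
    rw [← tsum_shift (fun x => τ x * τ (x - y)) y]
    refine tsum_congr fun x => ?_
    rw [add_sub_cancel_right, mul_comm]
  -- the pairing of the defect with `τ`
  have h1 : 0 ≤ ∑' x, τ x * def0 d p hp x :=
    tsum_nonneg fun x => mul_nonneg (hτ0 x) (def0_nonneg hd p hp x)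
  have hδ : HasSum (fun x : Vtx d => τ x * (if x = 0 then 1 - (p : ℝ) ^ 2 else 0))
      (1 - (p : ℝ) ^ 2) := by
    have h := hasSum_ite_eq (0 : Vtx d) (1 - (p : ℝ) ^ 2)
    convert h using 2 with x
    split_ifs with hx
    · subst hx
      rw [hτ, Kern.tau_origin]
      ring
    · simp
  have h2 : ∀ i : Fin d, HasSum (fun x : Vtx d => τ x * (τ (x + Pi.single i 1) +
      τ (x - Pi.single i 1))) (2 * ∑' x : Vtx d, τ x * τ (x + Pi.single i 1)) := by
    intro i
    have h := (hprod (Pi.single i 1)).hasSum.add (hprod' (Pi.single i 1)).hasSum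
    rw [hsym, ← two_mul] at h
    refine h.congr_fun ?_
    intro x
    ring
  have h3 := hasSum_sum (s := Finset.univ) fun i _ => h2 i
  have h4 := hδ.sub ((hsq.hasSum.mul_left (1 + (2 * d - 1) * (p : ℝ) ^ 2)).sub
    (h3.mul_left (p : ℝ)))
  have h5 : (fun x => τ x * (if x = 0 then 1 - (p : ℝ) ^ 2 else 0) -
      ((1 + (2 * d - 1) * (p : ℝ) ^ 2) * (τ x ^ 2) -
        (p : ℝ) * ∑ i : Fin d, τ x * (τ (x + Pi.single i 1) +
          τ (x - Pi.single i 1)))) = fun x => τ x * def0 d p hp x := by
    ext x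
    unfold def0
    rw [← Finset.mul_sum]
    ring
  rw [h5] at h4
  rw [h4.tsum_eq] at h1
  -- the energy
  have h6 : ∀ i : Fin d, HasSum (fun x : Vtx d => (τ (x + Pi.single i 1) - τ x) ^ 2)
      (2 * (∑' x, τ x ^ 2) - 2 * ∑' x : Vtx d, τ x * τ (x + Pi.single i 1)) := by
    intro i
    have ha : HasSum (fun x : Vtx d => τ (x + Pi.single i 1) ^ 2) (∑' x, τ x ^ 2) := by
      rw [← tsum_shift (fun x => τ x ^ 2) (Pi.single i 1)]
      exact (summable_shift hsq (Pi.single i 1)).hasSum
    have hb := (ha.add hsq.hasSum).sub ((hprod (Pi.single i 1)).hasSum.mul_left 2)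
    rw [← two_mul] at hb
    refine hb.congr_fun ?_
    intro x
    ring
  have h7 := hasSum_sum (s := Finset.univ) fun i _ => h6 i
  rw [h7.tsum_eq, Finset.sum_sub_distrib, Finset.sum_const, Finset.card_univ, Fintype.card_fin,
    nsmul_eq_mul, ← Finset.mul_sum]
  rw [← Finset.mul_sum] at h1
  nlinarith

end Energy

end Pool.Agent.Lib.MP_54f242_pr
end
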