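import Pool.Agent.Lib.MP_54f242_pr.Prob

section

/-! The maximal inequality for finitely many values of `p`, conclusion. -/

set_option autoImplicit false
set_option linter.deprecated false

open MeasureTheory Filter Topology
open scoped ENNReal NNReal

namespace Pool.Agent.Lib.MP_54f242_pr

variable {d : ℕ}
set_option maxHeartbeats 400000

lemma swap_aux {α β : Type*} [MeasurableSpace α] [MeasurableSpace β] (μ : Measure α)
    (ν : Measure β) [SFinite μ] [SFinite ν] (f : α → β → ℝ≥0∞)
    (hf : Measurable (fun z : α × β => f z.1 z.2)) :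
    ∫⁻ y, (∫⁻ x, f x y ∂μ) ∂ν = ∫⁻ x, (∫⁻ y, f x y ∂ν) ∂μ :=
  (lintegral_lintegral_swap (f := f) hf.aemeasurable).symm

lemma lev_swap (ε : ℝ) (F : Finset (Par d)) (m : ℕ) :
    ∫⁻ k in torus d, (∫⁻ U, lev ε F m U k ∂(labelLaw d)) =
      ∫⁻ U, (∫⁻ k in torus d, lev ε F m U k) ∂(labelLaw d) :=
  swap_aux (labelLaw d) ((volume : Measure (Fin d → ℝ)).restrict (torus d)) (lev ε F m)
    (measurable_lev ε F m)

lemma cst_mul (ε : ℝ) (c : ℝ≥0∞) : cst ε * c =
    ∑' m : ℕ, (ENNReal.ofReal ((3 / (m + 1)) ^ (3 + ε)) + ENNReal.ofReal (2 / (√2) ^ m)) *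
      (2 * (m + 1) ^ 2 * c) := by
  have h : ∀ m : ℕ, (ENNReal.ofReal ((3 / (m + 1)) ^ (3 + ε)) + ENNReal.ofReal (2 / (√2) ^ m)) *
      (2 * (m + 1) ^ 2 * c) = ((ENNReal.ofReal ((3 / (m + 1)) ^ (3 + ε)) +
      ENNReal.ofReal (2 / (√2) ^ m)) * (2 * (m + 1) ^ 2)) * c :=
    fun m => (mul_assoc _ _ _).symm
  rw [tsum_congr h]
  exact ENNReal.tsum_mul_right.symm

/-- **The maximal inequality for finitely many values of `p`.** -/
theorem finite_maximal {ε : ℝ} (hε : 0 < ε) (F : Finset (Par d)) :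
    ∫⁻ k in torus d, F.sup (fun i => wt ε i * ENNReal.ofReal (tauHat d i.1 i.le_one k)) ≤
      cst ε * ENNReal.ofReal ((2 * Real.pi) ^ d) := by
  classical
  have h1 : ∀ k, F.sup (fun i => wt ε i * ENNReal.ofReal (tauHat d i.1 i.le_one k)) ≤
      ∑' m : ℕ, ∫⁻ U, lev ε F m U k ∂(labelLaw d) := by
    intro k
    apply Finset.sup_le
    intro i hi
    have hmeas : ∀ m : ℕ, Measurable (fun U : Bond d → ℝ =>
        if cls m (clu i U) then ENNReal.ofReal (spec (clu i U) k) else 0) := by
      intro m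
      have h : Measurable (fun U : Bond d → ℝ => (U, k)) := measurable_id.prodMk measurable_const
      exact (measurable_one_term m i).comp h
    calc wt ε i * ENNReal.ofReal (tauHat d i.1 i.le_one k)
        = wt ε i * ∫⁻ U, ENNReal.ofReal (spec (clu i U) k) ∂(labelLaw d) := by
          rw [lintegral_label]
      _ ≤ wt ε i * ∫⁻ U, ∑' m : ℕ, (if cls m (clu i U) then ENNReal.ofReal (spec (clu i U) k)
            else 0) ∂(labelLaw d) := by
          gcongr with U
          exact spec_le_tsum _ ⟨0, zero_mem_clu i U⟩ k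
      _ = wt ε i * ∑' m : ℕ, ∫⁻ U, (if cls m (clu i U) then ENNReal.ofReal (spec (clu i U) k)
            else 0) ∂(labelLaw d) := by
          rw [lintegral_tsum fun m => (hmeas m).aemeasurable]
      _ = ∑' m : ℕ, ∫⁻ U, wt ε i * (if cls m (clu i U) then ENNReal.ofReal (spec (clu i U) k)
            else 0) ∂(labelLaw d) := by
          rw [← ENNReal.tsum_mul_left]
          refine tsum_congr fun m => ?_
          rw [lintegral_const_mul _ (hmeas m)]
      _ ≤ ∑' m : ℕ, ∫⁻ U, lev ε F m U k ∂(labelLaw d) := by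
          gcongr with m U
          exact Finset.le_sup (f := fun i => wt ε i *
            if cls m (clu i U) then ENNReal.ofReal (spec (clu i U) k) else 0) hi
  calc ∫⁻ k in torus d, F.sup (fun i => wt ε i * ENNReal.ofReal (tauHat d i.1 i.le_one k))
      ≤ ∫⁻ k in torus d, ∑' m : ℕ, ∫⁻ U, lev ε F m U k ∂(labelLaw d) := lintegral_mono h1
    _ = ∑' m : ℕ, ∫⁻ k in torus d, ∫⁻ U, lev ε F m U k ∂(labelLaw d) := by
        rw [lintegral_tsum]
        intro m
        have := (measurable_lev ε F m).lintegral_prod_left' (μ := labelLaw d)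
        exact this.aemeasurable
    _ = ∑' m : ℕ, ∫⁻ U, (∫⁻ k in torus d, lev ε F m U k) ∂(labelLaw d) := by
        exact tsum_congr fun m => lev_swap ε F m
    _ ≤ ∑' m : ℕ, (ENNReal.ofReal ((3 / (m + 1)) ^ (3 + ε)) + ENNReal.ofReal (2 / (√2) ^ m)) *
          (2 * (m + 1) ^ 2 * ENNReal.ofReal ((2 * Real.pi) ^ d)) :=
        ENNReal.tsum_le_tsum fun m => lintegral_lintegral_lev_le hε F m
    _ = cst ε * ENNReal.ofReal ((2 * Real.pi) ^ d) := (cst_mul ε _).symm

end Pool.Agent.Lib.MP_54f242_pr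
end

section

/-! The maximal function in `p` of the Fourier transform of the two-point function. -/

set_option autoImplicit false
set_option linter.deprecated false

open MeasureTheory Filter Topology
open scoped ENNReal NNReal

namespace Pool.Agent.Lib.MP_54f242_pr

variable {d : ℕ}
set_option maxHeartbeats 400000

lemma summable_first (ε : ℝ) (hε : 0 < ε) :
    Summable (fun m : ℕ => (3 / ((m : ℝ) + 1)) ^ (3 + ε) * (2 * ((m : ℝ) + 1) ^ 2)) := by
  have h1 : Summable (fun n : ℕ => 1 / (n : ℝ) ^ (1 + ε)) :=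
    Real.summable_one_div_nat_rpow.2 (by linarith)
  have h2 := ((summable_nat_add_iff 1).2 h1).mul_left (2 * 3 ^ (3 + ε))
  refine h2.congr fun m => ?_
  have hm : (0 : ℝ) < (m : ℝ) + 1 := by positivity
  push_cast
  rw [Real.div_rpow (by norm_num) hm.le]
  have h3 : ((m : ℝ) + 1) ^ (3 + ε) = ((m : ℝ) + 1) ^ (1 + ε) * ((m : ℝ) + 1) ^ 2 := by
    rw [← Real.rpow_natCast, ← Real.rpow_add hm]
    congr 1
    push_cast
    ring
  rw [h3]
  have h4 : ((m : ℝ) + 1) ^ (1 + ε) ≠ 0 := (Real.rpow_pos_of_pos hm _).ne'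
  field_simp

lemma summable_second :
    Summable (fun m : ℕ => 2 / (√2 : ℝ) ^ m * (2 * ((m : ℝ) + 1) ^ 2)) := by
  have hr : ‖(1 / √2 : ℝ)‖ < 1 := by
    rw [Real.norm_of_nonneg (by positivity), div_lt_one (by positivity)]
    exact Real.lt_sqrt_of_sq_lt (by norm_num)
  have h0 := summable_pow_mul_geometric_of_norm_lt_one (R := ℝ) 0 hr
  have h1 := summable_pow_mul_geometric_of_norm_lt_one (R := ℝ) 1 hr
  have h2 := summable_pow_mul_geometric_of_norm_lt_one (R := ℝ) 2 hr
  have h3 := ((h2.mul_left 4).add (h1.mul_left 8)).add (h0.mul_left 4)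
  refine h3.congr fun m => ?_
  rw [one_div, inv_pow]
  have : (√2 : ℝ) ^ m ≠ 0 := by positivity
  field_simp
  ring

lemma cst_lt_top {ε : ℝ} (hε : 0 < ε) : cst ε ≠ ⊤ := by
  have hs := (summable_first ε hε).add summable_second
  have h : cst ε = ENNReal.ofReal (∑' m : ℕ, ((3 / ((m : ℝ) + 1)) ^ (3 + ε) *
      (2 * ((m : ℝ) + 1) ^ 2) + 2 / (√2 : ℝ) ^ m * (2 * ((m : ℝ) + 1) ^ 2))) := by
    rw [ENNReal.ofReal_tsum_of_nonneg (fun m => by positivity) hs]
    unfold cst
    refine tsum_congr fun m => ?_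
    rw [ENNReal.ofReal_add (by positivity) (by positivity),
      ENNReal.ofReal_mul (p := (3 / ((m : ℝ) + 1)) ^ (3 + ε)) (by positivity),
      ENNReal.ofReal_mul (p := 2 / (√2 : ℝ) ^ m) (by positivity), add_mul]
    have : ENNReal.ofReal (2 * ((m : ℝ) + 1) ^ 2) = 2 * ((m : ℝ≥0∞) + 1) ^ 2 := by
      rw [ENNReal.ofReal_mul (by norm_num), ENNReal.ofReal_pow (by positivity),
        ENNReal.ofReal_add (by positivity) (by norm_num)]
      simp
    rw [this]
  rw [h]
  exact ENNReal.ofReal_ne_top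

/-- the weighted Fourier transform -/
noncomputable def wf (ε : ℝ) (i : Par d) (k : Fin d → ℝ) : ℝ≥0∞ :=
  wt ε i * ENNReal.ofReal (tauHat d i.1 i.le_one k)

/-- The rational values of `p` with finite susceptibility. -/
abbrev RPar (d : ℕ) : Type := {i : Par d // ∃ r : ℚ, (r : ℝ) = (i.1 : ℝ)}

instance : Countable (RPar d) := by
  have : Function.Injective (fun i : RPar d => i.2.choose) := by
    intro i j h
    have hi := i.2.choose_spec
    have hj := j.2.choose_spec
    have h' : i.2.choose = j.2.choose := h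
    rw [h'] at hi
    rw [hi] at hj
    apply Subtype.ext
    apply Subtype.ext
    exact_mod_cast hj
  exact this.countable

/-- The maximal function. -/
noncomputable def maxFun (d : ℕ) (ε : ℝ) (k : Fin d → ℝ) : ℝ≥0∞ := ⨆ i : RPar d, wf ε i.1 k

lemma measurable_tauHat (i : Par d) : Measurable (tauHat d i.1 i.le_one) := by
  unfold tauHat
  have : Continuous (fun k : Fin d → ℝ =>
      ∑' x : Vtx d, tau d i.1 i.le_one x * Real.cos (∑ j, k j * (x j : ℝ))) := by
    apply continuous_tsum (u := fun x => tau d i.1 i.le_one x)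
    · intro x
      fun_prop
    · exact i.summable
    · intro x k
      rw [Real.norm_eq_abs, abs_mul, abs_of_nonneg (tau_nonneg _ _ x)]
      exact mul_le_of_le_one_right (tau_nonneg _ _ x) (Real.abs_cos_le_one _)
  exact this.measurable

lemma measurable_wf (ε : ℝ) (i : Par d) : Measurable (wf ε i) := by
  unfold wf
  exact (measurable_tauHat i).ennreal_ofReal.const_mul _

lemma measurable_maxFun (d : ℕ) (ε : ℝ) : Measurable (maxFun d ε) :=
  Measurable.iSup fun i => measurable_wf ε i.1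

lemma iSup_eq_iSup_finset_sup {ι : Type*} (f : ι → ℝ≥0∞) :
    ⨆ i, f i = ⨆ s : Finset ι, s.sup f := by
  apply le_antisymm
  · apply iSup_le
    intro i
    refine le_trans ?_ (le_iSup _ {i})
    simp
  · apply iSup_le
    intro s
    apply Finset.sup_le
    intro i _
    exact le_iSup f i

lemma lintegral_maxFun_le (d : ℕ) {ε : ℝ} (hε : 0 < ε) :
    ∫⁻ k in torus d, maxFun d ε k ≤ cst ε * ENNReal.ofReal ((2 * Real.pi) ^ d) := by
  classical
  have h1 : ∀ k, maxFun d ε k = ⨆ s : Finset (RPar d), s.sup (fun i => wf ε i.1 k) :=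
    fun k => iSup_eq_iSup_finset_sup _
  simp_rw [h1]
  rw [lintegral_iSup_directed]
  · apply iSup_le
    intro s
    have h2 : ∀ k, s.sup (fun i => wf ε i.1 k) =
        (s.image Subtype.val).sup (fun i => wt ε i * ENNReal.ofReal (tauHat d i.1 i.le_one k)) := by
      intro k
      rw [Finset.sup_image]
      rfl
    simp_rw [h2]
    exact finite_maximal hε _
  · intro s
    exact (measurable_fsup s (fun i k => wf ε i.1 k) fun i _ => measurable_wf ε i.1).aemeasurable
  · intro s t
    refine ⟨s ∪ t, fun k => ?_, fun k => ?_⟩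
    · exact Finset.sup_mono Finset.subset_union_left
    · exact Finset.sup_mono Finset.subset_union_right

lemma wf_le_maxFun (ε : ℝ) (i : Par d) (k : Fin d → ℝ) : wf ε i k ≤ maxFun d ε k := by
  by_cases h0 : i.1 = 0
  · exact le_iSup (fun j : RPar d => wf ε j.1 k) ⟨i, 0, by rw [h0]; simp⟩
  · obtain ⟨q, hq, hqp, hqr, hqs, hchi, hhat⟩ :=
      exists_rat_seq i.1 i.le_one (pos_iff_ne_zero.2 h0) i.summable
    let j : ℕ → Par d := fun n => ⟨q n, hq n, hqs n⟩
    have h1 : ∀ n, wf ε (j n) k ≤ maxFun d ε k := fun n =>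
      le_iSup (fun j : RPar d => wf ε j.1 k) ⟨j n, hqr n⟩
    have h2 : Tendsto (fun n => wf ε (j n) k) atTop (𝓝 (wf ε i k)) := by
      unfold wf wt
      have h3 : Tendsto (fun n => (1 + Real.log (sus (j n))) ^ (-(3 + ε))) atTop
          (𝓝 ((1 + Real.log (sus i)) ^ (-(3 + ε)))) := by
        apply Tendsto.rpow_const
        · apply Tendsto.const_add
          exact (Real.continuousAt_log (lt_of_lt_of_le one_pos (one_le_sus i)).ne').tendsto.comp
            hchi
        · left
          have := Real.log_nonneg (one_le_sus i)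
          linarith
      have h4 := (ENNReal.continuous_ofReal.tendsto _).comp h3
      have h5 := (ENNReal.continuous_ofReal.tendsto _).comp (hhat k)
      exact ENNReal.Tendsto.mul h4 (Or.inr ENNReal.ofReal_ne_top) h5 (Or.inr ENNReal.ofReal_ne_top)
    exact le_of_tendsto' h2 h1

/-- **Log-infrared bound**, integrated over the torus and uniform in `p`. -/
theorem log_infrared (ε : ℝ) (hε : 0 < ε) :
    ∃ C : ℝ, ∀ d : ℕ, ∃ A : (Fin d → ℝ) → ℝ≥0∞, Measurable A ∧
      ∫⁻ k in torus d, A k ≤ ENNReal.ofReal (C * (2 * Real.pi) ^ d) ∧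
      ∀ (p : ℝ≥0) (hp : p ≤ 1), Summable (tau d p hp) → ∀ k : Fin d → ℝ,
        ENNReal.ofReal (tauHat d p hp k) ≤
          A k * ENNReal.ofReal ((1 + Real.log (chi d p hp)) ^ (3 + ε)) := by
  refine ⟨(cst ε).toReal, fun d => ⟨maxFun d ε, measurable_maxFun d ε, ?_, ?_⟩⟩
  · rw [ENNReal.ofReal_mul ENNReal.toReal_nonneg, ENNReal.ofReal_toReal (cst_lt_top hε)]
    exact lintegral_maxFun_le d hε
  · intro p hp hs k
    let i : Par d := ⟨p, hp, hs⟩
    have h := wf_le_maxFun ε i k
    have hpos : 0 < 1 + Real.log (sus i) := by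
      have := Real.log_nonneg (one_le_sus i)
      linarith
    have hw : wt ε i * ENNReal.ofReal ((1 + Real.log (chi d p hp)) ^ (3 + ε)) = 1 := by
      unfold wt
      rw [← ENNReal.ofReal_mul (by positivity)]
      have : (1 + Real.log (sus i)) ^ (-(3 + ε)) * (1 + Real.log (chi d p hp)) ^ (3 + ε) = 1 := by
        change (1 + Real.log (sus i)) ^ (-(3 + ε)) * (1 + Real.log (sus i)) ^ (3 + ε) = 1
        rw [← Real.rpow_add hpos]
        simp
      rw [this, ENNReal.ofReal_one]
    calc ENNReal.ofReal (tauHat d p hp k)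
        = (wt ε i * ENNReal.ofReal ((1 + Real.log (chi d p hp)) ^ (3 + ε))) *
            ENNReal.ofReal (tauHat d p hp k) := by rw [hw, one_mul]
      _ = wf ε i k * ENNReal.ofReal ((1 + Real.log (chi d p hp)) ^ (3 + ε)) := by
          unfold wf; ring
      _ ≤ _ := by gcongr

end Pool.Agent.Lib.MP_54f242_pr
end

section

/-! The maximal function over `q ≤ p` is controlled by `E_p[(1 + log |C|)³]`. -/

set_option autoImplicit false
set_option linter.deprecated false

open MeasureTheory Filter Topology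
open scoped ENNReal NNReal

namespace Pool.Agent.Lib.MP_54f242_pr

variable {d : ℕ}
set_option maxHeartbeats 400000

/-- the term of level `m`, without weights -/
noncomputable def lev1 (F : Finset (Par d)) (m : ℕ) (U : Bond d → ℝ) (k : Fin d → ℝ) : ℝ≥0∞ :=
  open Classical in
  F.sup (fun i => if cls m (clu i U) then ENNReal.ofReal (spec (clu i U) k) else 0)

lemma measurable_lev1 (F : Finset (Par d)) (m : ℕ) :
    Measurable (fun z : (Bond d → ℝ) × (Fin d → ℝ) => lev1 F m z.1 z.2) := by
  unfold lev1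
  exact measurable_fsup F _ fun i _ => measurable_one_term m i

/-- the cluster at `p` has more than `2^m / 2` vertices -/
def bigSet (p : Par d) (m : ℕ) : Set (Bond d → ℝ) := {U | (2 : ℝ) ^ m / 2 < sz (clu p U)}

lemma measurableSet_bigSet (p : Par d) (m : ℕ) : MeasurableSet (bigSet p m) :=
  measurableSet_lt measurable_const (measurable_sz_clu p)

lemma lintegral_lev1_le (F : Finset (Par d)) (p : Par d) (hF : ∀ i ∈ F, i.1 ≤ p.1) (m : ℕ)
    (U : Bond d → ℝ) (hfin : (clu p U).Finite) :
    ∫⁻ k in torus d, lev1 F m U k ≤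
      (bigSet p m).indicator 1 U * (2 * (m + 1) ^ 2 * ENNReal.ofReal ((2 * Real.pi) ^ d)) := by
  classical
  by_cases hU : U ∈ bigSet p m
  · rw [Set.indicator_of_mem hU, Pi.one_apply, one_mul]
    have hpt : ∀ k, lev1 F m U k ≤ (F.filter fun i => cls m (clu i U)).sup
        (fun i => ENNReal.ofReal (spec (clu i U) k)) := by
      intro k
      unfold lev1
      apply Finset.sup_le
      intro i hi
      by_cases hcl : cls m (clu i U)
      · rw [if_pos hcl]
        exact Finset.le_sup (f := fun i => ENNReal.ofReal (spec (clu i U) k))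
          (Finset.mem_filter.2 ⟨hi, hcl⟩)
      · rw [if_neg hcl]
        exact bot_le
    refine (lintegral_mono hpt).trans ?_
    apply lintegral_sup_spec_le
    · intro i _ j _
      exact clu_chain i j U
    · intro i hi
      exact (Finset.mem_filter.1 hi).2
  · have h0 : ∀ k, lev1 F m U k = 0 := by
      intro k
      unfold lev1
      apply le_antisymm _ bot_le
      apply Finset.sup_le
      intro i hi
      have hcl : ¬ cls m (clu i U) := by
        intro hcl
        apply hU
        have h1 := hcl.1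
        change (2 : ℝ) ^ m / 2 < sz (clu p U)
        refine h1.trans_le ?_
        rw [sz_of_finite hcl.finite, sz_of_finite hfin]
        exact_mod_cast Finset.card_le_card
          (Set.Finite.toFinset_subset_toFinset.2 (clu_mono (hF i hi) U))
      rw [if_neg hcl]
      exact bot_le
    simp only [h0, lintegral_zero]
    exact bot_le

lemma sum_levels_le {N : ℕ} (hN : 1 ≤ N) :
    ∑' m : ℕ, ({m : ℕ | (2 : ℝ) ^ m / 2 < N}.indicator 1 m : ℝ≥0∞) * (2 * (m + 1) ^ 2) ≤
      ENNReal.ofReal (16 * (1 + Real.log N) ^ 3) := by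
  classical
  set M := Nat.log 2 (2 * N) with hM
  have hzero : ∀ m : ℕ, m ∉ Finset.range (M + 1) →
      ({m : ℕ | (2 : ℝ) ^ m / 2 < N}.indicator 1 m : ℝ≥0∞) * (2 * (m + 1) ^ 2) = 0 := by
    intro m hm
    rw [Finset.mem_range, not_lt] at hm
    have : m ∉ {m : ℕ | (2 : ℝ) ^ m / 2 < N} := by
      simp only [Set.mem_ofPred_eq, not_lt]
      have h1 : 2 * N < 2 ^ m := Nat.lt_pow_of_log_lt (by norm_num) (by omega)
      have h2 : (2 : ℝ) * N < 2 ^ m := by exact_mod_cast h1
      linarith
    rw [Set.indicator_of_notMem this, zero_mul]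
  rw [tsum_eq_sum hzero]
  have h1 : ∑ m ∈ Finset.range (M + 1),
      ({m : ℕ | (2 : ℝ) ^ m / 2 < N}.indicator 1 m : ℝ≥0∞) * (2 * (m + 1) ^ 2) ≤
      ∑ m ∈ Finset.range (M + 1), (2 * ((M : ℝ≥0∞) + 1) ^ 2) := by
    apply Finset.sum_le_sum
    intro m hm
    have hm' : m ≤ M := by
      rw [Finset.mem_range] at hm; omega
    have h2 : ({m : ℕ | (2 : ℝ) ^ m / 2 < N}.indicator 1 m : ℝ≥0∞) ≤ 1 :=
      Set.indicator_le_self' (fun _ _ => zero_le_one) m
    calc ({m : ℕ | (2 : ℝ) ^ m / 2 < N}.indicator 1 m : ℝ≥0∞) * (2 * (m + 1) ^ 2)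
        ≤ 1 * (2 * ((M : ℝ≥0∞) + 1) ^ 2) := by gcongr
      _ = _ := one_mul _
  refine h1.trans ?_
  rw [Finset.sum_const, Finset.card_range, nsmul_eq_mul]
  have h3 : (((M + 1 : ℕ) : ℝ≥0∞)) * (2 * ((M : ℝ≥0∞) + 1) ^ 2) =
      ENNReal.ofReal (((M : ℝ) + 1) * (2 * ((M : ℝ) + 1) ^ 2)) := by
    rw [ENNReal.ofReal_mul (by positivity), ENNReal.ofReal_mul (by norm_num),
      ENNReal.ofReal_pow (by positivity), ENNReal.ofReal_add (by positivity) (by norm_num)]
    simp
  rw [h3]
  apply ENNReal.ofReal_le_ofReal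
  have hNpos : (0 : ℝ) < N := by exact_mod_cast hN
  have hlogN : 0 ≤ Real.log N := Real.log_natCast_nonneg N
  have h4 : (M : ℝ) * Real.log 2 ≤ Real.log 2 + Real.log N := by
    have h5 : 2 ^ M ≤ 2 * N := Nat.pow_log_le_self 2 (by omega)
    have h6 : (2 : ℝ) ^ M ≤ 2 * N := by exact_mod_cast h5
    have h7 := Real.log_le_log (by positivity) h6
    rwa [Real.log_pow, Real.log_mul (by norm_num) hNpos.ne'] at h7
  have hl2 := Real.log_two_gt_d9
  have h8 : (M : ℝ) + 1 ≤ 2 * (1 + Real.log N) := by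
    have hl2' : (0 : ℝ) < Real.log 2 := by linarith
    have : ((M : ℝ) + 1) * Real.log 2 ≤ (2 * (1 + Real.log N)) * Real.log 2 := by nlinarith
    exact le_of_mul_le_mul_right this hl2'
  calc ((M : ℝ) + 1) * (2 * ((M : ℝ) + 1) ^ 2) = 2 * ((M : ℝ) + 1) ^ 3 := by ring
    _ ≤ 2 * (2 * (1 + Real.log N)) ^ 3 := by gcongr
    _ = 16 * (1 + Real.log N) ^ 3 := by ring

lemma lev1_swap (F : Finset (Par d)) (m : ℕ) :
    ∫⁻ k in torus d, (∫⁻ U, lev1 F m U k ∂(labelLaw d)) =
      ∫⁻ U, (∫⁻ k in torus d, lev1 F m U k) ∂(labelLaw d) :=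
  swap_aux (labelLaw d) ((volume : Measure (Fin d → ℝ)).restrict (torus d)) (lev1 F m)
    (measurable_lev1 F m)

/-- `E_p[(1 + log |C|)³]` -/
noncomputable def logMoment (d : ℕ) (p : ℝ≥0) (hp : p ≤ 1) : ℝ≥0∞ :=
  ∫⁻ ω, ENNReal.ofReal ((1 + Real.log (cluster ω).ncard) ^ 3) ∂(law d p hp)

lemma measurable_ncard : Measurable (fun ω : Bond d → Bool => ((cluster ω).ncard : ℝ)) := by
  classical
  have h : (fun ω : Bond d → Bool => ((cluster ω).ncard : ℝ)) =
      fun ω => spec (cluster ω) 0 := by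
    ext ω
    by_cases hf : (cluster ω).Finite
    · have := sz_of_finite hf
      unfold sz at this
      rw [this, Set.ncard_eq_toFinset_card _ hf]
    · have := sz_of_infinite hf
      unfold sz at this
      rw [this, Set.Infinite.ncard hf]
      simp
  rw [h]
  exact measurable_spec.comp (measurable_id.prodMk measurable_const)

lemma lintegral_levels (p : Par d) :
    ∑' m : ℕ, labelLaw d (bigSet p m) * (2 * (m + 1) ^ 2) ≤
      16 * logMoment d p.1 p.le_one := by
  classical
  have hmeas : Measurable (fun ω : Bond d → Bool =>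
      ENNReal.ofReal ((1 + Real.log (cluster ω).ncard) ^ 3)) :=
    (((Real.measurable_log.comp measurable_ncard).const_add 1).pow_const 3).ennreal_ofReal
  have h1 : ∀ m : ℕ, labelLaw d (bigSet p m) * (2 * ((m : ℝ≥0∞) + 1) ^ 2) =
      ∫⁻ U, (bigSet p m).indicator 1 U * (2 * ((m : ℝ≥0∞) + 1) ^ 2) ∂(labelLaw d) := by
    intro m
    rw [lintegral_mul_const _ (measurable_one.indicator (measurableSet_bigSet p m)),
      lintegral_indicator_one (measurableSet_bigSet p m)]
  calc ∑' m : ℕ, labelLaw d (bigSet p m) * (2 * (m + 1) ^ 2)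
      = ∑' m : ℕ, ∫⁻ U, (bigSet p m).indicator 1 U * (2 * ((m : ℝ≥0∞) + 1) ^ 2)
          ∂(labelLaw d) := tsum_congr h1
    _ = ∫⁻ U, ∑' m : ℕ, (bigSet p m).indicator 1 U * (2 * ((m : ℝ≥0∞) + 1) ^ 2)
          ∂(labelLaw d) := by
        rw [lintegral_tsum]
        intro m
        exact ((measurable_one.indicator (measurableSet_bigSet p m)).mul_const _).aemeasurable
    _ ≤ ∫⁻ U, ENNReal.ofReal (16 * (1 + Real.log (clu p U).ncard) ^ 3) ∂(labelLaw d) := by
        apply lintegral_mono_ae
        filter_upwards [ae_finite_clu p] with U hU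
        have hN : 1 ≤ (clu p U).ncard := by
          exact (Set.ncard_pos hU).2 ⟨0, zero_mem_clu p U⟩
        refine le_trans (le_of_eq ?_) (sum_levels_le hN)
        refine tsum_congr fun m => ?_
        congr 1
        have hsz : sz (clu p U) = (clu p U).ncard := by
          rw [sz_of_finite hU, Set.ncard_eq_toFinset_card _ hU]
        by_cases h : (2 : ℝ) ^ m / 2 < (clu p U).ncard
        · rw [Set.indicator_of_mem (show U ∈ bigSet p m by
            change (2 : ℝ) ^ m / 2 < sz (clu p U)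
            rw [hsz]; exact h), Set.indicator_of_mem (show m ∈ _ from h)]
          rfl
        · rw [Set.indicator_of_notMem (show U ∉ bigSet p m by
            change ¬ ((2 : ℝ) ^ m / 2 < sz (clu p U))
            rw [hsz]; exact h), Set.indicator_of_notMem (show m ∉ _ from h)]
    _ = ∫⁻ ω, ENNReal.ofReal (16 * (1 + Real.log (cluster ω).ncard) ^ 3)
          ∂(law d p.1 p.le_one) := by
        rw [← map_conf, lintegral_map _ (measurable_conf _)]
        · rfl
        · exact ((((Real.measurable_log.comp measurable_ncard).const_add 1).pow_const 3).const_mul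
            16).ennreal_ofReal
    _ = 16 * logMoment d p.1 p.le_one := by
        unfold logMoment
        rw [← lintegral_const_mul _ hmeas]
        refine lintegral_congr fun ω => ?_
        rw [ENNReal.ofReal_mul (by norm_num)]
        simp

/-- Maximal inequality over finitely many `q ≤ p`. -/
theorem finite_maximal1 (p : Par d) (F : Finset (Par d)) (hF : ∀ i ∈ F, i.1 ≤ p.1) :
    ∫⁻ k in torus d, F.sup (fun i => ENNReal.ofReal (tauHat d i.1 i.le_one k)) ≤
      16 * logMoment d p.1 p.le_one * ENNReal.ofReal ((2 * Real.pi) ^ d) := by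
  classical
  have h1 : ∀ k, F.sup (fun i => ENNReal.ofReal (tauHat d i.1 i.le_one k)) ≤
      ∑' m : ℕ, ∫⁻ U, lev1 F m U k ∂(labelLaw d) := by
    intro k
    apply Finset.sup_le
    intro i hi
    have hmeas : ∀ m : ℕ, Measurable (fun U : Bond d → ℝ =>
        if cls m (clu i U) then ENNReal.ofReal (spec (clu i U) k) else 0) := by
      intro m
      have h : Measurable (fun U : Bond d → ℝ => (U, k)) := measurable_id.prodMk measurable_const
      exact (measurable_one_term m i).comp h
    calc ENNReal.ofReal (tauHat d i.1 i.le_one k)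
        = ∫⁻ U, ENNReal.ofReal (spec (clu i U) k) ∂(labelLaw d) := by
          rw [lintegral_label]
      _ ≤ ∫⁻ U, ∑' m : ℕ, (if cls m (clu i U) then ENNReal.ofReal (spec (clu i U) k)
            else 0) ∂(labelLaw d) := by
          gcongr with U
          exact spec_le_tsum _ ⟨0, zero_mem_clu i U⟩ k
      _ = ∑' m : ℕ, ∫⁻ U, (if cls m (clu i U) then ENNReal.ofReal (spec (clu i U) k)
            else 0) ∂(labelLaw d) := by
          rw [lintegral_tsum fun m => (hmeas m).aemeasurable]
      _ ≤ ∑' m : ℕ, ∫⁻ U, lev1 F m U k ∂(labelLaw d) := by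
          gcongr with m U
          exact Finset.le_sup (f := fun i =>
            if cls m (clu i U) then ENNReal.ofReal (spec (clu i U) k) else 0) hi
  calc ∫⁻ k in torus d, F.sup (fun i => ENNReal.ofReal (tauHat d i.1 i.le_one k))
      ≤ ∫⁻ k in torus d, ∑' m : ℕ, ∫⁻ U, lev1 F m U k ∂(labelLaw d) := lintegral_mono h1
    _ = ∑' m : ℕ, ∫⁻ k in torus d, ∫⁻ U, lev1 F m U k ∂(labelLaw d) := by
        rw [lintegral_tsum]
        intro m
        have := (measurable_lev1 F m).lintegral_prod_left' (μ := labelLaw d)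
        exact this.aemeasurable
    _ = ∑' m : ℕ, ∫⁻ U, (∫⁻ k in torus d, lev1 F m U k) ∂(labelLaw d) := by
        exact tsum_congr fun m => lev1_swap F m
    _ ≤ ∑' m : ℕ, (labelLaw d (bigSet p m) * (2 * (m + 1) ^ 2)) *
          ENNReal.ofReal ((2 * Real.pi) ^ d) := by
        apply ENNReal.tsum_le_tsum
        intro m
        have h2 : ∫⁻ U, (∫⁻ k in torus d, lev1 F m U k) ∂(labelLaw d) ≤
            ∫⁻ U, (bigSet p m).indicator 1 U *
              (2 * ((m : ℝ≥0∞) + 1) ^ 2 * ENNReal.ofReal ((2 * Real.pi) ^ d)) ∂(labelLaw d) := by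
          apply lintegral_mono_ae
          filter_upwards [ae_finite_clu p] with U hU
          exact lintegral_lev1_le F p hF m U hU
        refine h2.trans (le_of_eq ?_)
        rw [lintegral_mul_const _ (measurable_one.indicator (measurableSet_bigSet p m)),
          lintegral_indicator_one (measurableSet_bigSet p m)]
        exact (mul_assoc _ _ _).symm
    _ = (∑' m : ℕ, labelLaw d (bigSet p m) * (2 * (m + 1) ^ 2)) *
          ENNReal.ofReal ((2 * Real.pi) ^ d) := ENNReal.tsum_mul_right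
    _ ≤ 16 * logMoment d p.1 p.le_one * ENNReal.ofReal ((2 * Real.pi) ^ d) := by
        gcongr
        exact lintegral_levels p

/-- The rational values `q ≤ p`. -/
abbrev RParLe (p : Par d) : Type := {i : RPar d // i.1.1 ≤ p.1}

/-- The maximal function over `q ≤ p`. -/
noncomputable def maxFun1 (p : Par d) (k : Fin d → ℝ) : ℝ≥0∞ :=
  ⨆ i : RParLe p, ENNReal.ofReal (tauHat d i.1.1.1 i.1.1.le_one k)

lemma measurable_maxFun1 (p : Par d) : Measurable (maxFun1 p) :=
  Measurable.iSup fun i => (measurable_tauHat i.1.1).ennreal_ofReal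

lemma lintegral_maxFun1_le (p : Par d) :
    ∫⁻ k in torus d, maxFun1 p k ≤
      16 * logMoment d p.1 p.le_one * ENNReal.ofReal ((2 * Real.pi) ^ d) := by
  classical
  have h1 : ∀ k, maxFun1 p k = ⨆ s : Finset (RParLe p),
      s.sup (fun i => ENNReal.ofReal (tauHat d i.1.1.1 i.1.1.le_one k)) :=
    fun k => iSup_eq_iSup_finset_sup _
  simp_rw [h1]
  rw [lintegral_iSup_directed]
  · apply iSup_le
    intro s
    have h2 : ∀ k, s.sup (fun i => ENNReal.ofReal (tauHat d i.1.1.1 i.1.1.le_one k)) =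
        (s.image (fun i => i.1.1)).sup (fun i => ENNReal.ofReal (tauHat d i.1 i.le_one k)) := by
      intro k
      rw [Finset.sup_image]
      rfl
    simp_rw [h2]
    apply finite_maximal1 p
    intro i hi
    obtain ⟨j, -, rfl⟩ := Finset.mem_image.1 hi
    exact j.2
  · intro s
    exact (measurable_fsup s (fun i k => ENNReal.ofReal (tauHat d i.1.1.1 i.1.1.le_one k))
      fun i _ => (measurable_tauHat i.1.1).ennreal_ofReal).aemeasurable
  · intro s t
    refine ⟨s ∪ t, fun k => ?_, fun k => ?_⟩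
    · exact Finset.sup_mono Finset.subset_union_left
    · exact Finset.sup_mono Finset.subset_union_right

lemma le_maxFun1 (p : Par d) (i : Par d) (hi : i.1 ≤ p.1) (k : Fin d → ℝ) :
    ENNReal.ofReal (tauHat d i.1 i.le_one k) ≤ maxFun1 p k := by
  by_cases h0 : i.1 = 0
  · exact le_iSup (fun j : RParLe p => ENNReal.ofReal (tauHat d j.1.1.1 j.1.1.le_one k))
      ⟨⟨i, 0, by rw [h0]; simp⟩, hi⟩
  · obtain ⟨q, hq, hqp, hqr, hqs, hchi, hhat⟩ :=
      exists_rat_seq i.1 i.le_one (pos_iff_ne_zero.2 h0) i.summable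
    let j : ℕ → Par d := fun n => ⟨q n, hq n, hqs n⟩
    have h1 : ∀ n, ENNReal.ofReal (tauHat d (q n) (hq n) k) ≤ maxFun1 p k := fun n =>
      le_iSup (fun j : RParLe p => ENNReal.ofReal (tauHat d j.1.1.1 j.1.1.le_one k))
        ⟨⟨j n, hqr n⟩, (hqp n).le.trans hi⟩
    exact le_of_tendsto' ((ENNReal.continuous_ofReal.tendsto _).comp (hhat k)) h1

end Pool.Agent.Lib.MP_54f242_pr
end
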