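import Pool.Agent.Lib.MP_54f242_pr.Defs
import Pool.Agent.Lib.MP_54f242_pr.Transport

section

/-!
# Trigonometric sums over finite sets of vertices
-/

set_option autoImplicit false
set_option linter.deprecated false

open MeasureTheory Filter Topology
open scoped ENNReal NNReal

namespace Pool.Agent.Lib.MP_54f242_pr

theorem continuous_ampl {d : ℕ} (A : Finset (Vtx d)) : Continuous (ampl A) := by
  unfold ampl
  refine Continuous.pow (Continuous.norm ?_) 2
  refine continuous_finsetSum _ (fun x _ => ?_)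
  refine Complex.continuous_exp.comp ?_
  refine Continuous.mul ?_ continuous_const
  refine Complex.continuous_ofReal.comp ?_
  exact continuous_finsetSum _ (fun i _ => (continuous_apply i).mul continuous_const)

private lemma ampl_nonneg {d : ℕ} (A : Finset (Vtx d)) (k : Fin d → ℝ) : 0 ≤ ampl A k := by
  unfold ampl
  positivity

private lemma sum_exp_re {d : ℕ} (A : Finset (Vtx d)) (k : Fin d → ℝ) :
    (∑ x ∈ A, Complex.exp (((∑ i, k i * (x i : ℝ) : ℝ) : ℂ) * Complex.I)).re =
      ∑ x ∈ A, Real.cos (∑ i, k i * (x i : ℝ)) := by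
  rw [Complex.re_sum]
  exact Finset.sum_congr rfl (fun x _ => Complex.exp_ofReal_mul_I_re _)

private lemma sum_exp_im {d : ℕ} (A : Finset (Vtx d)) (k : Fin d → ℝ) :
    (∑ x ∈ A, Complex.exp (((∑ i, k i * (x i : ℝ) : ℝ) : ℂ) * Complex.I)).im =
      ∑ x ∈ A, Real.sin (∑ i, k i * (x i : ℝ)) := by
  rw [Complex.im_sum]
  exact Finset.sum_congr rfl (fun x _ => Complex.exp_ofReal_mul_I_im _)

/-- `ampl A k = ∑_{x, y ∈ A} cos (k·(x - y))`. -/
theorem ampl_eq_sum {d : ℕ} (A : Finset (Vtx d)) (k : Fin d → ℝ) :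
    ampl A k = ∑ x ∈ A, ∑ y ∈ A, Real.cos (∑ i, k i * (((x - y) i : ℤ) : ℝ)) := by
  have h1 : ampl A k = (∑ x ∈ A, Real.cos (∑ i, k i * (x i : ℝ))) *
      (∑ x ∈ A, Real.cos (∑ i, k i * (x i : ℝ))) +
      (∑ x ∈ A, Real.sin (∑ i, k i * (x i : ℝ))) * (∑ x ∈ A, Real.sin (∑ i, k i * (x i : ℝ))) := by
    unfold ampl
    rw [Complex.sq_norm, Complex.normSq_apply, sum_exp_re, sum_exp_im]
  rw [h1, Finset.sum_mul_sum, Finset.sum_mul_sum, ← Finset.sum_add_distrib]
  refine Finset.sum_congr rfl (fun x _ => ?_)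
  rw [← Finset.sum_add_distrib]
  refine Finset.sum_congr rfl (fun y _ => ?_)
  rw [← Real.cos_sub, ← Finset.sum_sub_distrib]
  congr 1
  refine Finset.sum_congr rfl (fun i _ => ?_)
  rw [Pi.sub_apply]
  push_cast
  ring

/-- `|a + b|² ≤ (1 + m)|a|² + (1 + 1/m)|b|²`. -/
theorem ampl_split {d : ℕ} (m : ℕ) (hm : 1 ≤ m) (A B : Finset (Vtx d)) (h : A ⊆ B)
    (k : Fin d → ℝ) :
    ENNReal.ofReal (ampl B k) ≤ (1 + m) * ENNReal.ofReal (ampl A k)
      + (1 + 1 / (m : ℝ≥0∞)) * ENNReal.ofReal (ampl (B \ A) k) := by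
  have hm0 : (0 : ℝ) < m := by exact_mod_cast hm
  have key : ampl B k ≤ (1 + m) * ampl A k + (1 + 1 / (m : ℝ)) * ampl (B \ A) k := by
    unfold ampl
    set a : ℂ := ∑ x ∈ A, Complex.exp (((∑ i, k i * (x i : ℝ) : ℝ) : ℂ) * Complex.I) with ha
    set b : ℂ := ∑ x ∈ B \ A, Complex.exp (((∑ i, k i * (x i : ℝ) : ℝ) : ℂ) * Complex.I) with hb
    have hs : ∑ x ∈ B, Complex.exp (((∑ i, k i * (x i : ℝ) : ℝ) : ℂ) * Complex.I) = a + b := by
      rw [ha, hb, add_comm]
      exact (Finset.sum_sdiff h).symm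
    rw [hs]
    have h1 : ‖a + b‖ ≤ ‖a‖ + ‖b‖ := norm_add_le a b
    have h2 : ‖a + b‖ ^ 2 ≤ (‖a‖ + ‖b‖) ^ 2 := pow_le_pow_left₀ (norm_nonneg _) h1 2
    have h3 : (‖a‖ + ‖b‖) ^ 2 ≤ (1 + m) * ‖a‖ ^ 2 + (1 + 1 / (m : ℝ)) * ‖b‖ ^ 2 := by
      have h4 : (1 + m) * ‖a‖ ^ 2 + (1 + 1 / (m : ℝ)) * ‖b‖ ^ 2 - (‖a‖ + ‖b‖) ^ 2 =
          (m * ‖a‖ - ‖b‖) ^ 2 / m := by
        field_simp
        ring
      have h5 : 0 ≤ (m * ‖a‖ - ‖b‖) ^ 2 / m := by positivity
      linarith
    linarith
  have e1 : (1 + m : ℝ≥0∞) = ENNReal.ofReal (1 + m) := by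
    rw [ENNReal.ofReal_add (by norm_num) hm0.le, ENNReal.ofReal_one, ENNReal.ofReal_natCast]
  have e2 : (1 + 1 / (m : ℝ≥0∞)) = ENNReal.ofReal (1 + 1 / (m : ℝ)) := by
    rw [ENNReal.ofReal_add (by norm_num) (by positivity), ENNReal.ofReal_one,
      ENNReal.ofReal_div_of_pos hm0, ENNReal.ofReal_one, ENNReal.ofReal_natCast]
  rw [e1, e2, ← ENNReal.ofReal_mul (by positivity), ← ENNReal.ofReal_mul (by positivity),
    ← ENNReal.ofReal_add (mul_nonneg (by positivity) (ampl_nonneg _ _))
      (mul_nonneg (by positivity) (ampl_nonneg _ _))]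
  exact ENNReal.ofReal_le_ofReal key

private lemma measurableSet_torus (d : ℕ) : MeasurableSet (torus d) :=
  MeasurableSet.univ_pi (fun _ => measurableSet_Ioc)

private lemma integrableOn_torus {d : ℕ} {E : Type*} [NormedAddCommGroup E]
    {f : (Fin d → ℝ) → E} (hf : Continuous f) :
    IntegrableOn f (torus d) := by
  have h1 : IntegrableOn f (Set.univ.pi fun _ : Fin d => Set.Icc (-Real.pi) Real.pi) :=
    hf.continuousOn.integrableOn_compact (isCompact_univ_pi (fun _ => isCompact_Icc))
  exact h1.mono_set (Set.pi_mono (fun _ _ => Set.Ioc_subset_Icc_self))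

private lemma one_dim (n : ℤ) :
    ∫ t in Set.Ioc (-Real.pi) Real.pi, Complex.exp (((t * (n : ℝ) : ℝ) : ℂ) * Complex.I) =
      if n = 0 then ((2 * Real.pi : ℝ) : ℂ) else 0 := by
  have hpi : -Real.pi ≤ Real.pi := by linarith [Real.pi_pos]
  rw [← intervalIntegral.integral_of_le hpi]
  split_ifs with h
  · subst h
    simp
    ring
  · have hc : (n : ℂ) * Complex.I ≠ 0 :=
      mul_ne_zero (by exact_mod_cast h) Complex.I_ne_zero
    have h1 : ∀ t : ℝ, Complex.exp (((t * (n : ℝ) : ℝ) : ℂ) * Complex.I) =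
        Complex.exp (((n : ℂ) * Complex.I) * t) := by
      intro t
      congr 1
      push_cast
      ring
    simp_rw [h1]
    rw [integral_exp_mul_complex hc]
    have h2 : Complex.exp ((n : ℂ) * Complex.I * (Real.pi : ℝ)) =
        Complex.exp ((n : ℂ) * Complex.I * ((-Real.pi : ℝ) : ℂ)) := by
      rw [Complex.exp_eq_exp_iff_exists_int]
      refine ⟨n, ?_⟩
      push_cast
      ring
    rw [h2, sub_self, zero_div]

private lemma many_dim {d : ℕ} (z : Vtx d) :
    ∫ k in torus d, Complex.exp (((∑ i, k i * (z i : ℝ) : ℝ) : ℂ) * Complex.I) =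
      if z = 0 then (((2 * Real.pi) ^ d : ℝ) : ℂ) else 0 := by
  have h1 : ∀ k : Fin d → ℝ, Complex.exp (((∑ i, k i * (z i : ℝ) : ℝ) : ℂ) * Complex.I) =
      ∏ i, Complex.exp (((k i * (z i : ℝ) : ℝ) : ℂ) * Complex.I) := by
    intro k
    rw [← Complex.exp_sum, Complex.ofReal_sum, Finset.sum_mul]
  simp_rw [h1]
  rw [volume_pi, torus, Measure.restrict_pi_pi]
  rw [integral_fintype_prod_eq_prod
    (fun (i : Fin d) (t : ℝ) => Complex.exp (((t * (z i : ℝ) : ℝ) : ℂ) * Complex.I))]
  simp_rw [one_dim]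
  split_ifs with h
  · subst h
    simp
  · obtain ⟨i, hi⟩ : ∃ i, z i ≠ 0 := by
      by_contra hcon
      push Not at hcon
      exact h (funext hcon)
    exact Finset.prod_eq_zero (Finset.mem_univ i) (by simp [hi])

private lemma integral_cos {d : ℕ} (z : Vtx d) :
    ∫ k in torus d, Real.cos (∑ i, k i * ((z i : ℤ) : ℝ)) =
      if z = 0 then (2 * Real.pi) ^ d else 0 := by
  have h1 : ∀ k : Fin d → ℝ, Real.cos (∑ i, k i * (z i : ℝ)) =
      RCLike.re (Complex.exp (((∑ i, k i * (z i : ℝ) : ℝ) : ℂ) * Complex.I)) := by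
    intro k
    exact (Complex.exp_ofReal_mul_I_re _).symm
  simp_rw [h1]
  rw [integral_re]
  · rw [many_dim]
    split_ifs
    · exact Complex.ofReal_re _
    · simp
  · refine integrableOn_torus (Complex.continuous_exp.comp ?_)
    refine Continuous.mul ?_ continuous_const
    refine Complex.continuous_ofReal.comp ?_
    exact continuous_finsetSum _ (fun i _ => (continuous_apply i).mul continuous_const)

/-- Orthogonality of the exponentials. -/
theorem lintegral_ampl {d : ℕ} (A : Finset (Vtx d)) :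
    ∫⁻ k in torus d, ENNReal.ofReal (ampl A k) = ENNReal.ofReal ((2 * Real.pi) ^ d) * A.card := by
  rw [← ofReal_integral_eq_lintegral_ofReal (integrableOn_torus (continuous_ampl A))
    (Filter.Eventually.of_forall (fun k => ampl_nonneg A k))]
  have h1 : ∫ k in torus d, ampl A k = (2 * Real.pi) ^ d * A.card := by
    simp_rw [ampl_eq_sum]
    rw [integral_finset_sum]
    · have h2 : ∀ x ∈ A, ∫ k in torus d, ∑ y ∈ A, Real.cos (∑ i, k i * (((x - y) i : ℤ) : ℝ)) =
          (2 * Real.pi) ^ d := by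
        intro x hx
        rw [integral_finset_sum]
        · simp_rw [integral_cos, sub_eq_zero]
          rw [Finset.sum_ite_eq]
          simp [hx]
        · intro y _
          refine integrableOn_torus (Real.continuous_cos.comp ?_)
          exact continuous_finsetSum _ (fun i _ => (continuous_apply i).mul continuous_const)
      rw [Finset.sum_congr rfl h2, Finset.sum_const, nsmul_eq_mul, mul_comm]
    · intro x _
      refine integrableOn_torus (continuous_finsetSum _ (fun y _ => Real.continuous_cos.comp ?_))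
      exact continuous_finsetSum _ (fun i _ => (continuous_apply i).mul continuous_const)
  rw [h1, ENNReal.ofReal_mul (by positivity), ENNReal.ofReal_natCast]

end Pool.Agent.Lib.MP_54f242_pr
end

section

section

/-!
# The monotone coupling, measurability and left-continuity (section IR-3)
-/

set_option autoImplicit false
set_option linter.deprecated false

open MeasureTheory Filter Topology
open scoped ENNReal NNReal

namespace Pool.Agent.Lib.MP_54f242_pr

instance instIsProbabilityMeasureLaw (d : ℕ) (p : ℝ≥0) (hp : p ≤ 1) :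
    IsProbabilityMeasure (law d p hp) := by
  unfold law
  infer_instance

instance instIsProbabilityMeasureUnit :
    IsProbabilityMeasure ((volume : Measure ℝ).restrict (Set.Icc 0 1)) := by
  refine ⟨?_⟩
  simp

instance instIsProbabilityMeasureLabelLaw (d : ℕ) : IsProbabilityMeasure (labelLaw d) := by
  unfold labelLaw
  infer_instance

theorem measurable_decide_lt (t : ℝ) :
    Measurable (fun u : ℝ => (open Classical in decide (u < t) : Bool)) := by
  classical
  refine measurable_to_bool ?_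
  have : (fun u : ℝ => (decide (u < t) : Bool)) ⁻¹' {true} = Set.Iio t := by
    ext u; simp
  rw [this]
  exact measurableSet_Iio

theorem measurable_conf {d : ℕ} (t : ℝ) : Measurable (conf (d := d) t) := by
  unfold conf
  refine measurable_pi_lambda _ fun e => ?_
  exact (measurable_decide_lt t).comp (measurable_pi_apply e)

theorem map_unit (p : ℝ≥0) (hp : p ≤ 1) :
    ((volume : Measure ℝ).restrict (Set.Icc 0 1)).map
      (fun u : ℝ => (open Classical in decide (u < (p : ℝ)) : Bool))
      = (PMF.bernoulli p hp).toMeasure := by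
  classical
  have hp1 : (p : ℝ) ≤ 1 := by exact_mod_cast hp
  have hp0 : (0 : ℝ) ≤ p := p.2
  have key : ∀ b : Bool, ((volume : Measure ℝ).restrict (Set.Icc 0 1)).map
      (fun u : ℝ => (decide (u < (p : ℝ)) : Bool)) {b} = (PMF.bernoulli p hp).toMeasure {b} := by
    intro b
    rw [Measure.map_apply (measurable_decide_lt _) (measurableSet_singleton _)]
    rw [PMF.toMeasure_apply_singleton _ _ (measurableSet_singleton _), PMF.bernoulli_apply]
    cases b
    · have h1 : (fun u : ℝ => (decide (u < (p : ℝ)) : Bool)) ⁻¹' {false} = Set.Ici (p : ℝ) := by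
        ext u; simp
      rw [h1, Measure.restrict_apply measurableSet_Ici]
      have h2 : Set.Ici (p : ℝ) ∩ Set.Icc 0 1 = Set.Icc (p : ℝ) 1 := by
        ext u
        simp only [Set.mem_inter_iff, Set.mem_Ici, Set.mem_Icc]
        constructor
        · rintro ⟨a, b, c⟩; exact ⟨a, c⟩
        · rintro ⟨a, c⟩; exact ⟨a, le_trans hp0 a, c⟩
      rw [h2, Real.volume_Icc]
      simp only [Bool.cond_false]
      rw [ENNReal.ofReal_sub _ hp0]
      simp
    · have h1 : (fun u : ℝ => (decide (u < (p : ℝ)) : Bool)) ⁻¹' {true} = Set.Iio (p : ℝ) := by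
        ext u; simp
      rw [h1, Measure.restrict_apply measurableSet_Iio]
      have h2 : Set.Iio (p : ℝ) ∩ Set.Icc 0 1 = Set.Ico 0 (p : ℝ) := by
        ext u
        simp only [Set.mem_inter_iff, Set.mem_Iio, Set.mem_Icc, Set.mem_Ico]
        constructor
        · rintro ⟨a, b, c⟩; exact ⟨b, a⟩
        · rintro ⟨a, c⟩; exact ⟨c, a, le_trans c.le hp1⟩
      rw [h2, Real.volume_Ico]
      simp
  refine Measure.ext_of_singleton fun b => ?_
  exact key b

theorem map_conf (d : ℕ) (p : ℝ≥0) (hp : p ≤ 1) :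
    (labelLaw d).map (conf (p : ℝ)) = law d p hp := by
  unfold labelLaw law conf
  have := Measure.infinitePi_map_pi
    (μ := fun _ : Bond d => (volume : Measure ℝ).restrict (Set.Icc 0 1))
    (f := fun _ : Bond d => fun u : ℝ => (open Classical in decide (u < (p : ℝ)) : Bool))
    (fun _ => measurable_decide_lt _)
  rw [this]
  congr 1
  funext _
  exact map_unit p hp

/-- Adjacency in the open graph is measurable. -/
theorem measurableSet_adj {d : ℕ} (x y : Vtx d) :
    MeasurableSet {ω : Bond d → Bool | (openGraph ω).Adj x y} := by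
  have h : {ω : Bond d → Bool | (openGraph ω).Adj x y}
      = {ω | x ≠ y} ∩ ((⋃ i : Fin d, {ω : Bond d → Bool | y = x + Pi.single i (1 : ℤ)} ∩
          {ω : Bond d → Bool | ω (x, i) = true}) ∪
        (⋃ i : Fin d, {ω : Bond d → Bool | x = y + Pi.single i (1 : ℤ)} ∩
          {ω : Bond d → Bool | ω (y, i) = true})) := by
    ext ω
    simp only [openGraph, SimpleGraph.fromRel_adj, Set.mem_ofPred_eq, Set.mem_inter_iff,
      Set.mem_union, Set.mem_iUnion]
  rw [h]
  refine MeasurableSet.inter (MeasurableSet.const _) (MeasurableSet.union ?_ ?_)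
  · refine MeasurableSet.iUnion fun i => MeasurableSet.inter (MeasurableSet.const _) ?_
    exact measurableSet_eq_fun (measurable_pi_apply (x, i)) measurable_const
  · refine MeasurableSet.iUnion fun i => MeasurableSet.inter (MeasurableSet.const _) ?_
    exact measurableSet_eq_fun (measurable_pi_apply (y, i)) measurable_const

/-- The event that there is an open walk of length `n`. -/
def walkSet {d : ℕ} (x : Vtx d) : ℕ → Vtx d → Set (Bond d → Bool)
  | 0, y => {_ω | x = y}
  | n + 1, y => ⋃ z, walkSet x n z ∩ {ω | (openGraph ω).Adj z y}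

theorem measurableSet_walkSet {d : ℕ} (x : Vtx d) (n : ℕ) (y : Vtx d) :
    MeasurableSet (walkSet x n y) := by
  induction n generalizing y with
  | zero => exact MeasurableSet.const _
  | succ n ih =>
    exact MeasurableSet.iUnion fun z => (ih z).inter (measurableSet_adj z y)

theorem reachable_iff_walkSet {d : ℕ} (x y : Vtx d) (ω : Bond d → Bool) :
    (openGraph ω).Reachable x y ↔ ∃ n, ω ∈ walkSet x n y := by
  rw [SimpleGraph.reachable_iff_reflTransGen]
  constructor
  · intro h
    induction h with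
    | refl => exact ⟨0, rfl⟩
    | tail _ hbc ih =>
      obtain ⟨n, hn⟩ := ih
      exact ⟨n + 1, Set.mem_iUnion.mpr ⟨_, hn, hbc⟩⟩
  · rintro ⟨n, hn⟩
    induction n generalizing y with
    | zero =>
      have : x = y := hn
      rw [this]
    | succ n ih =>
      obtain ⟨z, hz, hzy⟩ := Set.mem_iUnion.mp hn
      exact Relation.ReflTransGen.tail (ih z hz) hzy

theorem measurableSet_reachable {d : ℕ} (x y : Vtx d) :
    MeasurableSet {ω : Bond d → Bool | (openGraph ω).Reachable x y} := by
  have h : {ω : Bond d → Bool | (openGraph ω).Reachable x y} = ⋃ n, walkSet x n y := by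
    ext ω
    rw [Set.mem_iUnion]
    exact reachable_iff_walkSet x y ω
  rw [h]
  exact MeasurableSet.iUnion fun n => measurableSet_walkSet x n y

theorem openGraph_mono {d : ℕ} {ω ω' : Bond d → Bool} (h : ∀ e, ω e = true → ω' e = true) :
    openGraph ω ≤ openGraph ω' := by
  intro a b hab
  simp only [openGraph, SimpleGraph.fromRel_adj] at hab ⊢
  refine ⟨hab.1, ?_⟩
  rcases hab.2 with ⟨i, hi, ho⟩ | ⟨i, hi, ho⟩
  · exact Or.inl ⟨i, hi, h _ ho⟩
  · exact Or.inr ⟨i, hi, h _ ho⟩

theorem cluster_mono {d : ℕ} {s t : ℝ} (h : s ≤ t) (U : Bond d → ℝ) :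
    cluster (conf s U) ⊆ cluster (conf t U) := by
  intro x hx
  refine SimpleGraph.Reachable.mono (openGraph_mono ?_) hx
  intro e he
  simp only [conf, decide_eq_true_eq] at he ⊢
  exact lt_of_lt_of_le he h

theorem measurableSet_label {d : ℕ} (t : ℝ) (x : Vtx d) :
    MeasurableSet {U : Bond d → ℝ | x ∈ cluster (conf t U)} :=
  (measurable_conf t) (measurableSet_reachable 0 x)

theorem tau_eq_label (d : ℕ) (p : ℝ≥0) (hp : p ≤ 1) (x : Vtx d) :
    tau d p hp x = (labelLaw d {U | x ∈ cluster (conf (p : ℝ) U)}).toReal := by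
  unfold tau
  rw [← map_conf d p hp, Measure.map_apply (measurable_conf _) (measurableSet_reachable 0 x)]
  rfl

theorem tau_mono {d : ℕ} {p q : ℝ≥0} (hp : p ≤ 1) (hq : q ≤ 1) (h : p ≤ q) (x : Vtx d) :
    tau d p hp x ≤ tau d q hq x := by
  rw [tau_eq_label, tau_eq_label]
  refine ENNReal.toReal_mono (measure_ne_top _ _) (measure_mono ?_)
  intro U hU
  exact cluster_mono (by exact_mod_cast h) U hU

theorem tau_zero {d : ℕ} (p : ℝ≥0) (hp : p ≤ 1) : tau d p hp 0 = 1 := by
  unfold tau
  have : {ω : Bond d → Bool | (openGraph ω).Reachable 0 0} = Set.univ := by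
    ext ω
    simp
  rw [this, measure_univ]
  simp

theorem tau_nonneg' {d : ℕ} (p : ℝ≥0) (hp : p ≤ 1) (x : Vtx d) : 0 ≤ tau d p hp x :=
  ENNReal.toReal_nonneg

/-- Eventually along `q n ↑ p` a connection at level `p` is present at level `q n`. -/
theorem eventually_mem_cluster {d : ℕ} {t : ℝ} {q : ℕ → ℝ} (hq : Tendsto q atTop (𝓝 t))
    (U : Bond d → ℝ) (x : Vtx d) (hx : x ∈ cluster (conf t U)) :
    ∀ᶠ n in atTop, x ∈ cluster (conf (q n) U) := by
  have hx' : Relation.ReflTransGen (openGraph (conf t U)).Adj 0 x := by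
    rw [← SimpleGraph.reachable_iff_reflTransGen]; exact hx
  have main : ∀ y, Relation.ReflTransGen (openGraph (conf t U)).Adj 0 y →
      ∀ᶠ n in atTop, Relation.ReflTransGen (openGraph (conf (q n) U)).Adj 0 y := by
    intro y hy
    induction hy with
    | refl => exact Eventually.of_forall fun n => Relation.ReflTransGen.refl
    | @tail b c _ hbc ih =>
      have hopen : ∀ e : Bond d, conf t U e = true → ∀ᶠ n in atTop, conf (q n) U e = true := by
        intro e he
        simp only [conf, decide_eq_true_eq] at he ⊢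
        exact hq.eventually (lt_mem_nhds he)
      have hadj : ∀ᶠ n in atTop, (openGraph (conf (q n) U)).Adj b c := by
        simp only [openGraph, SimpleGraph.fromRel_adj] at hbc ⊢
        rcases hbc.2 with ⟨i, hi, ho⟩ | ⟨i, hi, ho⟩
        · filter_upwards [hopen _ ho] with n hn
          exact ⟨hbc.1, Or.inl ⟨i, hi, hn⟩⟩
        · filter_upwards [hopen _ ho] with n hn
          exact ⟨hbc.1, Or.inr ⟨i, hi, hn⟩⟩
      filter_upwards [ih, hadj] with n h1 h2
      exact Relation.ReflTransGen.tail h1 h2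
  filter_upwards [main x hx'] with n hn
  show (openGraph (conf (q n) U)).Reachable 0 x
  rw [SimpleGraph.reachable_iff_reflTransGen]
  exact hn

theorem tendsto_tau {d : ℕ} {p : ℝ≥0} (hp : p ≤ 1) {q : ℕ → ℝ≥0} (hq : ∀ n, q n ≤ 1)
    (hlt : ∀ n, q n < p) (hmono : Monotone q) (hlim : Tendsto (fun n => (q n : ℝ)) atTop (𝓝 p))
    (x : Vtx d) : Tendsto (fun n => tau d (q n) (hq n) x) atTop (𝓝 (tau d p hp x)) := by
  simp only [tau_eq_label]
  refine (ENNReal.tendsto_toReal (measure_ne_top _ _)).comp ?_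
  have hU : {U : Bond d → ℝ | x ∈ cluster (conf (p : ℝ) U)}
      = ⋃ n, {U : Bond d → ℝ | x ∈ cluster (conf (q n : ℝ) U)} := by
    ext U
    rw [Set.mem_iUnion]
    constructor
    · intro h
      exact (eventually_mem_cluster hlim U x h).exists
    · rintro ⟨n, hn⟩
      exact cluster_mono (by exact_mod_cast (hlt n).le) U hn
  rw [hU]
  refine tendsto_measure_iUnion_atTop ?_
  intro m n hmn U hm
  exact cluster_mono (by exact_mod_cast hmono hmn) U hm

/-- Left-continuity in `p` of the two-point function, the susceptibility and the Fourier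
transform: for `0 < p` with finite susceptibility there is a sequence of rationals `q n < p`
with these limits. -/
theorem exists_rat_seq {d : ℕ} (p : ℝ≥0) (hp : p ≤ 1) (hp0 : 0 < p)
    (hs : Summable (tau d p hp)) :
    ∃ (q : ℕ → ℝ≥0) (hq : ∀ n, q n ≤ 1), (∀ n, q n < p) ∧ (∀ n, ∃ r : ℚ, (r : ℝ) = q n) ∧
      (∀ n, Summable (tau d (q n) (hq n))) ∧
      Tendsto (fun n => chi d (q n) (hq n)) atTop (𝓝 (chi d p hp)) ∧
      ∀ k, Tendsto (fun n => tauHat d (q n) (hq n) k) atTop (𝓝 (tauHat d p hp k)) := by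
  have hp0' : (0 : ℝ) < p := by exact_mod_cast hp0
  obtain ⟨u, humono, hult, hulim⟩ := Real.exists_seq_rat_strictMono_tendsto (p : ℝ)
  -- the sequence `max u 0`
  have hmax : ∀ n, max (u n : ℝ) 0 < p := fun n => max_lt (hult n) hp0'
  let q : ℕ → ℝ≥0 := fun n => ⟨max (u n : ℝ) 0, le_max_right _ _⟩
  have hqc : ∀ n, (q n : ℝ) = max (u n : ℝ) 0 := fun n => rfl
  have hlt : ∀ n, q n < p := fun n => by
    rw [← NNReal.coe_lt_coe, hqc]; exact hmax n
  have hq : ∀ n, q n ≤ 1 := fun n => (hlt n).le.trans hp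
  have hmono : Monotone q := by
    intro m n hmn
    rw [← NNReal.coe_le_coe, hqc, hqc]
    exact max_le_max (by exact_mod_cast humono.monotone hmn) le_rfl
  have hlim : Tendsto (fun n => (q n : ℝ)) atTop (𝓝 p) := by
    have h1 : Tendsto (fun n => max (u n : ℝ) 0) atTop (𝓝 (max (p : ℝ) 0)) :=
      hulim.max tendsto_const_nhds
    rw [max_eq_left hp0'.le] at h1
    exact h1
  have htau := fun x : Vtx d => tendsto_tau hp hq hlt hmono hlim x
  have hle : ∀ n x, tau d (q n) (hq n) x ≤ tau d p hp x := fun n x =>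
    tau_mono (hq n) hp (hlt n).le x
  refine ⟨q, hq, hlt, ?_, ?_, ?_, ?_⟩
  · intro n
    refine ⟨max (u n) 0, ?_⟩
    rw [hqc]
    push_cast
    rfl
  · intro n
    exact Summable.of_nonneg_of_le (fun x => tau_nonneg' _ _ x) (hle n) hs
  · unfold chi
    refine tendsto_tsum_of_dominated_convergence hs htau ?_
    refine Eventually.of_forall fun n x => ?_
    rw [Real.norm_eq_abs, abs_of_nonneg (tau_nonneg' _ _ x)]
    exact hle n x
  · intro k
    unfold tauHat
    refine tendsto_tsum_of_dominated_convergence hs (fun x => (htau x).mul_const _) ?_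
    refine Eventually.of_forall fun n x => ?_
    rw [Real.norm_eq_abs, abs_mul, abs_of_nonneg (tau_nonneg' _ _ x)]
    calc tau d (q n) (hq n) x * |Real.cos (∑ i, k i * (x i : ℝ))|
        ≤ tau d (q n) (hq n) x * 1 :=
          mul_le_mul_of_nonneg_left (Real.abs_cos_le_one _) (tau_nonneg' _ _ x)
      _ ≤ tau d p hp x := by rw [mul_one]; exact hle n x

end Pool.Agent.Lib.MP_54f242_pr
end

section

/-!
# Rademacher-Menshov inequality for chains of finite sets, abstract form
-/

set_option autoImplicit false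
set_option linter.deprecated false

open MeasureTheory Filter Topology
open scoped ENNReal NNReal

namespace Pool.Agent.Lib.MP_54f242_pr

theorem measurable_finset_sup {α K : Type*} [MeasurableSpace K]
    (s : Finset α → K → ℝ≥0∞) (hmeas : ∀ A, Measurable (s A)) (Ch : Finset (Finset α)) :
    Measurable (fun k => Ch.sup (fun A => s A k)) := by
  classical
  induction Ch using Finset.induction_on with
  | empty => simp
  | insert A S _ ih =>
    simp only [Finset.sup_insert]
    exact (hmeas A).sup ih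

/-- Rademacher-Menshov inequality for chains of finite sets, abstract form. -/
theorem maximal_abstract {α K : Type*} [DecidableEq α] [MeasurableSpace K] (κ : Measure K)
    (s : Finset α → K → ℝ≥0∞) (c : ℝ≥0∞) (hmeas : ∀ A, Measurable (s A))
    (hempty : ∀ k, s ∅ k = 0)
    (hsub : ∀ (m : ℕ), 1 ≤ m → ∀ (A B : Finset α), A ⊆ B → ∀ k,
      s B k ≤ (1 + m) * s A k + (1 + 1 / (m : ℝ≥0∞)) * s (B \ A) k)
    (hint : ∀ A, ∫⁻ k, s A k ∂κ ≤ c * A.card)
    (m : ℕ) (B : Finset α) (hB : B.card ≤ 2 ^ m) (Ch : Finset (Finset α))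
    (hCh : ∀ A ∈ Ch, A ⊆ B) (hchain : ∀ A ∈ Ch, ∀ A' ∈ Ch, A ⊆ A' ∨ A' ⊆ A) :
    ∫⁻ k, Ch.sup (fun A => s A k) ∂κ ≤ (m + 1) ^ 2 * (c * B.card) := by
  induction m generalizing B Ch with
  | zero =>
    have h1 : ∀ k, Ch.sup (fun A => s A k) ≤ s B k := by
      intro k
      refine Finset.sup_le fun A hA => ?_
      by_cases hAB : A = B
      · rw [hAB]
      · have h2 : A.card < B.card :=
          Finset.card_lt_card ((hCh A hA).ssubset_of_ne hAB)
        have h3 : A = ∅ := by
          rw [← Finset.card_eq_zero]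
          rw [pow_zero] at hB
          omega
        rw [h3, hempty]
        exact zero_le
    calc ∫⁻ k, Ch.sup (fun A => s A k) ∂κ ≤ ∫⁻ k, s B k ∂κ := lintegral_mono h1
      _ ≤ c * B.card := hint B
      _ = ((0 : ℕ) + 1) ^ 2 * (c * B.card) := by simp
  | succ m' ih =>
    rcases Nat.lt_or_ge (2 ^ m') B.card with hlt | hle
    swap
    · refine (ih B hle Ch hCh hchain).trans ?_
      gcongr
      exact le_self_add
    -- the threshold
    set m : ℕ := m' + 1 with hm
    have hm1 : 1 ≤ m := by omega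
    set Small := Ch.filter (fun A => A.card ≤ 2 ^ m') with hSmall
    set Large := Ch.filter (fun A => ¬ A.card ≤ 2 ^ m') with hLarge
    obtain ⟨L, hLB, hLcard, hLS, hLch⟩ : ∃ L : Finset α, L ⊆ B ∧ L.card ≤ 2 ^ m' ∧
        (∀ A ∈ Small, A ⊆ L) ∧ (L = ∅ ∨ L ∈ Ch) := by
      rcases Small.eq_empty_or_nonempty with h0 | h0
      · exact ⟨∅, Finset.empty_subset _, by simp, by simp [h0], Or.inl rfl⟩
      · obtain ⟨L, hL, hmax⟩ := Finset.exists_max_image Small Finset.card h0
        have hL' := Finset.mem_filter.mp hL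
        refine ⟨L, hCh L hL'.1, hL'.2, fun A hA => ?_, Or.inr hL'.1⟩
        have hA' := Finset.mem_filter.mp hA
        rcases hchain A hA'.1 L hL'.1 with h | h
        · exact h
        · exact (Finset.eq_of_subset_of_card_le h (hmax A hA)).ge
    obtain ⟨M, hMB, hMcard, hMS, hLM⟩ : ∃ M : Finset α, M ⊆ B ∧ 2 ^ m' ≤ M.card ∧
        (∀ A ∈ Large, M ⊆ A) ∧ L ⊆ M := by
      rcases Large.eq_empty_or_nonempty with h0 | h0
      · exact ⟨B, subset_rfl, hlt.le, by simp [h0], hLB⟩
      · obtain ⟨M, hM, hmin⟩ := Finset.exists_min_image Large Finset.card h0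
        have hM' := Finset.mem_filter.mp hM
        refine ⟨M, hCh M hM'.1, by omega, fun A hA => ?_, ?_⟩
        · have hA' := Finset.mem_filter.mp hA
          rcases hchain M hM'.1 A hA'.1 with h | h
          · exact h
          · exact (Finset.eq_of_subset_of_card_le h (hmin A hA)).ge
        · rcases hLch with rfl | hLc
          · exact Finset.empty_subset _
          · rcases hchain L hLc M hM'.1 with h | h
            · exact h
            · have := Finset.card_le_card h
              have := hM'.2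
              omega
    obtain ⟨A0, hLA, hAM, hA0⟩ := Finset.exists_subsuperset_card_eq hLM hLcard hMcard
    have hA0B : A0 ⊆ B := hAM.trans hMB
    set Large' := Large.image (fun A => A \ A0) with hLarge'
    -- pointwise bound
    have hpt : ∀ k, Ch.sup (fun A => s A k) ≤ (1 + m) * s A0 k + (1 + 1 / (m : ℝ≥0∞)) *
        (Small.sup (fun A => s A k) + Large'.sup (fun A => s A k)) := by
      intro k
      refine Finset.sup_le fun A hA => ?_
      by_cases hAc : A.card ≤ 2 ^ m'
      · have hAS : A ∈ Small := Finset.mem_filter.mpr ⟨hA, hAc⟩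
        calc s A k ≤ Small.sup (fun A => s A k) := Finset.le_sup (f := fun A => s A k) hAS
          _ = 1 * Small.sup (fun A => s A k) := (one_mul _).symm
          _ ≤ (1 + 1 / (m : ℝ≥0∞)) *
              (Small.sup (fun A => s A k) + Large'.sup (fun A => s A k)) :=
              mul_le_mul' le_self_add le_self_add
          _ ≤ _ := le_add_self
      · have hAL : A ∈ Large := Finset.mem_filter.mpr ⟨hA, hAc⟩
        have h2 : A \ A0 ∈ Large' := Finset.mem_image_of_mem _ hAL
        refine (hsub m hm1 A0 A (hAM.trans (hMS A hAL)) k).trans ?_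
        gcongr
        exact (Finset.le_sup (f := fun A => s A k) h2).trans le_add_self
    have hcardB : (B \ A0).card = B.card - 2 ^ m' := by
      rw [Finset.card_sdiff_of_subset hA0B, hA0]
    have ihS := ih A0 hA0.le Small (fun A hA => (hLS A hA).trans hLA)
      (fun A hA A' hA' => hchain A (Finset.mem_filter.mp hA).1 A' (Finset.mem_filter.mp hA').1)
    have ihL := ih (B \ A0) (by rw [hcardB]; rw [pow_succ] at hB; omega) Large'
      (by
        intro A hA
        obtain ⟨A', hA', rfl⟩ := Finset.mem_image.mp hA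
        exact Finset.sdiff_subset_sdiff (hCh A' (Finset.mem_filter.mp hA').1) subset_rfl)
      (by
        intro A hA A' hA'
        obtain ⟨A1, hA1, rfl⟩ := Finset.mem_image.mp hA
        obtain ⟨A2, hA2, rfl⟩ := Finset.mem_image.mp hA'
        rcases hchain A1 (Finset.mem_filter.mp hA1).1 A2 (Finset.mem_filter.mp hA2).1 with h | h
        · exact Or.inl (Finset.sdiff_subset_sdiff h subset_rfl)
        · exact Or.inr (Finset.sdiff_subset_sdiff h subset_rfl))
    have hmeasS := measurable_finset_sup s hmeas Small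
    have hmeasL := measurable_finset_sup s hmeas Large'
    have hmeasSL : Measurable (fun k => Small.sup (fun A => s A k) + Large'.sup (fun A => s A k)) :=
      hmeasS.add hmeasL
    have hsum : ((A0.card : ℝ≥0∞) + ((B \ A0).card : ℝ≥0∞)) = B.card := by
      have : A0.card + (B \ A0).card = B.card := by
        rw [hcardB, hA0]; omega
      exact_mod_cast this
    have hm0 : (m : ℝ≥0∞) ≠ 0 := by
      simp [hm]
    have hmt : (m : ℝ≥0∞) ≠ ⊤ := ENNReal.natCast_ne_top m
    have hmm : ((m' : ℝ≥0∞) + 1) = m := by rw [hm]; push_cast; rfl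
    rw [hmm] at ihS ihL
    calc ∫⁻ k, Ch.sup (fun A => s A k) ∂κ
        ≤ ∫⁻ k, ((1 + m) * s A0 k + (1 + 1 / (m : ℝ≥0∞)) *
          (Small.sup (fun A => s A k) + Large'.sup (fun A => s A k))) ∂κ := lintegral_mono hpt
      _ = (1 + m) * ∫⁻ k, s A0 k ∂κ + (1 + 1 / (m : ℝ≥0∞)) *
          (∫⁻ k, Small.sup (fun A => s A k) ∂κ + ∫⁻ k, Large'.sup (fun A => s A k) ∂κ) := by
          rw [lintegral_add_left ((hmeas A0).const_mul _), lintegral_const_mul _ (hmeas A0),
            lintegral_const_mul _ hmeasSL, lintegral_add_left hmeasS]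
      _ ≤ (1 + m) * (c * B.card) + (1 + 1 / (m : ℝ≥0∞)) *
          ((m : ℝ≥0∞) ^ 2 * (c * A0.card) + (m : ℝ≥0∞) ^ 2 * (c * (B \ A0).card)) := by
          gcongr
          refine (hint A0).trans ?_
          gcongr
      _ = (1 + m) * (c * B.card) + ((m : ℝ≥0∞) ^ 2 + m) * (c * B.card) := by
          congr 1
          rw [← mul_add, ← mul_add, hsum, ← mul_assoc]
          congr 1
          rw [add_mul, one_mul, one_div]
          congr 1
          rw [pow_two, ← mul_assoc, ENNReal.inv_mul_cancel hm0 hmt, one_mul]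
      _ = ((m : ℝ≥0∞) + 1) ^ 2 * (c * B.card) := by ring

end Pool.Agent.Lib.MP_54f242_pr
end

section

/-! The maximal inequality for finitely many values of `p`. -/

set_option autoImplicit false
set_option linter.deprecated false

open MeasureTheory Filter Topology
open scoped ENNReal NNReal

namespace Pool.Agent.Lib.MP_54f242_pr

variable {d : ℕ}

/-- The size of a finite set (`0` for an infinite set). -/
noncomputable def sz (C : Set (Vtx d)) : ℝ := spec C 0

lemma ampl_zero (A : Finset (Vtx d)) : ampl A 0 = (A.card : ℝ) ^ 2 := by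
  unfold ampl
  simp

lemma sz_of_finite {C : Set (Vtx d)} (h : C.Finite) : sz C = h.toFinset.card := by
  unfold sz spec
  rw [dif_pos h, ampl_zero]
  rcases Nat.eq_zero_or_pos h.toFinset.card with h0 | h0
  · rw [h0]; simp
  · have : (h.toFinset.card : ℝ) ≠ 0 := by positivity
    field_simp

lemma sz_of_infinite {C : Set (Vtx d)} (h : ¬ C.Finite) : sz C = 0 := by
  unfold sz spec
  rw [dif_neg h]

/-- The size of `C` is in `(2^m / 2, 2^m]`. -/
def cls (m : ℕ) (C : Set (Vtx d)) : Prop := (2 : ℝ) ^ m / 2 < sz C ∧ sz C ≤ 2 ^ m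

lemma cls.finite {m : ℕ} {C : Set (Vtx d)} (h : cls m C) : C.Finite := by
  by_contra hc
  have h1 := h.1
  rw [sz_of_infinite hc] at h1
  have : (0 : ℝ) < 2 ^ m / 2 := by positivity
  linarith

lemma exists_cls {C : Set (Vtx d)} (h : C.Finite) (hne : C.Nonempty) : ∃ m, cls m C := by
  have hcard : 1 ≤ h.toFinset.card := by
    rw [Nat.one_le_iff_ne_zero, Finset.card_ne_zero]
    simpa using hne
  refine ⟨Nat.clog 2 h.toFinset.card, ?_, ?_⟩
  · rw [sz_of_finite h]
    rcases Nat.eq_or_lt_of_le hcard with h1 | h1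
    · rw [← h1]; simp; norm_num
    · have h2 := Nat.pow_pred_clog_lt_self (b := 2) (by norm_num) h1
      have h3 : 0 < Nat.clog 2 h.toFinset.card := Nat.clog_pos (by norm_num) h1
      obtain ⟨j, hj⟩ : ∃ j, Nat.clog 2 h.toFinset.card = j + 1 := ⟨_, (Nat.succ_pred_eq_of_pos h3).symm⟩
      rw [hj] at h2 ⊢
      simp only [Nat.pred_succ] at h2
      have h4 : ((2 ^ j : ℕ) : ℝ) < h.toFinset.card := by exact_mod_cast h2
      push_cast at h4
      rw [pow_succ]
      linarith
  · rw [sz_of_finite h]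
    have h2 := Nat.le_pow_clog (b := 2) (by norm_num) h.toFinset.card
    exact_mod_cast h2

lemma spec_nonneg (C : Set (Vtx d)) (k : Fin d → ℝ) : 0 ≤ spec C k := by
  unfold spec
  split_ifs with h
  · unfold ampl; positivity
  · exact le_rfl

lemma spec_le_tsum (C : Set (Vtx d)) (hne : C.Nonempty) (k : Fin d → ℝ) :
    ENNReal.ofReal (spec C k) ≤
      ∑' m : ℕ, open Classical in if cls m C then ENNReal.ofReal (spec C k) else 0 := by
  classical
  by_cases h : C.Finite
  · obtain ⟨m, hm⟩ := exists_cls h hne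
    calc ENNReal.ofReal (spec C k) = if cls m C then ENNReal.ofReal (spec C k) else 0 := by
          rw [if_pos hm]
      _ ≤ _ := ENNReal.le_tsum m
  · unfold spec
    rw [dif_neg h]
    simp

/-- pointwise bound for the spectral density of a set of size in `(2^m/2, 2^m]` -/
lemma spec_le_ampl {m : ℕ} {C : Set (Vtx d)} (h : cls m C) (k : Fin d → ℝ) :
    ENNReal.ofReal (spec C k) ≤
      ENNReal.ofReal (2 / 2 ^ m) * ENNReal.ofReal (ampl h.finite.toFinset k) := by
  rw [← ENNReal.ofReal_mul (by positivity)]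
  apply ENNReal.ofReal_le_ofReal
  have h1 := h.1
  rw [sz_of_finite h.finite] at h1
  unfold spec
  rw [dif_pos h.finite]
  have h2 : 0 ≤ ampl h.finite.toFinset k := by unfold ampl; positivity
  have h3 : (0 : ℝ) < 2 ^ m / 2 := by positivity
  calc ampl h.finite.toFinset k / h.finite.toFinset.card
      ≤ ampl h.finite.toFinset k / (2 ^ m / 2) := by gcongr
    _ = 2 / 2 ^ m * ampl h.finite.toFinset k := by field_simp

/-- **Maximal inequality** for a finite chain of sets with sizes in `(2^m/2, 2^m]`. -/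
lemma lintegral_sup_spec_le {ι : Type*} (F : Finset ι) (C : ι → Set (Vtx d)) (m : ℕ)
    (hchain : ∀ i ∈ F, ∀ j ∈ F, C i ⊆ C j ∨ C j ⊆ C i) (hcls : ∀ i ∈ F, cls m (C i)) :
    ∫⁻ k in torus d, F.sup (fun i => ENNReal.ofReal (spec (C i) k)) ≤
      2 * (m + 1) ^ 2 * ENNReal.ofReal ((2 * Real.pi) ^ d) := by
  classical
  let f : {i // i ∈ F} → Finset (Vtx d) := fun i => (hcls i.1 i.2).finite.toFinset
  let Ch : Finset (Finset (Vtx d)) := F.attach.image f
  have hcard : ∀ A ∈ Ch, A.card ≤ 2 ^ m := by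
    intro A hA
    obtain ⟨i, -, rfl⟩ := Finset.mem_image.1 hA
    have h1 := (hcls i.1 i.2).2
    rw [sz_of_finite (hcls i.1 i.2).finite] at h1
    exact_mod_cast h1
  have hch : ∀ A ∈ Ch, ∀ A' ∈ Ch, A ⊆ A' ∨ A' ⊆ A := by
    intro A hA A' hA'
    obtain ⟨i, -, rfl⟩ := Finset.mem_image.1 hA
    obtain ⟨j, -, rfl⟩ := Finset.mem_image.1 hA'
    rcases hchain i.1 i.2 j.1 j.2 with h | h
    · left; exact Set.Finite.toFinset_subset_toFinset.2 h
    · right; exact Set.Finite.toFinset_subset_toFinset.2 h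
  obtain ⟨B, hB, hB2⟩ : ∃ B : Finset (Vtx d), B.card ≤ 2 ^ m ∧ ∀ A ∈ Ch, A ⊆ B := by
    rcases Ch.eq_empty_or_nonempty with h0 | h0
    · exact ⟨∅, by simp, by simp [h0]⟩
    · obtain ⟨B, hB, hmax⟩ := Finset.exists_max_image Ch Finset.card h0
      refine ⟨B, hcard B hB, fun A hA => ?_⟩
      rcases hch A hA B hB with h | h
      · exact h
      · have := Finset.eq_of_subset_of_card_le h (hmax A hA)
        rw [this]
  have key := maximal_abstract (volume.restrict (torus d))
    (fun (A : Finset (Vtx d)) k => ENNReal.ofReal (ampl A k)) (ENNReal.ofReal ((2 * Real.pi) ^ d))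
    (fun A => (continuous_ampl A).measurable.ennreal_ofReal)
    (fun k => by unfold ampl; simp)
    (fun m hm A B h k => ampl_split m hm A B h k)
    (fun A => (lintegral_ampl A).le) m B hB Ch hB2 hch
  have hpt : ∀ k, F.sup (fun i => ENNReal.ofReal (spec (C i) k)) ≤
      ENNReal.ofReal (2 / 2 ^ m) * Ch.sup (fun A => ENNReal.ofReal (ampl A k)) := by
    intro k
    apply Finset.sup_le
    intro i hi
    refine (spec_le_ampl (hcls i hi) k).trans ?_
    gcongr
    exact Finset.le_sup (f := fun A => ENNReal.ofReal (ampl A k))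
      (Finset.mem_image.2 ⟨⟨i, hi⟩, Finset.mem_attach _ _, rfl⟩)
  calc ∫⁻ k in torus d, F.sup (fun i => ENNReal.ofReal (spec (C i) k))
      ≤ ∫⁻ k in torus d, ENNReal.ofReal (2 / 2 ^ m) *
          Ch.sup (fun A => ENNReal.ofReal (ampl A k)) := lintegral_mono hpt
    _ = ENNReal.ofReal (2 / 2 ^ m) * ∫⁻ k in torus d,
          Ch.sup (fun A => ENNReal.ofReal (ampl A k)) := by
        rw [lintegral_const_mul' _ _ ENNReal.ofReal_ne_top]
    _ ≤ ENNReal.ofReal (2 / 2 ^ m) *
          ((m + 1) ^ 2 * (ENNReal.ofReal ((2 * Real.pi) ^ d) * B.card)) := by gcongr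
    _ ≤ ENNReal.ofReal (2 / 2 ^ m) *
          ((m + 1) ^ 2 * (ENNReal.ofReal ((2 * Real.pi) ^ d) * (2 ^ m : ℕ))) := by gcongr
    _ = (ENNReal.ofReal (2 / 2 ^ m) * (2 ^ m : ℕ)) *
          ((m + 1) ^ 2 * ENNReal.ofReal ((2 * Real.pi) ^ d)) := by ring
    _ = 2 * (m + 1) ^ 2 * ENNReal.ofReal ((2 * Real.pi) ^ d) := by
        have : ENNReal.ofReal (2 / 2 ^ m) * ((2 ^ m : ℕ) : ℝ≥0∞) = 2 := by
          rw [← ENNReal.ofReal_natCast, ← ENNReal.ofReal_mul (by positivity)]
          push_cast
          rw [div_mul_cancel₀ _ (by positivity)]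
          simp
        rw [this]; ring

end Pool.Agent.Lib.MP_54f242_pr
end
end

section

/-! The maximal inequality for finitely many values of `p`, probabilistic part. -/

set_option autoImplicit false
set_option linter.deprecated false

open MeasureTheory Filter Topology
open scoped ENNReal NNReal

namespace Pool.Agent.Lib.MP_54f242_pr

variable {d : ℕ}

/-- The values of `p` with finite susceptibility. -/
abbrev Par (d : ℕ) : Type := {p : ℝ≥0 // ∃ hp : p ≤ 1, Summable (tau d p hp)}

lemma Par.le_one (i : Par d) : i.1 ≤ 1 := i.2.choose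

lemma Par.summable (i : Par d) : Summable (tau d i.1 i.le_one) := i.2.choose_spec

/-- The susceptibility. -/
noncomputable def sus (i : Par d) : ℝ := chi d i.1 i.le_one

/-- The cluster of the origin in the coupling. -/
noncomputable def clu (i : Par d) (U : Bond d → ℝ) : Set (Vtx d) := cluster (conf (i.1 : ℝ) U)

/-- The weight `(1 + log χ)^(-(3+ε))`. -/
noncomputable def wt (ε : ℝ) (i : Par d) : ℝ≥0∞ :=
  ENNReal.ofReal ((1 + Real.log (sus i)) ^ (-(3 + ε)))

lemma tau_nonneg (p : ℝ≥0) (hp : p ≤ 1) (x : Vtx d) : 0 ≤ tau d p hp x := ENNReal.toReal_nonneg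

lemma one_le_sus (i : Par d) : 1 ≤ sus i := by
  unfold sus chi
  rw [← tau_zero (d := d) i.1 i.le_one]
  exact i.summable.le_tsum 0 (fun x _ => tau_nonneg _ _ x)

lemma zero_mem_clu (i : Par d) (U : Bond d → ℝ) : (0 : Vtx d) ∈ clu i U :=
  SimpleGraph.Reachable.refl _

lemma clu_mono {i j : Par d} (h : i.1 ≤ j.1) (U : Bond d → ℝ) : clu i U ⊆ clu j U :=
  cluster_mono (by exact_mod_cast h) U

lemma clu_chain (i j : Par d) (U : Bond d → ℝ) : clu i U ⊆ clu j U ∨ clu j U ⊆ clu i U := by
  rcases le_total i.1 j.1 with h | h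
  · exact Or.inl (clu_mono h U)
  · exact Or.inr (clu_mono h U)

lemma measurable_spec_clu (i : Par d) :
    Measurable (fun z : (Bond d → ℝ) × (Fin d → ℝ) => spec (clu i z.1) z.2) := by
  have h : Measurable (fun z : (Bond d → ℝ) × (Fin d → ℝ) => (conf (i.1 : ℝ) z.1, z.2)) :=
    ((measurable_conf _).comp measurable_fst).prodMk measurable_snd
  exact measurable_spec.comp h

lemma measurable_sz_clu (i : Par d) : Measurable (fun U : Bond d → ℝ => sz (clu i U)) := by
  have h := (measurable_spec_clu i).comp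
    (measurable_id.prodMk (measurable_const (a := (0 : Fin d → ℝ))) :
      Measurable (fun U : Bond d → ℝ => (U, (0 : Fin d → ℝ))))
  exact h

lemma measurableSet_cls (i : Par d) (m : ℕ) : MeasurableSet {U : Bond d → ℝ | cls m (clu i U)} := by
  unfold cls
  exact (measurableSet_lt measurable_const (measurable_sz_clu i)).inter
    (measurableSet_le (measurable_sz_clu i) measurable_const)

lemma ae_finite_clu (i : Par d) : ∀ᵐ U ∂(labelLaw d), (clu i U).Finite := by
  have h := ae_finite i.1 i.le_one i.summable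
  rw [← map_conf] at h
  exact ae_of_ae_map (measurable_conf _).aemeasurable h

lemma lintegral_label (i : Par d) (k : Fin d → ℝ) :
    ENNReal.ofReal (tauHat d i.1 i.le_one k) =
      ∫⁻ U, ENNReal.ofReal (spec (clu i U) k) ∂(labelLaw d) := by
  rw [tauHat_eq_lintegral i.1 i.le_one i.summable, ← map_conf, lintegral_map]
  · rfl
  · have h : Measurable (fun ω : Bond d → Bool => (ω, k)) := measurable_id.prodMk measurable_const
    exact (measurable_spec.comp h).ennreal_ofReal
  · exact measurable_conf _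

lemma markov_label (i : Par d) (n : ℕ) :
    n * labelLaw d {U | (clu i U).Finite ∧ (n : ℝ) ≤ sz (clu i U)} ≤ ENNReal.ofReal (sus i) := by
  have h := card_markov i.1 i.le_one i.summable n
  rw [← map_conf] at h
  have h2 := Measure.le_map_apply (μ := labelLaw d) (measurable_conf (i.1 : ℝ)).aemeasurable
    {ω : Bond d → Bool | (cluster ω).Finite ∧ n ≤ (cluster ω).ncard}
  refine (mul_le_mul_right ?_ _).trans h
  refine (measure_mono ?_).trans h2
  rintro U ⟨h3, h4⟩
  refine ⟨h3, ?_⟩
  rw [sz_of_finite h3] at h4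
  change n ≤ (clu i U).ncard
  rw [Set.ncard_eq_toFinset_card _ h3]
  exact_mod_cast h4

/-- the exceptional event at level `m` -/
def badSet (F : Finset (Par d)) (m : ℕ) : Set (Bond d → ℝ) :=
  {U | ∃ i ∈ F, sus i < (√2) ^ m ∧ cls m (clu i U)}

lemma sqrt_two_pow (m : ℕ) : (√2 : ℝ) ^ m * (√2 : ℝ) ^ m = 2 ^ m := by
  rw [← mul_pow, Real.mul_self_sqrt (by norm_num)]

lemma measure_badSet_le (F : Finset (Par d)) (m : ℕ) :
    labelLaw d (badSet F m) ≤ ENNReal.ofReal (2 / (√2) ^ m) := by
  classical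
  rcases (F.filter fun i => sus i < (√2) ^ m).eq_empty_or_nonempty with h0 | h0
  · have : badSet F m = ∅ := by
      ext U
      simp only [badSet, Set.mem_ofPred_eq, Set.mem_empty_iff_false, iff_false, not_exists, not_and]
      intro i hi hi2
      exact absurd (Finset.mem_filter.2 ⟨hi, hi2⟩) (by rw [h0]; simp)
    rw [this]; simp
  · obtain ⟨j, hj, hmax⟩ := Finset.exists_max_image _ (fun i : Par d => i.1) h0
    rw [Finset.mem_filter] at hj
    set n : ℕ := ⌈(2 : ℝ) ^ m / 2⌉₊ with hn
    have hnpos : (0 : ℝ) < 2 ^ m / 2 := by positivity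
    have hnle : (2 : ℝ) ^ m / 2 ≤ n := Nat.le_ceil _
    have hsub : badSet F m ⊆ {U | (clu j U).Finite ∧ (n : ℝ) ≤ sz (clu j U)} ∪
        {U | ¬ (clu j U).Finite} := by
      rintro U ⟨i, hi, hi2, hi3⟩
      by_cases hf : (clu j U).Finite
      · left
        refine ⟨hf, ?_⟩
        have hle := hmax i (Finset.mem_filter.2 ⟨hi, hi2⟩)
        have h1 := hi3.1
        have h2 : (2 : ℝ) ^ m / 2 < sz (clu j U) := by
          refine h1.trans_le ?_
          rw [sz_of_finite hi3.finite, sz_of_finite hf]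
          exact_mod_cast Finset.card_le_card
            (Set.Finite.toFinset_subset_toFinset.2 (clu_mono hle U))
        rw [sz_of_finite hf] at h2 ⊢
        have h5 : n ≤ hf.toFinset.card := Nat.ceil_le.2 h2.le
        exact_mod_cast h5
      · right; exact hf
    have hnull : labelLaw d {U | ¬ (clu j U).Finite} = 0 := ae_finite_clu j
    have hle : labelLaw d (badSet F m) ≤
        labelLaw d {U | (clu j U).Finite ∧ (n : ℝ) ≤ sz (clu j U)} := by
      refine (measure_mono hsub).trans ((measure_union_le _ _).trans ?_)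
      rw [hnull, add_zero]
    refine hle.trans ?_
    have hmk := markov_label j n
    have hn0 : (n : ℝ≥0∞) ≠ 0 := by
      have : (0 : ℝ) < n := lt_of_lt_of_le hnpos hnle
      have h3 : 0 < n := by exact_mod_cast this
      exact_mod_cast h3.ne'
    have h4 : labelLaw d {U | (clu j U).Finite ∧ (n : ℝ) ≤ sz (clu j U)} ≤
        ENNReal.ofReal (sus j) / n := by
      rw [ENNReal.le_div_iff_mul_le (Or.inl hn0) (Or.inl (ENNReal.natCast_ne_top n)), mul_comm]
      exact hmk
    refine h4.trans ?_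
    rw [← ENNReal.ofReal_natCast, ← ENNReal.ofReal_div_of_pos (lt_of_lt_of_le hnpos hnle)]
    apply ENNReal.ofReal_le_ofReal
    have hs0 : 0 < sus j := lt_of_lt_of_le one_pos (one_le_sus j)
    have hr : (0 : ℝ) < (√2) ^ m := by positivity
    calc sus j / n ≤ (√2) ^ m / (2 ^ m / 2) := by gcongr; exact hj.2.le
      _ = 2 / (√2) ^ m := by
        rw [← sqrt_two_pow m]; field_simp

lemma log_sqrt_two : 1 / 3 < Real.log √2 := by
  rw [Real.log_sqrt (by norm_num)]
  have := Real.log_two_gt_d9
  linarith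

lemma wt_le_one {ε : ℝ} (hε : 0 < ε) (i : Par d) : wt ε i ≤ 1 := by
  unfold wt
  rw [← ENNReal.ofReal_one]
  apply ENNReal.ofReal_le_ofReal
  have h : 0 ≤ Real.log (sus i) := Real.log_nonneg (one_le_sus i)
  exact Real.rpow_le_one_of_one_le_of_nonpos (by linarith) (by linarith)

lemma wt_le {ε : ℝ} (hε : 0 < ε) (i : Par d) {m : ℕ} (h : (√2 : ℝ) ^ m ≤ sus i) :
    wt ε i ≤ ENNReal.ofReal ((3 / (m + 1)) ^ (3 + ε)) := by
  unfold wt
  apply ENNReal.ofReal_le_ofReal
  have h1 : (m : ℝ) * (1 / 3) ≤ Real.log (sus i) := by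
    calc (m : ℝ) * (1 / 3) ≤ m * Real.log √2 := by gcongr; exact log_sqrt_two.le
      _ = Real.log ((√2) ^ m) := by rw [Real.log_pow]
      _ ≤ Real.log (sus i) := Real.log_le_log (by positivity) h
  have h2 : ((m : ℝ) + 1) / 3 ≤ 1 + Real.log (sus i) := by linarith
  have h3 : (0 : ℝ) < ((m : ℝ) + 1) / 3 := by positivity
  calc (1 + Real.log (sus i)) ^ (-(3 + ε)) ≤ (((m : ℝ) + 1) / 3) ^ (-(3 + ε)) :=
        Real.rpow_le_rpow_of_nonpos h3 h2 (by linarith)
    _ = (3 / ((m : ℝ) + 1)) ^ (3 + ε) := by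
        rw [Real.rpow_neg h3.le, ← Real.inv_rpow h3.le, inv_div]

/-- the term of level `m` -/
noncomputable def lev (ε : ℝ) (F : Finset (Par d)) (m : ℕ) (U : Bond d → ℝ) (k : Fin d → ℝ) :
    ℝ≥0∞ :=
  open Classical in
  F.sup (fun i => wt ε i * if cls m (clu i U) then ENNReal.ofReal (spec (clu i U) k) else 0)

lemma measurable_one_term (m : ℕ) (i : Par d) : Measurable
    (fun z : (Bond d → ℝ) × (Fin d → ℝ) =>
      open Classical in if cls m (clu i z.1) then ENNReal.ofReal (spec (clu i z.1) z.2) else 0) := by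
  classical
  apply Measurable.ite
  · exact measurable_fst (measurableSet_cls i m)
  · exact (measurable_spec_clu i).ennreal_ofReal
  · exact measurable_const

lemma measurable_fsup {α ι : Type*} [MeasurableSpace α] (F : Finset ι) (f : ι → α → ℝ≥0∞)
    (hf : ∀ i ∈ F, Measurable (f i)) : Measurable (fun x => F.sup (fun i => f i x)) := by
  classical
  induction F using Finset.induction_on with
  | empty => simp only [Finset.sup_empty]; exact measurable_const
  | insert a s ha ih =>
    simp only [Finset.sup_insert]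
    exact (hf a (Finset.mem_insert_self _ _)).sup
      (ih fun i hi => hf i (Finset.mem_insert_of_mem hi))

lemma measurable_lev (ε : ℝ) (F : Finset (Par d)) (m : ℕ) :
    Measurable (fun z : (Bond d → ℝ) × (Fin d → ℝ) => lev ε F m z.1 z.2) := by
  unfold lev
  exact measurable_fsup F _ fun i _ => (measurable_one_term m i).const_mul _

/-- bound of the term of level `m` after integration over `k` -/
lemma lintegral_lev_le {ε : ℝ} (hε : 0 < ε) (F : Finset (Par d)) (m : ℕ) (U : Bond d → ℝ) :
    ∫⁻ k in torus d, lev ε F m U k ≤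
      (ENNReal.ofReal ((3 / (m + 1)) ^ (3 + ε)) + (badSet F m).indicator 1 U) *
        (2 * (m + 1) ^ 2 * ENNReal.ofReal ((2 * Real.pi) ^ d)) := by
  classical
  set c : ℝ≥0∞ := ENNReal.ofReal ((3 / (m + 1)) ^ (3 + ε)) + (badSet F m).indicator 1 U with hc
  have hctop : c ≠ ⊤ := by
    rw [hc]
    apply ENNReal.add_ne_top.2
    refine ⟨ENNReal.ofReal_ne_top, ?_⟩
    by_cases hU : U ∈ badSet F m
    · rw [Set.indicator_of_mem hU]; simp
    · rw [Set.indicator_of_notMem hU]; simp
  have hpt : ∀ k, lev ε F m U k ≤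
      c * (F.filter fun i => cls m (clu i U)).sup (fun i => ENNReal.ofReal (spec (clu i U) k)) := by
    intro k
    unfold lev
    apply Finset.sup_le
    intro i hi
    by_cases hcl : cls m (clu i U)
    · rw [if_pos hcl]
      have h1 : ENNReal.ofReal (spec (clu i U) k) ≤
          (F.filter fun i => cls m (clu i U)).sup (fun i => ENNReal.ofReal (spec (clu i U) k)) :=
        Finset.le_sup (f := fun i => ENNReal.ofReal (spec (clu i U) k))
          (Finset.mem_filter.2 ⟨hi, hcl⟩)
      have h2 : wt ε i ≤ c := by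
        rcases lt_or_ge (sus i) ((√2) ^ m) with h3 | h3
        · have hU : U ∈ badSet F m := ⟨i, hi, h3, hcl⟩
          rw [hc, Set.indicator_of_mem hU]
          exact (wt_le_one hε i).trans (by simp)
        · exact (wt_le hε i h3).trans le_self_add
      gcongr
    · rw [if_neg hcl, mul_zero]
      exact bot_le
  calc ∫⁻ k in torus d, lev ε F m U k
      ≤ ∫⁻ k in torus d, c * (F.filter fun i => cls m (clu i U)).sup
          (fun i => ENNReal.ofReal (spec (clu i U) k)) := lintegral_mono hpt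
    _ = c * ∫⁻ k in torus d, (F.filter fun i => cls m (clu i U)).sup
          (fun i => ENNReal.ofReal (spec (clu i U) k)) := lintegral_const_mul' _ _ hctop
    _ ≤ _ := by
        gcongr
        apply lintegral_sup_spec_le
        · intro i _ j _
          exact clu_chain i j U
        · intro i hi
          exact (Finset.mem_filter.1 hi).2

lemma lintegral_add_indicator_mul_le {α : Type*} [MeasurableSpace α] (μ : Measure α)
    [IsProbabilityMeasure μ] (a c : ℝ≥0∞) (hc : c ≠ ⊤) (s : Set α) :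
    ∫⁻ x, (a + s.indicator 1 x) * c ∂μ ≤ (a + μ s) * c := by
  rw [lintegral_mul_const' c _ hc, lintegral_add_left measurable_const, lintegral_const,
    measure_univ, mul_one]
  gcongr
  exact lintegral_indicator_one_le _

lemma lintegral_lintegral_lev_le {ε : ℝ} (hε : 0 < ε) (F : Finset (Par d)) (m : ℕ) :
    ∫⁻ U, (∫⁻ k in torus d, lev ε F m U k) ∂(labelLaw d) ≤
      (ENNReal.ofReal ((3 / (m + 1)) ^ (3 + ε)) + ENNReal.ofReal (2 / (√2) ^ m)) *
        (2 * (m + 1) ^ 2 * ENNReal.ofReal ((2 * Real.pi) ^ d)) := by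
  have hc : (2 * ((m : ℝ≥0∞) + 1) ^ 2 * ENNReal.ofReal ((2 * Real.pi) ^ d)) ≠ ⊤ := by
    refine ENNReal.mul_ne_top (ENNReal.mul_ne_top (by simp) ?_) ENNReal.ofReal_ne_top
    exact ENNReal.pow_ne_top (by simp)
  refine (lintegral_mono fun U => lintegral_lev_le hε F m U).trans ?_
  refine (lintegral_add_indicator_mul_le (labelLaw d) _ _ hc (badSet F m)).trans ?_
  gcongr
  exact measure_badSet_le F m

/-- The constant. -/
noncomputable def cst (ε : ℝ) : ℝ≥0∞ :=
  ∑' m : ℕ, (ENNReal.ofReal ((3 / (m + 1)) ^ (3 + ε)) + ENNReal.ofReal (2 / (√2) ^ m)) *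
    (2 * (m + 1) ^ 2)

end Pool.Agent.Lib.MP_54f242_pr
end
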